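import Pool.Agent.R29.CB.Run
set_option linter.all false

/-! Certificate tables (generated). -/

namespace R29.CB

def th22 : Th := ⟨31, 6, 1, 15, true⟩

def tab22 : List Node := [
  { m := 3, L := [7], x := 0, cs := [.go 1 [0, 1, 2], .go 2 [0, 1, 2, 3], .go 2 [0, 2, 1, 3], .go 3 [0, 1, 2, 3, 4]] },
  { m := 3, L := [7, 7], x := 0, cs := [.dia 0, .dia 0, .dia 0, .dia 0] },
  { m := 4, L := [11, 7], x := 0, cs := [.dia 0, .dia 0, .dia 0, .dia 0, .dia 0, .dia 0, .dia 0] },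
  { m := 5, L := [25, 7], x := 0, cs := [.dia 0, .dia 0, .dia 0, .dia 0, .dia 0, .dia 0, .dia 0, .dia 0, .dia 0, .dia 0, .go 4 [0, 1, 2, 3, 4, 5, 6]] },
  { m := 7, L := [97, 25, 7], x := 1, cs := [.gt 0 1, .gt 0 1, .gt 0 1, .gt 0 1, .gt 0 1, .gt 0 1, .gt 0 1, .gt 0 1, .gt 0 1, .gt 0 1, .gt 0 7, .gt 0 7, .gt 0 7, .gt 0 7, .gt 0 7, .go 5 [0, 1, 2, 3, 4, 5, 6, 7, 8]] },
  { m := 9, L := [386, 97, 25, 7], x := 1, cs := [.dia 1, .dia 1, .dia 1, .dia 1, .dia 1, .dia 1, .ne 0 1, .ne 0 1, .ne 0 1, .dia 1, .dia 1, .ne 0 1, .ne 0 1, .dia 1, .dia 1, .ne 0 1, .dia 1, .dia 1, .dia 1, .dia 1, .dia 1, .dia 1, .ne 0 1, .ne 0 1, .ne 0 1, .ne 0 1, .dia 1, .dia 1, .go 6 [0, 1, 2, 3, 4, 5, 6, 7, 8, 9, 10]] },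
  { m := 11, L := [1538, 386, 97, 25, 7], x := 2, cs := [.gt 0 2, .gt 0 2, .gt 0 2, .gt 0 7, .gt 0 8, .gt 0 9, .gt 0 10, .gt 0 2, .gt 0 2, .gt 0 7, .gt 0 8, .gt 0 9, .gt 0 10, .gt 0 2, .gt 0 7, .gt 0 8, .gt 0 9, .gt 0 10, .gt 0 7, .gt 0 8, .gt 0 9, .gt 0 10, .gt 0 7, .gt 0 7, .gt 0 7, .gt 0 8, .gt 0 8, .gt 0 9, .gt 0 11, .gt 0 11, .gt 0 11, .gt 0 11, .gt 0 7, .gt 0 8, .gt 0 9, .gt 0 10, .go 7 [0, 1, 2, 3, 4, 5, 6, 7, 8, 9, 10, 11, 12]] },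
  { m := 13, L := [6148, 1538, 386, 97, 25, 7], x := 2, cs := [.ne 0 2, .ne 0 2, .ne 0 2, .ne 0 2, .ne 0 2, .ne 0 2, .ne 0 2, .dia 2, .dia 2, .ne 0 2, .ne 0 2, .ne 0 2, .ne 0 2, .ne 0 2, .ne 0 2, .dia 2, .dia 2, .ne 0 2, .ne 0 2, .ne 0 2, .ne 0 2, .ne 0 2, .dia 2, .dia 2, .ne 0 2, .ne 0 2, .ne 0 2, .ne 0 2, .dia 2, .dia 2, .gt 0 7, .gt 0 7, .gt 0 7, .dia 2, .dia 2, .gt 0 8, .gt 0 8, .dia 2, .dia 2, .gt 0 9, .dia 2, .dia 2, .dia 2, .dia 2, .dia 2, .ne 0 2, .ne 0 2, .ne 0 2, .ne 0 2, .gt 0 7, .gt 0 8, .gt 0 9, .gt 0 10, .dia 2, .dia 2, .go 8 [0, 1, 2, 3, 4, 5, 6, 7, 8, 9, 10, 11, 12, 13, 14]] },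
  { m := 15, L := [24580, 6148, 1538, 386, 97, 25, 7], x := 3, cs := [.gt 0 3, .gt 0 3, .gt 0 7, .gt 0 8, .gt 0 9, .gt 0 10, .gt 0 11, .gt 0 12, .gt 0 13, .gt 0 14, .gt 0 3, .gt 0 7, .gt 0 8, .gt 0 9, .gt 0 10, .gt 0 11, .gt 0 12, .gt 0 13, .gt 0 14, .gt 0 7, .gt 0 8, .gt 0 9, .gt 0 10, .gt 0 11, .gt 0 12, .gt 0 13, .gt 0 14, .gt 0 7, .gt 0 7, .gt 0 7, .gt 0 7, .gt 0 7, .gt 0 7, .gt 0 7, .gt 0 8, .gt 0 8, .gt 0 8, .gt 0 8, .gt 0 8, .gt 0 8, .gt 0 9, .gt 0 9, .gt 0 9, .gt 0 9, .gt 0 9, .gt 0 10, .gt 0 10, .gt 0 10, .gt 0 10, .gt 0 11, .gt 0 11, .gt 0 11, .gt 0 12, .gt 0 12, .gt 0 13, .gt 0 15, .gt 0 15, .gt 0 15, .gt 0 7, .gt 0 8, .gt 0 9, .gt 0 10, .gt 0 11, .gt 0 12, .gt 0 13, .gt 0 14, .go 9 [0, 1, 2, 3, 4, 5, 6, 7, 8, 9, 10, 11, 12, 13, 14, 15, 16]] },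
  { m := 17, L := [98312, 24580, 6148, 1538, 386, 97, 25, 7], x := 3, cs := [.dia 3, .dia 3, .dia 3, .dia 3, .dia 3, .dia 3, .dia 3, .dia 3, .dia 3, .dia 3, .dia 3, .dia 3, .ne 0 3, .ne 0 3, .ne 0 3, .ne 0 3, .ne 0 3, .ne 0 3, .ne 0 3, .ne 0 3, .ne 0 3, .dia 3, .dia 3, .ne 0 3, .ne 0 3, .ne 0 3, .ne 0 3, .ne 0 3, .ne 0 3, .ne 0 3, .ne 0 3, .dia 3, .dia 3, .gt 0 7, .gt 0 7, .gt 0 7, .gt 0 7, .gt 0 7, .gt 0 7, .gt 0 7, .dia 3, .dia 3, .gt 0 8, .gt 0 8, .gt 0 8, .gt 0 8, .gt 0 8, .gt 0 8, .dia 3, .dia 3, .gt 0 9, .gt 0 9, .gt 0 9, .gt 0 9, .gt 0 9, .dia 3, .dia 3, .gt 0 10, .gt 0 10, .gt 0 10, .gt 0 10, .dia 3, .dia 3, .gt 0 11, .gt 0 11, .gt 0 11, .dia 3, .dia 3, .gt 0 12, .gt 0 12, .dia 3, .dia 3, .gt 0 13, .dia 3, .dia 3, .dia 3, .dia 3, .dia 3, .dia 3, .ne 0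 3, .ne 0 3, .gt 0 7, .gt 0 8, .gt 0 9, .gt 0 10, .gt 0 11, .gt 0 12, .gt 0 13, .gt 0 14, .dia 3, .dia 3, .go 10 [0, 1, 2, 3, 4, 5, 6, 7, 8, 9, 10, 11, 12, 13, 14, 15, 16, 17, 18]] },
  { m := 19, L := [393224, 98312, 24580, 6148, 1538, 386, 97, 25, 7], x := 4, cs := [.gt 0 4, .gt 0 7, .gt 0 8, .gt 0 9, .gt 0 10, .gt 0 11, .gt 0 12, .gt 0 13, .gt 0 14, .gt 0 15, .gt 0 16, .gt 0 17, .gt 0 18, .gt 0 7, .gt 0 8, .gt 0 9, .gt 0 10, .gt 0 11, .gt 0 12, .gt 0 13, .gt 0 14, .gt 0 15, .gt 0 16, .gt 0 17, .gt 0 18, .gt 0 7, .gt 0 7, .gt 0 7, .gt 0 7, .gt 0 7, .gt 0 7, .gt 0 7, .gt 0 7, .gt 0 7, .gt 0 7, .gt 0 7, .gt 0 8, .gt 0 8, .gt 0 8, .gt 0 8, .gt 0 8, .gt 0 8, .gt 0 8, .gt 0 8, .gt 0 8, .gt 0 8, .gt 0 9, .gt 0 9, .gt 0 9, .gt 0 9, .gt 0 9, .gt 0 9, .gt 0 9, .gt 0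 9, .gt 0 9, .gt 0 10, .gt 0 10, .gt 0 10, .gt 0 10, .gt 0 10, .gt 0 10, .gt 0 10, .gt 0 10, .gt 0 11, .gt 0 11, .gt 0 11, .gt 0 11, .gt 0 11, .gt 0 11, .gt 0 11, .gt 0 12, .gt 0 12, .gt 0 12, .gt 0 12, .gt 0 12, .gt 0 12, .gt 0 13, .gt 0 13, .gt 0 13, .gt 0 13, .gt 0 13, .gt 0 14, .gt 0 14, .gt 0 14, .gt 0 14, .gt 0 15, .gt 0 15, .gt 0 15, .gt 0 16, .gt 0 16, .gt 0 17, .gt 0 19, .gt 0 19, .gt 0 7, .gt 0 8, .gt 0 9, .gt 0 10, .gt 0 11, .gt 0 12, .gt 0 13, .gt 0 14, .gt 0 15, .gt 0 16, .gt 0 17, .gt 0 18, .go 11 [0, 1, 2, 3, 4, 5, 6, 7, 8, 9, 10, 11, 12, 13, 14, 15, 16, 17, 18, 19, 20]] },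
  { m := 21, L := [1572880, 393224, 98312, 24580, 6148, 1538, 386, 97, 25, 7], x := 4, cs := [.ne 0 4, .ne 0 4, .ne 0 4, .ne 0 4, .ne 0 4, .ne 0 4, .ne 0 4, .ne 0 4, .ne 0 4, .ne 0 4, .ne 0 4, .ne 0 4, .ne 0 4, .dia 4, .dia 4, .ne 0 4, .ne 0 4, .ne 0 4, .ne 0 4, .ne 0 4, .ne 0 4, .ne 0 4, .ne 0 4, .ne 0 4, .ne 0 4, .ne 0 4, .ne 0 4, .dia 4, .dia 4, .gt 0 7, .gt 0 7, .gt 0 7, .gt 0 7, .gt 0 7, .gt 0 7, .gt 0 7, .gt 0 7, .gt 0 7, .gt 0 7, .gt 0 7, .dia 4, .dia 4, .gt 0 8, .gt 0 8, .gt 0 8, .gt 0 8, .gt 0 8, .gt 0 8, .gt 0 8, .gt 0 8, .gt 0 8, .gt 0 8, .dia 4, .dia 4, .gt 0 9, .gt 0 9, .gt 0 9, .gt 0 9, .gt 0 9, .gt 0 9, .gt 0 9, .gt 0 9, .gt 0 9, .dia 4, .dia 4, .gt 0 10, .gt 0 10, .gt 0 10, .gt 0 10, .gt 0 10, .gt 0 10, .gt 0 10, .gt 0 10, .dia 4, .dia 4, .gt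 0 11, .gt 0 11, .gt 0 11, .gt 0 11, .gt 0 11, .gt 0 11, .gt 0 11, .dia 4, .dia 4, .gt 0 12, .gt 0 12, .gt 0 12, .gt 0 12, .gt 0 12, .gt 0 12, .dia 4, .dia 4, .gt 0 13, .gt 0 13, .gt 0 13, .gt 0 13, .gt 0 13, .dia 4, .dia 4, .gt 0 14, .gt 0 14, .gt 0 14, .gt 0 14, .dia 4, .dia 4, .gt 0 15, .gt 0 15, .gt 0 15, .dia 4, .dia 4, .gt 0 16, .gt 0 16, .dia 4, .dia 4, .gt 0 17, .dia 4, .dia 4, .dia 4, .dia 4, .dia 4, .ne 0 4, .ne 0 4, .gt 0 7, .gt 0 8, .gt 0 9, .gt 0 10, .gt 0 11, .gt 0 12, .gt 0 13, .gt 0 14, .gt 0 15, .gt 0 16, .gt 0 17, .gt 0 18, .dia 4, .dia 4, .go 12 [0, 1, 2, 3, 4, 5, 6, 7, 8, 9, 10, 11, 12, 13, 14, 15, 16, 17, 18, 19, 20, 21, 22]] },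
  { m := 23, L := [6291472, 1572880, 393224, 98312, 24580, 6148, 1538, 386, 97, 25, 7], x := 5, cs := [.gt 0 7, .gt 0 8, .gt 0 9, .gt 0 10, .gt 0 11, .gt 0 12, .gt 0 13, .gt 0 14, .gt 0 15, .gt 0 16, .gt 0 17, .gt 0 18, .gt 0 19, .gt 0 20, .gt 0 21, .gt 0 22, .gt 0 7, .gt 0 7, .gt 0 7, .gt 0 7, .gt 0 7, .gt 0 7, .gt 0 7, .gt 0 7, .gt 0 7, .gt 0 7, .gt 0 7, .gt 0 7, .gt 0 7, .gt 0 7, .gt 0 7, .gt 0 8, .gt 0 8, .gt 0 8, .gt 0 8, .gt 0 8, .gt 0 8, .gt 0 8, .gt 0 8, .gt 0 8, .gt 0 8, .gt 0 8, .gt 0 8, .gt 0 8, .gt 0 8, .gt 0 9, .gt 0 9, .gt 0 9, .gt 0 9, .gt 0 9, .gt 0 9, .gt 0 9, .gt 0 9, .gt 0 9, .gt 0 9, .gt 0 9, .gt 0 9, .gt 0 9, .gt 0 10, .gt 0 10, .gt 0 10, .gt 0 10, .gt 0 10, .gt 0 10, .gt 0 10, .gt 0 10, .gt 0 10, .gt 0 10, .gt 0 10, .gt 0 10, .gt 0 11, .gt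 0 11, .gt 0 11, .gt 0 11, .gt 0 11, .gt 0 11, .gt 0 11, .gt 0 11, .gt 0 11, .gt 0 11, .gt 0 11, .gt 0 12, .gt 0 12, .gt 0 12, .gt 0 12, .gt 0 12, .gt 0 12, .gt 0 12, .gt 0 12, .gt 0 12, .gt 0 12, .gt 0 13, .gt 0 13, .gt 0 13, .gt 0 13, .gt 0 13, .gt 0 13, .gt 0 13, .gt 0 13, .gt 0 13, .gt 0 14, .gt 0 14, .gt 0 14, .gt 0 14, .gt 0 14, .gt 0 14, .gt 0 14, .gt 0 14, .gt 0 15, .gt 0 15, .gt 0 15, .gt 0 15, .gt 0 15, .gt 0 15, .gt 0 15, .gt 0 16, .gt 0 16, .gt 0 16, .gt 0 16, .gt 0 16, .gt 0 16, .gt 0 17, .gt 0 17, .gt 0 17, .gt 0 17, .gt 0 17, .gt 0 18, .gt 0 18, .gt 0 18, .gt 0 18, .gt 0 19, .gt 0 19, .gt 0 19, .gt 0 20, .gt 0 20, .gt 0 21, .gt 0 23, .gt 0 7, .gt 0 8, .gt 0 9, .gt 0 10, .gt 0 11, .gt 0 12, .gt 0 13, .gt 0 14, .gt 0 15, .gt 0 16, .gt 0 17, .gt 0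 18, .gt 0 19, .gt 0 20, .gt 0 21, .gt 0 22, .go 13 [0, 1, 2, 3, 4, 5, 6, 7, 8, 9, 10, 11, 12, 13, 14, 15, 16, 17, 18, 19, 20, 21, 22, 23, 24]] },
  { m := 25, L := [25165856, 6291472, 1572880, 393224, 98312, 24580, 6148, 1538, 386, 97, 25, 7], x := 5, cs := [.dia 5, .dia 5, .dia 5, .dia 5, .dia 5, .dia 5, .dia 5, .dia 5, .dia 5, .dia 5, .dia 5, .dia 5, .dia 5, .dia 5, .dia 5, .dia 5, .dia 5, .dia 5, .gt 0 7, .gt 0 7, .gt 0 7, .gt 0 7, .gt 0 7, .gt 0 7, .gt 0 7, .gt 0 7, .gt 0 7, .gt 0 7, .gt 0 7, .gt 0 7, .gt 0 7, .gt 0 7, .gt 0 7, .dia 5, .dia 5, .gt 0 8, .gt 0 8, .gt 0 8, .gt 0 8, .gt 0 8, .gt 0 8, .gt 0 8, .gt 0 8, .gt 0 8, .gt 0 8, .gt 0 8, .gt 0 8, .gt 0 8, .gt 0 8, .dia 5, .dia 5, .gt 0 9, .gt 0 9, .gt 0 9, .gt 0 9, .gt 0 9, .gt 0 9, .gt 0 9, .gt 0 9, .gt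 0 9, .gt 0 9, .gt 0 9, .gt 0 9, .gt 0 9, .dia 5, .dia 5, .gt 0 10, .gt 0 10, .gt 0 10, .gt 0 10, .gt 0 10, .gt 0 10, .gt 0 10, .gt 0 10, .gt 0 10, .gt 0 10, .gt 0 10, .gt 0 10, .dia 5, .dia 5, .gt 0 11, .gt 0 11, .gt 0 11, .gt 0 11, .gt 0 11, .gt 0 11, .gt 0 11, .gt 0 11, .gt 0 11, .gt 0 11, .gt 0 11, .dia 5, .dia 5, .gt 0 12, .gt 0 12, .gt 0 12, .gt 0 12, .gt 0 12, .gt 0 12, .gt 0 12, .gt 0 12, .gt 0 12, .gt 0 12, .dia 5, .dia 5, .gt 0 13, .gt 0 13, .gt 0 13, .gt 0 13, .gt 0 13, .gt 0 13, .gt 0 13, .gt 0 13, .gt 0 13, .dia 5, .dia 5, .gt 0 14, .gt 0 14, .gt 0 14, .gt 0 14, .gt 0 14, .gt 0 14, .gt 0 14, .gt 0 14, .dia 5, .dia 5, .gt 0 15, .gt 0 15, .gt 0 15, .gt 0 15, .gt 0 15, .gt 0 15, .gt 0 15, .dia 5, .dia 5, .gt 0 16, .gt 0 16, .gt 0 16, .gt 0 16, .gt 0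 16, .gt 0 16, .dia 5, .dia 5, .gt 0 17, .gt 0 17, .gt 0 17, .gt 0 17, .gt 0 17, .dia 5, .dia 5, .gt 0 18, .gt 0 18, .gt 0 18, .gt 0 18, .dia 5, .dia 5, .gt 0 19, .gt 0 19, .gt 0 19, .dia 5, .dia 5, .gt 0 20, .gt 0 20, .dia 5, .dia 5, .gt 0 21, .dia 5, .dia 5, .dia 5, .dia 5, .dia 5, .dia 5, .gt 0 7, .gt 0 8, .gt 0 9, .gt 0 10, .gt 0 11, .gt 0 12, .gt 0 13, .gt 0 14, .gt 0 15, .gt 0 16, .gt 0 17, .gt 0 18, .gt 0 19, .gt 0 20, .gt 0 21, .gt 0 22, .dia 5, .dia 5, .go 14 [0, 1, 2, 3, 4, 5, 6, 7, 8, 9, 10, 11, 12, 13, 14, 15, 16, 17, 18, 19, 20, 21, 22, 23, 24, 25, 26]] },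
  { m := 27, L := [100663328, 25165856, 6291472, 1572880, 393224, 98312, 24580, 6148, 1538, 386, 97, 25, 7], x := 6, cs := [.gt 0 7, .gt 0 7, .gt 0 7, .gt 0 7, .gt 0 7, .gt 0 7, .gt 0 7, .gt 0 7, .gt 0 7, .gt 0 7, .gt 0 7, .gt 0 7, .gt 0 7, .gt 0 7, .gt 0 7, .gt 0 7, .gt 0 7, .gt 0 7, .gt 0 7, .gt 0 8, .gt 0 8, .gt 0 8, .gt 0 8, .gt 0 8, .gt 0 8, .gt 0 8, .gt 0 8, .gt 0 8, .gt 0 8, .gt 0 8, .gt 0 8, .gt 0 8, .gt 0 8, .gt 0 8, .gt 0 8, .gt 0 8, .gt 0 8, .gt 0 9, .gt 0 9, .gt 0 9, .gt 0 9, .gt 0 9, .gt 0 9, .gt 0 9, .gt 0 9, .gt 0 9, .gt 0 9, .gt 0 9, .gt 0 9, .gt 0 9, .gt 0 9, .gt 0 9, .gt 0 9, .gt 0 9, .gt 0 10, .gt 0 10, .gt 0 10, .gt 0 10, .gt 0 10, .gt 0 10, .gt 0 10, .gt 0 10, .gt 0 10, .gt 0 10, .gt 0 10, .gt 0 10, .gt 0 10, .gt 0 10, .gt 0 10, .gt 0 10,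 .gt 0 11, .gt 0 11, .gt 0 11, .gt 0 11, .gt 0 11, .gt 0 11, .gt 0 11, .gt 0 11, .gt 0 11, .gt 0 11, .gt 0 11, .gt 0 11, .gt 0 11, .gt 0 11, .gt 0 11, .gt 0 12, .gt 0 12, .gt 0 12, .gt 0 12, .gt 0 12, .gt 0 12, .gt 0 12, .gt 0 12, .gt 0 12, .gt 0 12, .gt 0 12, .gt 0 12, .gt 0 12, .gt 0 12, .gt 0 13, .gt 0 13, .gt 0 13, .gt 0 13, .gt 0 13, .gt 0 13, .gt 0 13, .gt 0 13, .gt 0 13, .gt 0 13, .gt 0 13, .gt 0 13, .gt 0 13, .gt 0 14, .gt 0 14, .gt 0 14, .gt 0 14, .gt 0 14, .gt 0 14, .gt 0 14, .gt 0 14, .gt 0 14, .gt 0 14, .gt 0 14, .gt 0 14, .gt 0 15, .gt 0 15, .gt 0 15, .gt 0 15, .gt 0 15, .gt 0 15, .gt 0 15, .gt 0 15, .gt 0 15, .gt 0 15, .gt 0 15, .gt 0 16, .gt 0 16, .gt 0 16, .gt 0 16, .gt 0 16, .gt 0 16, .gt 0 16, .gt 0 16, .gt 0 16, .gt 0 16, .gt 0 17, .gt 0 17,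 .gt 0 17, .gt 0 17, .gt 0 17, .gt 0 17, .gt 0 17, .gt 0 17, .gt 0 17, .gt 0 18, .gt 0 18, .gt 0 18, .gt 0 18, .gt 0 18, .gt 0 18, .gt 0 18, .gt 0 18, .gt 0 19, .gt 0 19, .gt 0 19, .gt 0 19, .gt 0 19, .gt 0 19, .gt 0 19, .gt 0 20, .gt 0 20, .gt 0 20, .gt 0 20, .gt 0 20, .gt 0 20, .gt 0 21, .gt 0 21, .gt 0 21, .gt 0 21, .gt 0 21, .gt 0 22, .gt 0 22, .gt 0 22, .gt 0 22, .gt 0 23, .gt 0 23, .gt 0 23, .gt 0 24, .gt 0 24, .gt 0 25, .gt 0 7, .gt 0 8, .gt 0 9, .gt 0 10, .gt 0 11, .gt 0 12, .gt 0 13, .gt 0 14, .gt 0 15, .gt 0 16, .gt 0 17, .gt 0 18, .gt 0 19, .gt 0 20, .gt 0 21, .gt 0 22, .gt 0 23, .gt 0 24, .gt 0 25, .gt 0 26, .go 15 [0, 1, 2, 3, 4, 5, 6, 7, 8, 9, 10, 11, 12, 13, 14, 15, 16, 17, 18, 19, 20, 21, 22, 23, 24, 25, 26, 27, 28]] },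
  { m := 29, L := [402653248, 100663328, 25165856, 6291472, 1572880, 393224, 98312, 24580, 6148, 1538, 386, 97, 25, 7], x := 6, cs := [.gt 0 7, .gt 0 7, .gt 0 7, .gt 0 7, .gt 0 7, .gt 0 7, .gt 0 7, .gt 0 7, .gt 0 7, .gt 0 7, .gt 0 7, .gt 0 7, .gt 0 7, .gt 0 7, .gt 0 7, .gt 0 7, .gt 0 7, .gt 0 7, .gt 0 7, .dia 6, .dia 6, .gt 0 8, .gt 0 8, .gt 0 8, .gt 0 8, .gt 0 8, .gt 0 8, .gt 0 8, .gt 0 8, .gt 0 8, .gt 0 8, .gt 0 8, .gt 0 8, .gt 0 8, .gt 0 8, .gt 0 8, .gt 0 8, .gt 0 8, .gt 0 8, .dia 6, .dia 6, .gt 0 9, .gt 0 9, .gt 0 9, .gt 0 9, .gt 0 9, .gt 0 9, .gt 0 9, .gt 0 9, .gt 0 9, .gt 0 9, .gt 0 9, .gt 0 9, .gt 0 9, .gt 0 9, .gt 0 9, .gt 0 9, .gt 0 9, .dia 6, .dia 6, .gt 0 10, .gt 0 10, .gt 0 10, .gt 0 10, .gt 0 10, .gt 0 10, .gt 0 10, .gt 0 10, .gt 0 10, .gt 0 10,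 .gt 0 10, .gt 0 10, .gt 0 10, .gt 0 10, .gt 0 10, .gt 0 10, .dia 6, .dia 6, .gt 0 11, .gt 0 11, .gt 0 11, .gt 0 11, .gt 0 11, .gt 0 11, .gt 0 11, .gt 0 11, .gt 0 11, .gt 0 11, .gt 0 11, .gt 0 11, .gt 0 11, .gt 0 11, .gt 0 11, .dia 6, .dia 6, .gt 0 12, .gt 0 12, .gt 0 12, .gt 0 12, .gt 0 12, .gt 0 12, .gt 0 12, .gt 0 12, .gt 0 12, .gt 0 12, .gt 0 12, .gt 0 12, .gt 0 12, .gt 0 12, .dia 6, .dia 6, .gt 0 13, .gt 0 13, .gt 0 13, .gt 0 13, .gt 0 13, .gt 0 13, .gt 0 13, .gt 0 13, .gt 0 13, .gt 0 13, .gt 0 13, .gt 0 13, .gt 0 13, .dia 6, .dia 6, .gt 0 14, .gt 0 14, .gt 0 14, .gt 0 14, .gt 0 14, .gt 0 14, .gt 0 14, .gt 0 14, .gt 0 14, .gt 0 14, .gt 0 14, .gt 0 14, .dia 6, .dia 6, .gt 0 15, .gt 0 15, .gt 0 15, .gt 0 15, .gt 0 15, .gt 0 15, .gt 0 15, .gt 0 15, .gt 0 15,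 .gt 0 15, .gt 0 15, .dia 6, .dia 6, .gt 0 16, .gt 0 16, .gt 0 16, .gt 0 16, .gt 0 16, .gt 0 16, .gt 0 16, .gt 0 16, .gt 0 16, .gt 0 16, .dia 6, .dia 6, .gt 0 17, .gt 0 17, .gt 0 17, .gt 0 17, .gt 0 17, .gt 0 17, .gt 0 17, .gt 0 17, .gt 0 17, .dia 6, .dia 6, .gt 0 18, .gt 0 18, .gt 0 18, .gt 0 18, .gt 0 18, .gt 0 18, .gt 0 18, .gt 0 18, .dia 6, .dia 6, .gt 0 19, .gt 0 19, .gt 0 19, .gt 0 19, .gt 0 19, .gt 0 19, .gt 0 19, .dia 6, .dia 6, .gt 0 20, .gt 0 20, .gt 0 20, .gt 0 20, .gt 0 20, .gt 0 20, .dia 6, .dia 6, .gt 0 21, .gt 0 21, .gt 0 21, .gt 0 21, .gt 0 21, .dia 6, .dia 6, .gt 0 22, .gt 0 22, .gt 0 22, .gt 0 22, .dia 6, .dia 6, .gt 0 23, .gt 0 23, .gt 0 23, .dia 6, .dia 6, .gt 0 24, .gt 0 24, .dia 6, .dia 6, .gt 0 25, .dia 6, .dia 6, .dia 6, .dia 6, .dia 6,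 .gt 0 7, .gt 0 8, .gt 0 9, .gt 0 10, .gt 0 11, .gt 0 12, .gt 0 13, .gt 0 14, .gt 0 15, .gt 0 16, .gt 0 17, .gt 0 18, .gt 0 19, .gt 0 20, .gt 0 21, .gt 0 22, .gt 0 23, .gt 0 24, .gt 0 25, .gt 0 26, .dia 6, .dia 6, .go 16 [0, 1, 2, 3, 4, 5, 6, 7, 8, 9, 10, 11, 12, 13, 14, 15, 16, 17, 18, 19, 20, 21, 22, 23, 24, 25, 26, 27, 28, 29, 30]] },
  { m := 31, L := [1610612800, 402653248, 100663328, 25165856, 6291472, 1572880, 393224, 98312, 24580, 6148, 1538, 386, 97, 25, 7], x := 7, cs := [.gt 1 7, .gt 1 7, .gt 1 11, .gt 1 12, .gt 1 13, .gt 1 14, .gt 1 15, .gt 1 16, .gt 1 17, .gt 1 18, .gt 1 19, .gt 1 20, .gt 1 21, .gt 1 22, .gt 1 23, .gt 1 24, .gt 1 25, .gt 1 26, .gt 1 27, .gt 1 28, .gt 1 29, .gt 1 30, .gt 1 7, .gt 1 11, .gt 1 12, .gt 1 13, .gt 1 14, .gt 1 15, .gt 1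 16, .gt 1 17, .gt 1 18, .gt 1 19, .gt 1 20, .gt 1 21, .gt 1 22, .gt 1 23, .gt 1 24, .gt 1 25, .gt 1 26, .gt 1 27, .gt 1 28, .gt 1 29, .gt 1 30, .gt 1 11, .gt 1 12, .gt 1 13, .gt 1 14, .gt 1 15, .gt 1 16, .gt 1 17, .gt 1 18, .gt 1 19, .gt 1 20, .gt 1 21, .gt 1 22, .gt 1 23, .gt 1 24, .gt 1 25, .gt 1 26, .gt 1 27, .gt 1 28, .gt 1 29, .gt 1 30, .gt 1 11, .gt 1 11, .gt 1 11, .gt 1 11, .gt 1 11, .gt 1 11, .gt 1 11, .gt 1 11, .gt 1 11, .gt 1 11, .gt 1 11, .gt 1 11, .gt 1 11, .gt 1 11, .gt 1 11, .gt 1 11, .gt 1 11, .gt 1 11, .gt 1 11, .gt 1 12, .gt 1 12, .gt 1 12, .gt 1 12, .gt 1 12, .gt 1 12, .gt 1 12, .gt 1 12, .gt 1 12, .gt 1 12, .gt 1 12, .gt 1 12, .gt 1 12, .gt 1 12, .gt 1 12, .gt 1 12, .gt 1 12, .gt 1 12, .gt 1 13, .gt 1 13, .gt 1 13, .gt 1 13, .gt 1 13, .gt 1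 13, .gt 1 13, .gt 1 13, .gt 1 13, .gt 1 13, .gt 1 13, .gt 1 13, .gt 1 13, .gt 1 13, .gt 1 13, .gt 1 13, .gt 1 13, .gt 1 14, .gt 1 14, .gt 1 14, .gt 1 14, .gt 1 14, .gt 1 14, .gt 1 14, .gt 1 14, .gt 1 14, .gt 1 14, .gt 1 14, .gt 1 14, .gt 1 14, .gt 1 14, .gt 1 14, .gt 1 14, .gt 3 7, .gt 3 7, .gt 3 7, .gt 3 19, .gt 3 20, .gt 3 21, .gt 3 22, .go 17 [0, 1, 2, 3, 4, 5, 6, 7, 8, 9, 10, 11, 12, 13, 14, 15, 16, 17, 18, 19, 20, 21, 22, 23, 24, 25, 26, 27, 28, 29, 30], .go 17 [0, 1, 2, 3, 4, 5, 6, 7, 8, 9, 10, 11, 12, 13, 14, 15, 16, 17, 18, 19, 20, 21, 22, 24, 23, 25, 26, 27, 28, 29, 30], .go 17 [0, 1, 2, 3, 4, 5, 6, 7, 8, 9, 10, 11, 12, 13, 14, 15, 16, 17, 18, 19, 20, 21, 22, 25, 26, 23, 24, 27, 28, 29, 30], .go 17 [0, 1, 2, 3, 4, 5, 6, 7, 8, 9, 10, 11, 12, 13, 14, 15,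 16, 17, 18, 19, 20, 21, 22, 26, 25, 23, 24, 27, 28, 29, 30], .go 17 [0, 1, 2, 3, 4, 6, 5, 7, 8, 9, 10, 11, 12, 13, 14, 15, 16, 17, 18, 19, 20, 21, 22, 27, 28, 29, 30, 23, 24, 25, 26], .go 17 [0, 1, 2, 3, 4, 6, 5, 7, 8, 9, 10, 11, 12, 13, 14, 15, 16, 17, 18, 19, 20, 21, 22, 28, 27, 29, 30, 23, 24, 25, 26], .go 17 [0, 1, 2, 3, 4, 6, 5, 7, 8, 9, 10, 11, 12, 13, 14, 15, 16, 17, 18, 19, 20, 21, 22, 29, 30, 27, 28, 23, 24, 25, 26], .go 17 [0, 1, 2, 3, 4, 6, 5, 7, 8, 9, 10, 11, 12, 13, 14, 15, 16, 17, 18, 19, 20, 21, 22, 30, 29, 27, 28, 23, 24, 25, 26], .gt 3 7, .gt 3 7, .gt 3 19, .gt 3 20, .gt 3 21, .gt 3 22, .go 17 [0, 1, 2, 3, 4, 5, 6, 7, 8, 9, 10, 11, 12, 13, 14, 16, 15, 17, 18, 19, 20, 21, 22, 23, 24, 25, 26, 27, 28, 29, 30], .go 17 [0, 1, 2, 3, 4, 5, 6, 7, 8,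 9, 10, 11, 12, 13, 14, 16, 15, 17, 18, 19, 20, 21, 22, 24, 23, 25, 26, 27, 28, 29, 30], .go 17 [0, 1, 2, 3, 4, 5, 6, 7, 8, 9, 10, 11, 12, 13, 14, 16, 15, 17, 18, 19, 20, 21, 22, 25, 26, 23, 24, 27, 28, 29, 30], .go 17 [0, 1, 2, 3, 4, 5, 6, 7, 8, 9, 10, 11, 12, 13, 14, 16, 15, 17, 18, 19, 20, 21, 22, 26, 25, 23, 24, 27, 28, 29, 30], .go 17 [0, 1, 2, 3, 4, 6, 5, 7, 8, 9, 10, 11, 12, 13, 14, 16, 15, 17, 18, 19, 20, 21, 22, 27, 28, 29, 30, 23, 24, 25, 26], .go 17 [0, 1, 2, 3, 4, 6, 5, 7, 8, 9, 10, 11, 12, 13, 14, 16, 15, 17, 18, 19, 20, 21, 22, 28, 27, 29, 30, 23, 24, 25, 26], .go 17 [0, 1, 2, 3, 4, 6, 5, 7, 8, 9, 10, 11, 12, 13, 14, 16, 15, 17, 18, 19, 20, 21, 22, 29, 30, 27, 28, 23, 24, 25, 26], .go 17 [0, 1, 2, 3, 4, 6, 5, 7, 8, 9, 10, 11, 12, 13, 14, 16, 15,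 17, 18, 19, 20, 21, 22, 30, 29, 27, 28, 23, 24, 25, 26], .gt 3 7, .gt 3 19, .gt 3 20, .gt 3 21, .gt 3 22, .go 17 [0, 1, 2, 3, 4, 5, 6, 7, 8, 9, 10, 11, 12, 13, 14, 17, 18, 15, 16, 19, 20, 21, 22, 23, 24, 25, 26, 27, 28, 29, 30], .go 17 [0, 1, 2, 3, 4, 5, 6, 7, 8, 9, 10, 11, 12, 13, 14, 17, 18, 15, 16, 19, 20, 21, 22, 24, 23, 25, 26, 27, 28, 29, 30], .go 17 [0, 1, 2, 3, 4, 5, 6, 7, 8, 9, 10, 11, 12, 13, 14, 17, 18, 15, 16, 19, 20, 21, 22, 25, 26, 23, 24, 27, 28, 29, 30], .go 17 [0, 1, 2, 3, 4, 5, 6, 7, 8, 9, 10, 11, 12, 13, 14, 17, 18, 15, 16, 19, 20, 21, 22, 26, 25, 23, 24, 27, 28, 29, 30], .go 17 [0, 1, 2, 3, 4, 6, 5, 7, 8, 9, 10, 11, 12, 13, 14, 17, 18, 15, 16, 19, 20, 21, 22, 27, 28, 29, 30, 23, 24, 25, 26], .go 17 [0, 1, 2, 3, 4, 6, 5, 7, 8, 9, 10, 11, 12,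 13, 14, 17, 18, 15, 16, 19, 20, 21, 22, 28, 27, 29, 30, 23, 24, 25, 26], .go 17 [0, 1, 2, 3, 4, 6, 5, 7, 8, 9, 10, 11, 12, 13, 14, 17, 18, 15, 16, 19, 20, 21, 22, 29, 30, 27, 28, 23, 24, 25, 26], .go 17 [0, 1, 2, 3, 4, 6, 5, 7, 8, 9, 10, 11, 12, 13, 14, 17, 18, 15, 16, 19, 20, 21, 22, 30, 29, 27, 28, 23, 24, 25, 26], .gt 3 19, .gt 3 20, .gt 3 21, .gt 3 22, .go 17 [0, 1, 2, 3, 4, 5, 6, 7, 8, 9, 10, 11, 12, 13, 14, 18, 17, 15, 16, 19, 20, 21, 22, 23, 24, 25, 26, 27, 28, 29, 30], .go 17 [0, 1, 2, 3, 4, 5, 6, 7, 8, 9, 10, 11, 12, 13, 14, 18, 17, 15, 16, 19, 20, 21, 22, 24, 23, 25, 26, 27, 28, 29, 30], .go 17 [0, 1, 2, 3, 4, 5, 6, 7, 8, 9, 10, 11, 12, 13, 14, 18, 17, 15, 16, 19, 20, 21, 22, 25, 26, 23, 24, 27, 28, 29, 30], .go 17 [0, 1, 2, 3, 4, 5, 6, 7, 8, 9, 10,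 11, 12, 13, 14, 18, 17, 15, 16, 19, 20, 21, 22, 26, 25, 23, 24, 27, 28, 29, 30], .go 17 [0, 1, 2, 3, 4, 6, 5, 7, 8, 9, 10, 11, 12, 13, 14, 18, 17, 15, 16, 19, 20, 21, 22, 27, 28, 29, 30, 23, 24, 25, 26], .go 17 [0, 1, 2, 3, 4, 6, 5, 7, 8, 9, 10, 11, 12, 13, 14, 18, 17, 15, 16, 19, 20, 21, 22, 28, 27, 29, 30, 23, 24, 25, 26], .go 17 [0, 1, 2, 3, 4, 6, 5, 7, 8, 9, 10, 11, 12, 13, 14, 18, 17, 15, 16, 19, 20, 21, 22, 29, 30, 27, 28, 23, 24, 25, 26], .go 17 [0, 1, 2, 3, 4, 6, 5, 7, 8, 9, 10, 11, 12, 13, 14, 18, 17, 15, 16, 19, 20, 21, 22, 30, 29, 27, 28, 23, 24, 25, 26], .gt 4 7, .gt 4 7, .gt 4 7, .go 17 [0, 1, 2, 4, 3, 5, 6, 7, 8, 9, 10, 11, 12, 13, 14, 19, 20, 21, 22, 15, 16, 17, 18, 23, 24, 25, 26, 27, 28, 29, 30], .go 17 [0, 1, 2, 4, 3, 5, 6, 7, 8, 9, 10, 11,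 12, 13, 14, 19, 20, 21, 22, 15, 16, 17, 18, 24, 23, 25, 26, 27, 28, 29, 30], .go 17 [0, 1, 2, 4, 3, 5, 6, 7, 8, 9, 10, 11, 12, 13, 14, 19, 20, 21, 22, 15, 16, 17, 18, 25, 26, 23, 24, 27, 28, 29, 30], .go 17 [0, 1, 2, 4, 3, 5, 6, 7, 8, 9, 10, 11, 12, 13, 14, 19, 20, 21, 22, 15, 16, 17, 18, 26, 25, 23, 24, 27, 28, 29, 30], .go 17 [0, 1, 2, 4, 3, 6, 5, 7, 8, 9, 10, 11, 12, 13, 14, 19, 20, 21, 22, 15, 16, 17, 18, 27, 28, 29, 30, 23, 24, 25, 26], .go 17 [0, 1, 2, 4, 3, 6, 5, 7, 8, 9, 10, 11, 12, 13, 14, 19, 20, 21, 22, 15, 16, 17, 18, 28, 27, 29, 30, 23, 24, 25, 26], .go 17 [0, 1, 2, 4, 3, 6, 5, 7, 8, 9, 10, 11, 12, 13, 14, 19, 20, 21, 22, 15, 16, 17, 18, 29, 30, 27, 28, 23, 24, 25, 26], .go 17 [0, 1, 2, 4, 3, 6, 5, 7, 8, 9, 10, 11, 12, 13, 14, 19, 20, 21, 22, 15,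 16, 17, 18, 30, 29, 27, 28, 23, 24, 25, 26], .gt 4 7, .gt 4 7, .go 17 [0, 1, 2, 4, 3, 5, 6, 7, 8, 9, 10, 11, 12, 13, 14, 20, 19, 21, 22, 15, 16, 17, 18, 23, 24, 25, 26, 27, 28, 29, 30], .go 17 [0, 1, 2, 4, 3, 5, 6, 7, 8, 9, 10, 11, 12, 13, 14, 20, 19, 21, 22, 15, 16, 17, 18, 24, 23, 25, 26, 27, 28, 29, 30], .go 17 [0, 1, 2, 4, 3, 5, 6, 7, 8, 9, 10, 11, 12, 13, 14, 20, 19, 21, 22, 15, 16, 17, 18, 25, 26, 23, 24, 27, 28, 29, 30], .go 17 [0, 1, 2, 4, 3, 5, 6, 7, 8, 9, 10, 11, 12, 13, 14, 20, 19, 21, 22, 15, 16, 17, 18, 26, 25, 23, 24, 27, 28, 29, 30], .go 17 [0, 1, 2, 4, 3, 6, 5, 7, 8, 9, 10, 11, 12, 13, 14, 20, 19, 21, 22, 15, 16, 17, 18, 27, 28, 29, 30, 23, 24, 25, 26], .go 17 [0, 1, 2, 4, 3, 6, 5, 7, 8, 9, 10, 11, 12, 13, 14, 20, 19, 21, 22, 15, 16, 17, 18, 28,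 27, 29, 30, 23, 24, 25, 26], .go 17 [0, 1, 2, 4, 3, 6, 5, 7, 8, 9, 10, 11, 12, 13, 14, 20, 19, 21, 22, 15, 16, 17, 18, 29, 30, 27, 28, 23, 24, 25, 26], .go 17 [0, 1, 2, 4, 3, 6, 5, 7, 8, 9, 10, 11, 12, 13, 14, 20, 19, 21, 22, 15, 16, 17, 18, 30, 29, 27, 28, 23, 24, 25, 26], .gt 4 7, .go 17 [0, 1, 2, 4, 3, 5, 6, 7, 8, 9, 10, 11, 12, 13, 14, 21, 22, 19, 20, 15, 16, 17, 18, 23, 24, 25, 26, 27, 28, 29, 30], .go 17 [0, 1, 2, 4, 3, 5, 6, 7, 8, 9, 10, 11, 12, 13, 14, 21, 22, 19, 20, 15, 16, 17, 18, 24, 23, 25, 26, 27, 28, 29, 30], .go 17 [0, 1, 2, 4, 3, 5, 6, 7, 8, 9, 10, 11, 12, 13, 14, 21, 22, 19, 20, 15, 16, 17, 18, 25, 26, 23, 24, 27, 28, 29, 30], .go 17 [0, 1, 2, 4, 3, 5, 6, 7, 8, 9, 10, 11, 12, 13, 14, 21, 22, 19, 20, 15, 16, 17, 18, 26, 25, 23, 24, 27, 28, 29,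 30], .go 17 [0, 1, 2, 4, 3, 6, 5, 7, 8, 9, 10, 11, 12, 13, 14, 21, 22, 19, 20, 15, 16, 17, 18, 27, 28, 29, 30, 23, 24, 25, 26], .go 17 [0, 1, 2, 4, 3, 6, 5, 7, 8, 9, 10, 11, 12, 13, 14, 21, 22, 19, 20, 15, 16, 17, 18, 28, 27, 29, 30, 23, 24, 25, 26], .go 17 [0, 1, 2, 4, 3, 6, 5, 7, 8, 9, 10, 11, 12, 13, 14, 21, 22, 19, 20, 15, 16, 17, 18, 29, 30, 27, 28, 23, 24, 25, 26], .go 17 [0, 1, 2, 4, 3, 6, 5, 7, 8, 9, 10, 11, 12, 13, 14, 21, 22, 19, 20, 15, 16, 17, 18, 30, 29, 27, 28, 23, 24, 25, 26], .go 17 [0, 1, 2, 4, 3, 5, 6, 7, 8, 9, 10, 11, 12, 13, 14, 22, 21, 19, 20, 15, 16, 17, 18, 23, 24, 25, 26, 27, 28, 29, 30], .go 17 [0, 1, 2, 4, 3, 5, 6, 7, 8, 9, 10, 11, 12, 13, 14, 22, 21, 19, 20, 15, 16, 17, 18, 24, 23, 25, 26, 27, 28, 29, 30], .go 17 [0, 1, 2, 4, 3, 5,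 6, 7, 8, 9, 10, 11, 12, 13, 14, 22, 21, 19, 20, 15, 16, 17, 18, 25, 26, 23, 24, 27, 28, 29, 30], .go 17 [0, 1, 2, 4, 3, 5, 6, 7, 8, 9, 10, 11, 12, 13, 14, 22, 21, 19, 20, 15, 16, 17, 18, 26, 25, 23, 24, 27, 28, 29, 30], .go 17 [0, 1, 2, 4, 3, 6, 5, 7, 8, 9, 10, 11, 12, 13, 14, 22, 21, 19, 20, 15, 16, 17, 18, 27, 28, 29, 30, 23, 24, 25, 26], .go 17 [0, 1, 2, 4, 3, 6, 5, 7, 8, 9, 10, 11, 12, 13, 14, 22, 21, 19, 20, 15, 16, 17, 18, 28, 27, 29, 30, 23, 24, 25, 26], .go 17 [0, 1, 2, 4, 3, 6, 5, 7, 8, 9, 10, 11, 12, 13, 14, 22, 21, 19, 20, 15, 16, 17, 18, 29, 30, 27, 28, 23, 24, 25, 26], .go 17 [0, 1, 2, 4, 3, 6, 5, 7, 8, 9, 10, 11, 12, 13, 14, 22, 21, 19, 20, 15, 16, 17, 18, 30, 29, 27, 28, 23, 24, 25, 26], .gt 5 7, .gt 5 7, .gt 5 7, .gt 5 27, .gt 5 28, .gt 5 29,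 .gt 5 30, .gt 5 7, .gt 5 7, .gt 5 27, .gt 5 28, .gt 5 29, .gt 5 30, .gt 5 7, .gt 5 27, .gt 5 28, .gt 5 29, .gt 5 30, .gt 5 27, .gt 5 28, .gt 5 29, .gt 5 30, .gt 6 7, .gt 6 7, .gt 6 7, .gt 6 7, .gt 6 7, .gt 6 7, .big, .big, .big, .big, .big, .big, .big, .big, .big, .big, .big, .big, .big, .big, .big, .big, .big, .big, .big, .big, .big, .big, .big, .big] },
  { m := 31, L := [8421504, 1610612800, 402653248, 100663328, 25165856, 6291472, 1572880, 393224, 98312, 24580, 6148, 1538, 386, 97, 25, 7], x := 7, cs := [.dia 7, .dia 7, .dia 7, .dia 7, .dia 7, .dia 7, .dia 7, .dia 7, .dia 7, .dia 7, .dia 7, .dia 7, .dia 7, .dia 7, .dia 7, .dia 7, .dia 7, .dia 7, .dia 7, .dia 7, .dia 7, .dia 7, .ne 1 7, .ne 1 7, .ne 1 7, .ne 1 7, .ne 1 7, .dia 7, .ne 1 7, .ne 1 7, .ne 1 7,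 .ne 1 7, .ne 1 7, .ne 1 7, .ne 1 7, .dia 7, .ne 1 7, .ne 1 7, .ne 1 7, .ne 1 7, .ne 1 7, .ne 1 7, .ne 1 7, .ne 1 7, .ne 1 7, .ne 1 7, .ne 1 7, .dia 7, .ne 1 7, .ne 1 7, .ne 1 7, .ne 1 7, .ne 1 7, .ne 1 7, .ne 1 7, .dia 7, .ne 1 7, .ne 1 7, .ne 1 7, .ne 1 7, .ne 1 7, .ne 1 7, .ne 1 7, .gt 1 11, .gt 1 11, .gt 1 11, .dia 7, .gt 1 11, .gt 1 11, .gt 1 11, .gt 1 11, .gt 1 11, .gt 1 11, .gt 1 11, .dia 7, .gt 1 11, .gt 1 11, .gt 1 11, .gt 1 11, .gt 1 11, .gt 1 11, .gt 1 11, .gt 1 12, .gt 1 12, .dia 7, .gt 1 12, .gt 1 12, .gt 1 12, .gt 1 12, .gt 1 12, .gt 1 12, .gt 1 12, .dia 7, .gt 1 12, .gt 1 12, .gt 1 12, .gt 1 12, .gt 1 12, .gt 1 12, .gt 1 12, .gt 1 13, .dia 7, .gt 1 13, .gt 1 13, .gt 1 13, .gt 1 13, .gt 1 13, .gt 1 13, .gt 1 13, .dia 7, .gt 1 13, .gt 1 13, .gt 1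 13, .gt 1 13, .gt 1 13, .gt 1 13, .gt 1 13, .dia 7, .gt 1 14, .gt 1 14, .gt 1 14, .gt 1 14, .gt 1 14, .gt 1 14, .gt 1 14, .dia 7, .gt 1 14, .gt 1 14, .gt 1 14, .gt 1 14, .gt 1 14, .gt 1 14, .gt 1 14, .dia 7, .dia 7, .dia 7, .dia 7, .dia 7, .dia 7, .dia 7, .dia 7, .dia 7, .dia 7, .dia 7, .dia 7, .dia 7, .dia 7, .dia 7, .ne 3 7, .ne 3 7, .ne 3 7, .ne 3 7, .ne 3 7, .ne 3 7, .dia 7, .ne 3 7, .ne 3 7, .ne 3 7, .ne 3 7, .ne 3 7, .ne 3 7, .ne 3 7, .ne 3 7, .ne 3 7, .ne 3 7, .ne 3 7, .ne 3 7, .dia 7, .ne 3 7, .ne 3 7, .ne 3 7, .ne 3 7, .ne 3 7, .ne 3 7, .ne 3 7, .ne 3 7, .ne 3 7, .ne 3 7, .ne 3 7, .dia 7, .ne 3 7, .ne 3 7, .ne 3 7, .ne 3 7, .ne 3 7, .ne 3 7, .ne 3 7, .ne 4 7, .ne 4 7, .ne 4 7, .dia 7, .ne 5 7, .ne 5 7, .ne 5 7, .go 18 [0, 1, 2, 3, 4, 5, 6, 7, 8, 9, 10,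 11, 12, 13, 14, 15, 16, 17, 18, 19, 20, 21, 22, 23, 24, 25, 26, 27, 28, 29, 30], .go 18 [0, 1, 2, 3, 4, 5, 6, 7, 8, 9, 10, 11, 12, 13, 14, 15, 16, 17, 18, 19, 20, 21, 22, 23, 24, 25, 26, 28, 27, 29, 30], .go 18 [0, 1, 2, 3, 4, 5, 6, 7, 8, 9, 10, 11, 12, 13, 14, 15, 16, 17, 18, 19, 20, 21, 22, 23, 24, 25, 26, 29, 30, 27, 28], .go 18 [0, 1, 2, 3, 4, 5, 6, 7, 8, 9, 10, 11, 12, 13, 14, 15, 16, 17, 18, 19, 20, 21, 22, 23, 24, 25, 26, 30, 29, 27, 28], .ne 4 7, .ne 4 7, .dia 7, .ne 5 7, .ne 5 7, .ne 5 7, .go 18 [0, 1, 2, 3, 4, 5, 6, 7, 8, 9, 10, 11, 12, 13, 14, 15, 16, 17, 18, 20, 19, 21, 22, 23, 24, 25, 26, 27, 28, 29, 30], .go 18 [0, 1, 2, 3, 4, 5, 6, 7, 8, 9, 10, 11, 12, 13, 14, 15, 16, 17, 18, 20, 19, 21, 22, 23, 24, 25, 26, 28, 27, 29, 30], .go 18 [0, 1, 2, 3,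 4, 5, 6, 7, 8, 9, 10, 11, 12, 13, 14, 15, 16, 17, 18, 20, 19, 21, 22, 23, 24, 25, 26, 29, 30, 27, 28], .go 18 [0, 1, 2, 3, 4, 5, 6, 7, 8, 9, 10, 11, 12, 13, 14, 15, 16, 17, 18, 20, 19, 21, 22, 23, 24, 25, 26, 30, 29, 27, 28], .ne 4 7, .dia 7, .ne 5 7, .ne 5 7, .ne 5 7, .go 18 [0, 1, 2, 3, 4, 5, 6, 7, 8, 9, 10, 11, 12, 13, 14, 15, 16, 17, 18, 21, 22, 19, 20, 23, 24, 25, 26, 27, 28, 29, 30], .go 18 [0, 1, 2, 3, 4, 5, 6, 7, 8, 9, 10, 11, 12, 13, 14, 15, 16, 17, 18, 21, 22, 19, 20, 23, 24, 25, 26, 28, 27, 29, 30], .go 18 [0, 1, 2, 3, 4, 5, 6, 7, 8, 9, 10, 11, 12, 13, 14, 15, 16, 17, 18, 21, 22, 19, 20, 23, 24, 25, 26, 29, 30, 27, 28], .go 18 [0, 1, 2, 3, 4, 5, 6, 7, 8, 9, 10, 11, 12, 13, 14, 15, 16, 17, 18, 21, 22, 19, 20, 23, 24, 25, 26, 30, 29, 27, 28], .dia 7,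 .ne 5 7, .ne 5 7, .ne 5 7, .go 18 [0, 1, 2, 3, 4, 5, 6, 7, 8, 9, 10, 11, 12, 13, 14, 15, 16, 17, 18, 22, 21, 19, 20, 23, 24, 25, 26, 27, 28, 29, 30], .go 18 [0, 1, 2, 3, 4, 5, 6, 7, 8, 9, 10, 11, 12, 13, 14, 15, 16, 17, 18, 22, 21, 19, 20, 23, 24, 25, 26, 28, 27, 29, 30], .go 18 [0, 1, 2, 3, 4, 5, 6, 7, 8, 9, 10, 11, 12, 13, 14, 15, 16, 17, 18, 22, 21, 19, 20, 23, 24, 25, 26, 29, 30, 27, 28], .go 18 [0, 1, 2, 3, 4, 5, 6, 7, 8, 9, 10, 11, 12, 13, 14, 15, 16, 17, 18, 22, 21, 19, 20, 23, 24, 25, 26, 30, 29, 27, 28], .dia 7, .dia 7, .dia 7, .dia 7, .dia 7, .dia 7, .dia 7, .ne 4 7, .ne 4 7, .ne 4 7, .ne 4 7, .ne 4 7, .ne 4 7, .ne 4 7, .ne 4 7, .ne 4 7, .ne 4 7, .ne 4 7, .ne 4 7, .ne 4 7, .ne 4 7, .ne 4 7, .ne 4 7, .ne 4 7, .ne 4 7, .ne 4 7, .ne 4 7, .ne 4 7, .big,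 .big, .big, .big, .big, .big, .big, .big, .big, .big, .big, .big, .big, .big, .big, .big, .big, .big, .big, .big, .big, .big, .big, .big] },
  { m := 31, L := [134742144, 8421504, 1610612800, 402653248, 100663328, 25165856, 6291472, 1572880, 393224, 98312, 24580, 6148, 1538, 386, 97, 25, 7], x := 15, cs := [.ne 1 15, .ne 1 15, .gt 1 11, .gt 1 12, .gt 1 13, .gt 1 14, .dia 15, .ne 1 15, .ne 1 15, .ne 1 15, .ne 1 15, .ne 1 15, .ne 1 15, .dia 15, .ne 1 15, .ne 1 15, .ne 1 15, .ne 1 15, .ne 1 15, .ne 1 15, .ne 1 15, .ne 1 15, .gt 1 11, .gt 1 12, .gt 1 13, .gt 1 14, .dia 15, .ne 1 15, .ne 1 15, .ne 1 15, .ne 1 15, .ne 1 15, .ne 1 15, .dia 15, .ne 1 15, .ne 1 15, .ne 1 15, .ne 1 15, .ne 1 15, .ne 1 15, .ne 1 15, .gt 1 11, .gt 1 12, .gt 1 13, .gt 1 14, .dia 15, .ne 1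 15, .ne 1 15, .ne 1 15, .ne 1 15, .ne 1 15, .ne 1 15, .dia 15, .ne 1 15, .ne 1 15, .ne 1 15, .ne 1 15, .ne 1 15, .ne 1 15, .ne 1 15, .ne 2 15, .ne 2 15, .ne 2 15, .dia 15, .gt 3 11, .gt 3 11, .ne 3 19, .gt 3 20, .gt 3 21, .gt 3 22, .dia 15, .ne 5 15, .ne 5 15, .ne 5 15, .gt 7 11, .gt 7 28, .go 19 [0, 1, 2, 3, 4, 5, 6, 7, 8, 9, 10, 11, 12, 13, 14, 15, 16, 17, 18, 19, 20, 21, 22, 23, 24, 25, 26, 27, 28, 29, 30], .go 19 [0, 1, 2, 3, 4, 5, 6, 7, 8, 9, 10, 11, 12, 13, 14, 15, 16, 17, 18, 19, 20, 21, 22, 23, 24, 25, 26, 27, 28, 30, 29], .ne 2 15, .ne 2 15, .dia 15, .gt 3 12, .gt 3 12, .ne 3 19, .gt 3 20, .gt 3 21, .gt 3 22, .dia 15, .ne 5 15, .ne 5 15, .ne 5 15, .gt 7 12, .gt 7 28, .go 19 [0, 1, 2, 3, 4, 5, 6, 7, 8, 9, 10, 12, 11, 13, 14, 15, 16, 17, 18, 19, 20, 21,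 22, 23, 24, 25, 26, 27, 28, 29, 30], .go 19 [0, 1, 2, 3, 4, 5, 6, 7, 8, 9, 10, 12, 11, 13, 14, 15, 16, 17, 18, 19, 20, 21, 22, 23, 24, 25, 26, 27, 28, 30, 29], .ne 2 15, .dia 15, .gt 3 13, .gt 3 13, .ne 3 19, .gt 3 20, .gt 3 21, .gt 3 22, .dia 15, .ne 5 15, .ne 5 15, .ne 5 15, .gt 7 13, .gt 7 28, .go 19 [0, 1, 2, 3, 4, 5, 6, 7, 8, 9, 10, 13, 14, 11, 12, 15, 16, 17, 18, 19, 20, 21, 22, 23, 24, 25, 26, 27, 28, 29, 30], .go 19 [0, 1, 2, 3, 4, 5, 6, 7, 8, 9, 10, 13, 14, 11, 12, 15, 16, 17, 18, 19, 20, 21, 22, 23, 24, 25, 26, 27, 28, 30, 29], .dia 15, .gt 3 14, .gt 3 14, .ne 3 19, .gt 3 20, .gt 3 21, .gt 3 22, .dia 15, .ne 5 15, .ne 5 15, .ne 5 15, .gt 7 14, .gt 7 28, .go 19 [0, 1, 2, 3, 4, 5, 6, 7, 8, 9, 10, 14, 13, 11, 12, 15, 16, 17, 18, 19, 20, 21, 22, 23, 24,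 25, 26, 27, 28, 29, 30], .go 19 [0, 1, 2, 3, 4, 5, 6, 7, 8, 9, 10, 14, 13, 11, 12, 15, 16, 17, 18, 19, 20, 21, 22, 23, 24, 25, 26, 27, 28, 30, 29], .dia 15, .dia 15, .dia 15, .dia 15, .dia 15, .dia 15, .dia 15, .dia 15, .dia 15, .dia 15, .dia 15, .dia 15, .dia 15, .dia 15, .ne 2 15, .ne 2 15, .ne 2 15, .ne 2 15, .ne 2 15, .dia 15, .ne 2 15, .ne 2 15, .ne 2 15, .ne 2 15, .ne 2 15, .ne 2 15, .ne 2 15, .ne 2 15, .ne 2 15, .ne 2 15, .ne 2 15, .dia 15, .ne 2 15, .ne 2 15, .ne 2 15, .ne 2 15, .ne 2 15, .ne 2 15, .ne 2 15, .dia 19, .ne 2 15, .ne 2 15, .dia 15, .ne 2 15, .ne 2 15, .ne 2 15, .dia 19, .ne 2 15, .ne 2 15, .ne 2 15, .ne 2 15, .ne 2 15, .dia 15, .ne 2 15, .ne 2 15, .ne 2 15, .ne 2 15, .ne 2 15, .ne 2 15, .ne 2 15, .ne 2 15, .dia 15, .ne 2 15, .ne 2 15, .ne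 2 15, .ne 2 15, .ne 2 15, .ne 2 15, .ne 2 15, .dia 15, .ne 2 15, .ne 2 15, .ne 2 15, .ne 2 15, .ne 2 15, .ne 2 15, .ne 2 15, .dia 15, .dia 15, .dia 15, .dia 15, .dia 15, .dia 15, .dia 15, .ne 2 15, .ne 2 15, .ne 2 15, .ne 2 15, .ne 2 15, .ne 2 15, .ne 2 15, .ne 2 15, .ne 2 15, .ne 2 15, .ne 2 15, .ne 2 15, .ne 2 15, .ne 2 15, .ne 2 15, .dia 27, .ne 2 15, .ne 2 15, .ne 2 15, .ne 2 15, .ne 2 15, .big, .big, .big, .big, .big, .big, .big, .big, .big, .big, .big, .big, .big, .big, .big, .big, .big, .big, .big, .big, .big, .big, .big] },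
  { m := 31, L := [536905728, 134742144, 8421504, 1610612800, 402653248, 100663328, 25165856, 6291472, 1572880, 393224, 98312, 24580, 6148, 1538, 386, 97, 25, 7], x := 23, cs := [.ne 1 23, .ne 1 23, .ne 1 11, .gt 1 12, .gt 1 13, .gt 1 14, .ne 1 23, .ne 1 23, .ne 1 23, .ne 1 19, .ne 1 23, .ne 1 23, .ne 1 23, .dia 23, .ne 1 23, .ne 1 23, .ne 1 23, .ne 1 23, .ne 1 23, .ne 1 23, .ne 1 23, .ne 1 11, .gt 1 12, .gt 1 13, .gt 1 14, .ne 1 23, .ne 1 23, .ne 1 23, .ne 1 19, .ne 1 23, .ne 1 23, .ne 1 23, .dia 23, .ne 1 23, .ne 1 23, .ne 1 23, .ne 1 23, .ne 1 23, .ne 1 23, .ne 1 11, .gt 1 12, .gt 1 13, .gt 1 14, .ne 1 23, .ne 1 23, .ne 1 23, .ne 1 19, .ne 1 23, .ne 1 23, .ne 1 23, .dia 23, .ne 1 23, .ne 1 23, .ne 1 23, .ne 1 23, .ne 1 23, .ne 1 23, .dia 11, .ne 2 11, .ne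 2 11, .ne 3 11, .ne 3 11, .ne 3 11, .ne 7 11, .ne 7 11, .ne 7 11, .ne 7 11, .dia 23, .ne 4 11, .ne 4 11, .ne 3 27, .ne 4 11, .dia 11, .ne 4 11, .ne 2 23, .ne 2 23, .ne 3 23, .ne 3 23, .ne 3 23, .gt 7 12, .gt 7 20, .gt 15 12, .gt 15 12, .dia 23, .ne 4 23, .ne 4 23, .ne 3 27, .ne 4 23, .ne 1 29, .ne 4 23, .ne 2 23, .ne 3 23, .ne 3 23, .ne 3 23, .gt 7 13, .gt 7 20, .go 20 [0, 1, 2, 3, 4, 5, 6, 7, 8, 9, 10, 11, 12, 13, 14, 15, 16, 17, 18, 19, 20, 21, 22, 23, 24, 25, 26, 27, 28, 29, 30], .go 20 [0, 1, 2, 3, 4, 5, 6, 7, 8, 9, 10, 11, 12, 13, 14, 15, 16, 17, 18, 19, 20, 22, 21, 23, 24, 25, 26, 27, 28, 29, 30], .dia 23, .ne 4 23, .ne 4 23, .ne 3 27, .ne 4 23, .ne 1 29, .ne 4 23, .ne 3 23, .ne 3 23, .ne 3 23, .gt 7 14, .gt 7 20, .go 20 [0, 1, 2, 3, 4, 5, 6, 7, 8, 9, 10,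 11, 12, 14, 13, 15, 16, 17, 18, 19, 20, 21, 22, 23, 24, 25, 26, 27, 28, 29, 30], .go 20 [0, 1, 2, 3, 4, 5, 6, 7, 8, 9, 10, 11, 12, 14, 13, 15, 16, 17, 18, 19, 20, 22, 21, 23, 24, 25, 26, 27, 28, 29, 30], .dia 23, .ne 4 23, .ne 4 23, .ne 3 27, .ne 4 23, .ne 1 29, .ne 4 23, .ne 2 23, .ne 2 23, .ne 2 19, .ne 2 23, .ne 2 23, .ne 2 23, .dia 23, .ne 2 23, .ne 2 23, .ne 2 23, .ne 2 23, .ne 1 29, .ne 2 23, .ne 2 23, .ne 2 19, .ne 2 23, .ne 2 23, .ne 2 23, .dia 23, .ne 2 23, .ne 2 23, .ne 2 23, .ne 2 23, .ne 1 29, .ne 2 23, .ne 2 19, .ne 2 23, .ne 2 23, .ne 2 23, .dia 23, .ne 2 23, .ne 2 23, .ne 2 23, .ne 2 23, .ne 1 29, .ne 2 23, .dia 19, .ne 2 19, .ne 2 19, .dia 23, .ne 2 19, .ne 2 19, .dia 19, .ne 2 19, .ne 1 29, .ne 2 19, .ne 2 23, .ne 2 23, .dia 23, .ne 2 23, .ne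 2 23, .ne 2 23, .ne 2 23, .ne 1 29, .ne 2 23, .ne 2 23, .dia 23, .ne 2 23, .ne 2 23, .ne 2 23, .ne 2 23, .ne 1 29, .ne 2 23, .dia 23, .ne 2 23, .ne 2 23, .ne 2 23, .ne 2 23, .ne 1 29, .ne 2 23, .dia 23, .dia 23, .dia 23, .dia 23, .dia 23, .dia 23, .ne 2 23, .ne 2 23, .ne 2 23, .ne 1 29, .ne 2 23, .ne 2 23, .ne 2 23, .ne 1 29, .ne 2 23, .dia 27, .ne 1 29, .ne 2 23, .ne 1 29, .ne 2 23, .dia 29, .big, .big, .big, .big, .big, .big, .big, .big, .big, .big, .big, .big, .big, .big, .big, .big, .big, .big, .big, .big, .big, .big] },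
  { m := 31, L := [10493952, 536905728, 134742144, 8421504, 1610612800, 402653248, 100663328, 25165856, 6291472, 1572880, 393224, 98312, 24580, 6148, 1538, 386, 97, 25, 7], x := 11, cs := [.ne 1 11, .ne 1 11, .dia 11, .ne 1 11, .ne 1 11, .ne 1 11, .ne 1 11, .ne 1 11, .ne 1 11, .ne 1 11, .ne 1 11, .ne 1 11, .ne 1 11, .ne 1 11, .ne 1 11, .ne 1 11, .ne 1 11, .dia 11, .ne 1 11, .ne 1 11, .dia 11, .ne 1 11, .ne 1 11, .ne 1 11, .ne 1 11, .ne 1 11, .ne 1 11, .ne 1 11, .ne 1 11, .ne 1 11, .ne 1 11, .ne 1 11, .ne 1 11, .ne 1 11, .ne 1 11, .dia 11, .ne 1 11, .dia 11, .ne 1 11, .ne 1 11, .ne 1 11, .ne 1 11, .ne 1 11, .ne 1 11, .ne 1 11, .ne 1 11, .ne 1 11, .ne 1 11, .ne 1 11, .ne 1 11, .ne 1 11, .ne 1 11, .dia 11, .ne 1 11, .dia 11, .dia 11, .dia 11, .dia 11, .dia 11, .dia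 11, .dia 11, .dia 11, .dia 11, .dia 11, .dia 11, .dia 11, .dia 11, .dia 11, .dia 11, .dia 11, .dia 13, .ne 2 11, .ne 2 11, .ne 2 11, .ne 2 11, .ne 2 11, .dia 13, .ne 2 11, .ne 2 11, .ne 2 11, .ne 2 11, .ne 2 11, .ne 2 11, .dia 11, .ne 2 11, .ne 2 11, .ne 2 11, .ne 2 11, .ne 2 11, .ne 2 11, .ne 1 21, .ne 2 11, .ne 2 11, .ne 2 11, .ne 2 11, .ne 2 11, .ne 2 11, .dia 11, .ne 2 11, .ne 3 11, .ne 3 11, .ne 3 11, .ne 3 11, .ne 1 21, .ne 3 11, .ne 3 11, .ne 3 11, .ne 3 11, .ne 3 11, .ne 3 11, .dia 11, .ne 3 11, .ne 3 11, .ne 3 11, .ne 3 11, .ne 1 21, .ne 3 11, .ne 3 11, .ne 3 11, .ne 3 11, .ne 3 11, .ne 3 11, .dia 11, .ne 3 11, .ne 3 11, .ne 3 11, .ne 1 21, .ne 3 11, .ne 3 11, .ne 3 11, .ne 3 11, .ne 3 11, .ne 3 11, .dia 11, .ne 3 11, .dia 19, .ne 1 21, .ne 4 11, .ne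 7 11, .ne 7 11, .ne 7 11, .dia 19, .ne 5 11, .dia 11, .ne 5 11, .ne 1 21, .ne 4 11, .ne 11 23, .go 21 [0, 1, 2, 3, 4, 5, 6, 7, 8, 9, 10, 11, 12, 13, 14, 15, 16, 17, 18, 19, 20, 21, 22, 23, 24, 25, 26, 27, 28, 29, 30], .go 21 [0, 1, 2, 3, 4, 5, 6, 7, 8, 9, 10, 11, 12, 13, 14, 15, 16, 17, 18, 19, 20, 21, 22, 23, 24, 26, 25, 27, 28, 29, 30], .ne 3 27, .ne 5 11, .dia 11, .ne 5 11, .dia 21, .ne 1 21, .ne 1 21, .ne 1 21, .ne 1 21, .ne 1 21, .dia 11, .ne 1 21, .ne 11 23, .go 22 [0, 1, 2, 3, 4, 5, 6, 7, 8, 9, 10, 11, 12, 13, 14, 15, 16, 17, 18, 19, 20, 21, 22, 23, 24, 25, 26, 27, 28, 29, 30], .go 22 [0, 1, 2, 3, 4, 5, 6, 7, 8, 9, 10, 11, 12, 13, 14, 15, 16, 17, 18, 19, 20, 21, 22, 23, 24, 26, 25, 27, 28, 29, 30], .ne 3 27, .ne 5 11, .dia 11, .ne 5 11, .ne 4 11, .ne 4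 11, .ne 3 27, .ne 4 11, .dia 11, .ne 4 11, .ne 4 11, .ne 3 27, .ne 4 11, .dia 11, .ne 4 11, .ne 3 27, .ne 4 11, .dia 11, .ne 4 11, .dia 27, .dia 11, .ne 3 27, .dia 11, .ne 4 11, .dia 11, .big, .big, .big, .big, .big, .big, .big, .big, .big, .big, .big, .big, .big, .big, .big, .big, .big, .big, .big, .big, .big] },
  { m := 31, L := [34605056, 10493952, 536905728, 134742144, 8421504, 1610612800, 402653248, 100663328, 25165856, 6291472, 1572880, 393224, 98312, 24580, 6148, 1538, 386, 97, 25, 7], x := 19, cs := [.ne 1 19, .ne 1 19, .gt 1 12, .ne 1 13, .gt 1 14, .ne 1 19, .ne 1 19, .ne 1 19, .dia 19, .ne 1 19, .ne 1 19, .ne 1 19, .ne 1 19, .ne 1 19, .dia 19, .ne 1 19, .ne 1 19, .ne 1 19, .ne 1 19, .gt 1 12, .ne 1 13, .gt 1 14, .ne 1 19, .ne 1 19, .ne 1 19, .dia 19,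 .ne 1 19, .ne 1 19, .ne 1 19, .ne 1 19, .ne 1 19, .dia 19, .ne 1 19, .ne 1 19, .ne 1 19, .gt 1 12, .ne 1 13, .gt 1 14, .ne 1 19, .ne 1 19, .ne 1 19, .dia 19, .ne 1 19, .ne 1 19, .ne 1 19, .ne 1 19, .ne 1 19, .dia 19, .ne 1 19, .ne 1 19, .ne 1 19, .ne 2 13, .ne 2 19, .ne 3 19, .ne 3 19, .ne 3 19, .dia 19, .ne 1 21, .gt 4 12, .gt 7 24, .ne 1 25, .ne 11 19, .dia 19, .ne 5 19, .ne 1 29, .ne 5 19, .dia 13, .ne 3 19, .ne 3 19, .ne 3 19, .dia 19, .dia 13, .ne 3 13, .ne 3 13, .ne 1 25, .ne 3 13, .dia 19, .ne 3 13, .ne 1 29, .ne 3 13, .ne 3 19, .ne 3 19, .ne 3 19, .dia 19, .ne 1 21, .gt 4 14, .gt 7 24, .ne 1 25, .gt 19 25, .dia 19, .ne 5 19, .ne 1 29, .ne 5 19, .ne 2 19, .ne 2 19, .dia 19, .ne 1 21, .ne 2 19, .ne 2 19, .ne 1 25, .ne 2 19, .dia 19, .ne 2 19, .ne 1 29,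 .ne 2 19, .ne 2 19, .dia 19, .ne 1 21, .ne 2 19, .ne 2 19, .ne 1 25, .ne 2 19, .dia 19, .ne 2 19, .ne 1 29, .ne 2 19, .dia 19, .ne 1 21, .ne 2 19, .ne 2 19, .ne 1 25, .ne 2 19, .dia 19, .ne 2 19, .ne 1 29, .ne 2 19, .dia 19, .dia 19, .dia 19, .dia 19, .dia 19, .dia 19, .dia 19, .dia 19, .dia 19, .dia 21, .ne 1 21, .ne 1 21, .ne 1 21, .dia 19, .ne 1 21, .ne 1 21, .ne 1 21, .ne 2 19, .ne 1 25, .ne 2 19, .dia 19, .ne 2 19, .ne 1 29, .ne 2 19, .ne 1 25, .ne 2 19, .dia 19, .ne 2 19, .ne 1 29, .ne 2 19, .dia 25, .dia 19, .ne 1 25, .ne 1 25, .ne 1 25, .dia 19, .ne 2 19, .ne 1 29, .ne 2 19, .dia 19, .dia 19, .dia 19, .ne 1 29, .ne 2 19, .dia 29, .big, .big, .big, .big, .big, .big, .big, .big, .big, .big, .big, .big, .big, .big, .big, .big, .big, .big, .big, .big] },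
  { m := 31, L := [37750784, 10493952, 536905728, 134742144, 8421504, 1610612800, 402653248, 100663328, 25165856, 6291472, 1572880, 393224, 98312, 24580, 6148, 1538, 386, 97, 25, 7], x := 19, cs := [.ne 1 19, .ne 1 19, .gt 1 12, .ne 1 13, .gt 1 14, .ne 1 19, .ne 1 19, .ne 1 19, .dia 19, .ne 1 19, .ne 1 19, .ne 1 19, .ne 1 19, .ne 1 19, .dia 19, .ne 1 19, .ne 1 19, .ne 1 19, .ne 1 19, .gt 1 12, .ne 1 13, .gt 1 14, .ne 1 19, .ne 1 19, .ne 1 19, .dia 19, .ne 1 19, .ne 1 19, .ne 1 19, .ne 1 19, .ne 1 19, .dia 19, .ne 1 19, .ne 1 19, .ne 1 19, .gt 1 12, .ne 1 13, .gt 1 14, .ne 1 19, .ne 1 19, .ne 1 19, .dia 19, .ne 1 19, .ne 1 19, .ne 1 19, .ne 1 19, .ne 1 19, .dia 19, .ne 1 19, .ne 1 19, .ne 1 19, .ne 2 13, .ne 2 19, .ne 3 19, .ne 3 19, .ne 3 19, .dia 19, .ne 1 21,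 .ne 1 22, .gt 7 24, .ne 1 25, .gt 11 26, .dia 19, .ne 5 19, .ne 1 29, .ne 5 19, .dia 13, .ne 3 19, .ne 3 19, .ne 3 19, .dia 19, .dia 13, .ne 1 22, .ne 3 13, .ne 1 25, .ne 3 13, .dia 19, .ne 3 13, .ne 1 29, .ne 3 13, .ne 3 19, .ne 3 19, .ne 3 19, .dia 19, .ne 1 21, .ne 1 22, .gt 7 24, .ne 1 25, .ne 11 19, .dia 19, .ne 5 19, .ne 1 29, .ne 5 19, .ne 2 19, .ne 2 19, .dia 19, .ne 1 21, .ne 1 22, .ne 2 19, .ne 1 25, .ne 2 19, .dia 19, .ne 2 19, .ne 1 29, .ne 2 19, .ne 2 19, .dia 19, .ne 1 21, .ne 1 22, .ne 2 19, .ne 1 25, .ne 2 19, .dia 19, .ne 2 19, .ne 1 29, .ne 2 19, .dia 19, .ne 1 21, .ne 1 22, .ne 2 19, .ne 1 25, .ne 2 19, .dia 19, .ne 2 19, .ne 1 29, .ne 2 19, .dia 19, .dia 19, .dia 19, .dia 19, .dia 19, .dia 19, .dia 19, .dia 19, .dia 19, .dia 21, .ne 1 21,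 .ne 1 21, .ne 1 21, .dia 19, .ne 1 21, .ne 1 21, .ne 1 21, .ne 1 22, .dia 22, .ne 1 22, .dia 19, .ne 1 22, .ne 1 22, .ne 1 22, .ne 1 25, .ne 2 19, .dia 19, .ne 2 19, .ne 1 29, .ne 2 19, .dia 25, .dia 19, .ne 1 25, .ne 1 25, .ne 1 25, .dia 19, .ne 2 19, .ne 1 29, .ne 2 19, .dia 19, .dia 19, .dia 19, .ne 1 29, .ne 2 19, .dia 29, .big, .big, .big, .big, .big, .big, .big, .big, .big, .big, .big, .big, .big, .big, .big, .big, .big, .big, .big, .big] }]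

theorem tab22_ok : checkTable th22 tab22 = true := by decide +kernel

theorem good22.{u} : Good.{u} th22 :=
  good_of_table _ tab22 tab22_ok (by decide +kernel) (by decide +kernel)

end R29.CB
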