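import Pool.Agent.R29.CB.Run
set_option linter.all false

/-! Certificate tables (generated). -/

namespace R29.CB

def th3 : Th := ⟨0, 0, 0, 21, false⟩

def tab3 : List Node := [
  { m := 3, L := [7], x := 0, cs := [.go 1 [0, 1, 2], .go 2 [0, 1, 2, 3], .go 2 [0, 2, 1, 3], .go 3 [0, 1, 2, 3, 4]] },
  { m := 3, L := [7, 7], x := 0, cs := [.dia 0, .dia 0, .dia 0, .dia 0] },
  { m := 4, L := [11, 7], x := 0, cs := [.dia 0, .dia 0, .go 4 [0, 1, 2, 3], .go 5 [0, 1, 2, 3, 4], .dia 0, .dia 0, .dia 0] },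
  { m := 5, L := [25, 7], x := 0, cs := [.dia 0, .dia 0, .dia 0, .dia 0, .dia 0, .dia 0, .dia 0, .dia 0, .dia 0, .dia 0, .dia 0] },
  { m := 4, L := [13, 11, 7], x := 1, cs := [.go 6 [0, 1, 2, 3], .dia 1, .dia 1, .dia 1] },
  { m := 5, L := [19, 11, 7], x := 2, cs := [.go 7 [0, 1, 2, 3, 4], .go 8 [0, 1, 2, 3, 4, 5], .go 8 [0, 1, 2, 4, 3, 5], .go 9 [0, 1, 2, 3, 4, 5, 6]] },
  { m := 4, L := [7, 11, 13, 14], x := 4, cs := [] },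
  { m := 5, L := [28, 19, 11, 7], x := 2, cs := [.dia 2, .dia 2, .dia 2, .dia 2] },
  { m := 6, L := [44, 19, 11, 7], x := 2, cs := [.dia 2, .dia 2, .dia 2, .dia 2, .dia 2, .dia 2, .dia 2] },
  { m := 7, L := [100, 19, 11, 7], x := 2, cs := [.dia 2, .dia 2, .dia 2, .dia 2, .dia 2, .dia 2, .dia 2, .dia 2, .dia 2, .dia 2, .dia 2] }]

theorem tab3_ok : checkTable th3 tab3 = true := by decide +kernel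

theorem good3.{u} : Good.{u} th3 :=
  good_of_table _ tab3 tab3_ok (by decide +kernel) (by decide +kernel)

def th18 : Th := ⟨19, 5, 2, 15, true⟩

def tab18 : List Node := [
  { m := 3, L := [7], x := 0, cs := [.go 1 [0, 1, 2], .go 2 [0, 1, 2, 3], .go 2 [0, 2, 1, 3], .go 3 [0, 1, 2, 3, 4]] },
  { m := 3, L := [7, 7], x := 0, cs := [.dia 0, .dia 0, .dia 0, .dia 0] },
  { m := 4, L := [11, 7], x := 0, cs := [.dia 0, .dia 0, .dia 0, .dia 0, .dia 0, .dia 0, .dia 0] },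
  { m := 5, L := [25, 7], x := 0, cs := [.dia 0, .dia 0, .dia 0, .dia 0, .dia 0, .dia 0, .dia 0, .dia 0, .dia 0, .dia 0, .go 4 [0, 1, 2, 3, 4, 5, 6]] },
  { m := 7, L := [97, 25, 7], x := 1, cs := [.gt 0 1, .gt 0 1, .gt 0 1, .gt 0 1, .gt 0 1, .gt 0 1, .gt 0 1, .gt 0 1, .gt 0 1, .gt 0 1, .go 5 [0, 1, 2, 3, 4, 5, 6, 7], .go 6 [0, 1, 2, 3, 4, 5, 6, 7], .go 6 [0, 1, 2, 4, 3, 5, 6, 7], .go 6 [0, 1, 2, 5, 6, 3, 4, 7], .go 6 [0, 1, 2, 6, 5, 3, 4, 7], .go 7 [0, 1, 2, 3, 4, 5, 6, 7, 8]] },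
  { m := 8, L := [134, 97, 25, 7], x := 1, cs := [.dia 1, .dia 1, .dia 1, .dia 1, .dia 1, .dia 1, .dia 1, .dia 1, .dia 1, .dia 1, .dia 1, .dia 1, .dia 1, .dia 1, .dia 1, .dia 1, .dia 1, .dia 1, .dia 1, .dia 1, .dia 1, .dia 1] },
  { m := 8, L := [138, 97, 25, 7], x := 1, cs := [.dia 1, .dia 1, .dia 1, .dia 1, .dia 1, .dia 1, .dia 1, .dia 1, .dia 1, .ne 0 1, .ne 0 1, .dia 1, .ne 0 1, .dia 1, .dia 1, .dia 1, .dia 1, .ne 0 1, .ne 0 1, .ne 0 1, .dia 1, .ne 0 1] },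
  { m := 9, L := [386, 97, 25, 7], x := 1, cs := [.dia 1, .dia 1, .dia 1, .dia 1, .dia 1, .dia 1, .ne 0 1, .ne 0 1, .ne 0 1, .dia 1, .dia 1, .ne 0 1, .ne 0 1, .dia 1, .dia 1, .ne 0 1, .dia 1, .dia 1, .dia 1, .dia 1, .dia 1, .dia 1, .ne 0 1, .ne 0 1, .ne 0 1, .ne 0 1, .dia 1, .dia 1, .go 8 [0, 1, 2, 3, 4, 5, 6, 7, 8, 9, 10]] },
  { m := 11, L := [1538, 386, 97, 25, 7], x := 2, cs := [.gt 0 2, .gt 0 2, .gt 0 2, .gt 0 7, .gt 0 8, .gt 0 9, .gt 0 10, .gt 0 2, .gt 0 2, .gt 0 7, .gt 0 8, .gt 0 9, .gt 0 10, .gt 0 2, .gt 0 7, .gt 0 8, .gt 0 9, .gt 0 10, .gt 0 7, .gt 0 8, .gt 0 9, .gt 0 10, .gt 1 2, .gt 1 2, .gt 1 2, .gt 1 2, .gt 1 2, .gt 1 2, .go 9 [0, 1, 2, 3, 4, 5, 6, 7, 8, 9, 10, 11], .go 9 [0, 1, 2, 4, 3, 5, 6, 7, 8, 9, 10, 11], .go 9 [0, 1, 2, 5, 6, 3, 4, 7, 8, 9,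 10, 11], .go 9 [0, 1, 2, 6, 5, 3, 4, 7, 8, 9, 10, 11], .go 9 [1, 0, 2, 7, 8, 9, 10, 3, 4, 5, 6, 11], .go 9 [1, 0, 2, 8, 7, 9, 10, 3, 4, 5, 6, 11], .go 9 [1, 0, 2, 9, 10, 7, 8, 3, 4, 5, 6, 11], .go 9 [1, 0, 2, 10, 9, 7, 8, 3, 4, 5, 6, 11], .go 10 [0, 1, 2, 3, 4, 5, 6, 7, 8, 9, 10, 11, 12]] },
  { m := 12, L := [2060, 1538, 386, 97, 25, 7], x := 2, cs := [.dia 2, .dia 2, .dia 2, .dia 2, .dia 2, .dia 2, .dia 2, .dia 2, .ne 0 2, .ne 0 2, .ne 0 2, .ne 0 2, .ne 0 2, .ne 0 2, .dia 2, .ne 0 2, .ne 0 2, .ne 0 2, .ne 0 2, .ne 0 2, .dia 2, .ne 0 2, .ne 0 2, .ne 0 2, .ne 0 2, .dia 2, .ne 0 2, .ne 0 2, .ne 0 2, .dia 2, .ne 0 2, .ne 0 2, .dia 2, .ne 0 2, .dia 2, .dia 2, .dia 2, .ne 0 2, .ne 0 2, .ne 0 2, .ne 0 2, .ne 0 2, .ne 0 2, .ne 0 2, .dia 2, .ne 0 2] },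
  { m := 13, L := [6148, 1538, 386, 97, 25, 7], x := 2, cs := [.ne 0 2, .ne 0 2, .ne 0 2, .ne 0 2, .ne 0 2, .ne 0 2, .ne 0 2, .dia 2, .dia 2, .ne 0 2, .ne 0 2, .ne 0 2, .ne 0 2, .ne 0 2, .ne 0 2, .dia 2, .dia 2, .ne 0 2, .ne 0 2, .ne 0 2, .ne 0 2, .ne 0 2, .dia 2, .dia 2, .ne 0 2, .ne 0 2, .ne 0 2, .ne 0 2, .dia 2, .dia 2, .ne 1 2, .ne 1 2, .ne 1 2, .dia 2, .dia 2, .ne 1 2, .ne 1 2, .dia 2, .dia 2, .ne 1 2, .dia 2, .dia 2, .dia 2, .dia 2, .dia 2, .ne 0 2, .ne 0 2, .ne 0 2, .ne 0 2, .ne 1 2, .ne 1 2, .ne 1 2, .ne 1 2, .dia 2, .dia 2, .go 11 [0, 1, 2, 3, 4, 5, 6, 7, 8, 9, 10, 11, 12, 13, 14]] },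
  { m := 15, L := [24580, 6148, 1538, 386, 97, 25, 7], x := 3, cs := [.gt 0 3, .gt 0 3, .gt 0 7, .gt 0 8, .gt 0 9, .gt 0 10, .gt 0 11, .gt 0 12, .gt 0 13, .gt 0 14, .gt 0 3, .gt 0 7, .gt 0 8, .gt 0 9, .gt 0 10, .gt 0 11, .gt 0 12, .gt 0 13, .gt 0 14, .gt 0 7, .gt 0 8, .gt 0 9, .gt 0 10, .gt 0 11, .gt 0 12, .gt 0 13, .gt 0 14, .gt 1 3, .gt 1 3, .gt 1 3, .go 12 [0, 1, 2, 3, 4, 5, 6, 7, 8, 9, 10, 11, 12, 13, 14], .go 12 [0, 1, 2, 3, 4, 5, 6, 7, 8, 9, 10, 12, 11, 13, 14], .go 12 [0, 1, 2, 3, 4, 5, 6, 7, 8, 9, 10, 13, 14, 11, 12], .go 12 [0, 1, 2, 3, 4, 5, 6, 7, 8, 9, 10, 14, 13, 11, 12], .gt 1 3, .gt 1 3, .go 12 [0, 1, 2, 3, 4, 5, 6, 8, 7, 9, 10, 11, 12, 13, 14], .go 12 [0, 1, 2, 3, 4, 5, 6, 8, 7, 9, 10, 12, 11, 13, 14], .go 12 [0, 1, 2, 3, 4, 5, 6, 8, 7, 9, 10, 13,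 14, 11, 12], .go 12 [0, 1, 2, 3, 4, 5, 6, 8, 7, 9, 10, 14, 13, 11, 12], .gt 1 3, .go 12 [0, 1, 2, 3, 4, 5, 6, 9, 10, 7, 8, 11, 12, 13, 14], .go 12 [0, 1, 2, 3, 4, 5, 6, 9, 10, 7, 8, 12, 11, 13, 14], .go 12 [0, 1, 2, 3, 4, 5, 6, 9, 10, 7, 8, 13, 14, 11, 12], .go 12 [0, 1, 2, 3, 4, 5, 6, 9, 10, 7, 8, 14, 13, 11, 12], .go 12 [0, 1, 2, 3, 4, 5, 6, 10, 9, 7, 8, 11, 12, 13, 14], .go 12 [0, 1, 2, 3, 4, 5, 6, 10, 9, 7, 8, 12, 11, 13, 14], .go 12 [0, 1, 2, 3, 4, 5, 6, 10, 9, 7, 8, 13, 14, 11, 12], .go 12 [0, 1, 2, 3, 4, 5, 6, 10, 9, 7, 8, 14, 13, 11, 12], .gt 2 3, .gt 2 3, .gt 2 3, .gt 2 3, .gt 2 3, .gt 2 3, .go 13 [0, 1, 2, 3, 4, 5, 6, 7, 8, 9, 10, 11, 12, 13, 14, 15], .go 14 [0, 1, 2, 3, 4, 5, 6, 7, 8, 9, 10, 11, 12, 13, 14, 15], .go 14 [0, 1, 2, 3, 4, 6, 5, 7, 8, 9,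 10, 11, 12, 13, 14, 15], .go 15 [0, 1, 2, 3, 4, 5, 6, 7, 8, 9, 10, 11, 12, 13, 14, 15], .go 15 [0, 1, 2, 3, 4, 5, 6, 8, 7, 9, 10, 11, 12, 13, 14, 15], .go 15 [0, 1, 2, 3, 4, 5, 6, 9, 10, 7, 8, 11, 12, 13, 14, 15], .go 15 [0, 1, 2, 3, 4, 5, 6, 10, 9, 7, 8, 11, 12, 13, 14, 15], .go 15 [0, 2, 1, 3, 4, 5, 6, 11, 12, 13, 14, 7, 8, 9, 10, 15], .go 15 [0, 2, 1, 3, 4, 5, 6, 12, 11, 13, 14, 7, 8, 9, 10, 15], .go 15 [0, 2, 1, 3, 4, 5, 6, 13, 14, 11, 12, 7, 8, 9, 10, 15], .go 15 [0, 2, 1, 3, 4, 5, 6, 14, 13, 11, 12, 7, 8, 9, 10, 15], .go 16 [0, 1, 2, 3, 4, 5, 6, 7, 8, 9, 10, 11, 12, 13, 14, 15, 16]] },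
  { m := 15, L := [2184, 24580, 6148, 1538, 386, 97, 25, 7], x := 3, cs := [.dia 3, .dia 3, .dia 3, .dia 3, .dia 3, .dia 3, .dia 3, .dia 3, .dia 3, .dia 3, .ne 0 3, .dia 3, .ne 0 3, .ne 0 3, .ne 0 3, .dia 3, .ne 0 3, .ne 0 3, .ne 0 3, .dia 3, .ne 0 3, .ne 0 3, .ne 0 3, .dia 3, .ne 0 3, .ne 0 3, .ne 0 3, .dia 3, .dia 3, .dia 3, .dia 3, .dia 3, .dia 3, .dia 3, .ne 1 3, .ne 1 3, .dia 3, .ne 1 3, .ne 1 3, .ne 1 3, .ne 1 3, .dia 3, .ne 1 3, .ne 1 3, .ne 1 3, .dia 3, .ne 1 3, .ne 1 3, .ne 1 3, .dia 3, .dia 3, .dia 3, .ne 2 3, .ne 2 3, .ne 2 3, .dia 3, .ne 0 3, .ne 0 3, .dia 3, .ne 1 3, .ne 1 3, .ne 1 3, .dia 3, .ne 2 3, .ne 2 3, .ne 2 3, .go 17 [0, 1, 2, 3, 4, 5, 6, 7, 8, 9, 10, 11, 12, 13, 14, 15, 16]] },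
  { m := 16, L := [32792, 24580, 6148, 1538, 386, 97, 25, 7], x := 3, cs := [.dia 3, .dia 3, .dia 3, .dia 3, .dia 3, .dia 3, .dia 3, .dia 3, .dia 3, .dia 3, .dia 3, .dia 3, .dia 3, .dia 3, .dia 3, .dia 3, .dia 3, .dia 3, .dia 3, .dia 3, .dia 3, .dia 3, .dia 3, .dia 3, .dia 3, .dia 3, .dia 3, .dia 3, .dia 3, .dia 3, .dia 3, .dia 3, .dia 3, .dia 3, .dia 3, .dia 3, .dia 3, .dia 3, .dia 3, .dia 3, .dia 3, .dia 3, .dia 3, .dia 3, .dia 3, .dia 3, .dia 3, .dia 3, .dia 3, .dia 3, .dia 3, .dia 3, .dia 3, .dia 3, .dia 3, .dia 3, .dia 3, .dia 3, .dia 3, .dia 3, .dia 3, .dia 3, .dia 3, .dia 3, .dia 3, .dia 3, .dia 3, .dia 3, .dia 3, .dia 3, .dia 3, .dia 3, .dia 3, .dia 3, .dia 3, .dia 3, .dia 3, .dia 3, .dia 3] },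
  { m := 16, L := [32808, 24580, 6148, 1538, 386, 97, 25, 7], x := 3, cs := [.dia 3, .dia 3, .dia 3, .dia 3, .dia 3, .dia 3, .dia 3, .dia 3, .dia 3, .dia 3, .dia 3, .dia 3, .dia 3, .dia 3, .dia 3, .dia 3, .dia 3, .dia 3, .dia 3, .dia 3, .dia 3, .ne 0 3, .ne 0 3, .ne 0 3, .ne 0 3, .ne 0 3, .ne 0 3, .ne 0 3, .ne 0 3, .dia 3, .ne 0 3, .ne 0 3, .ne 0 3, .ne 0 3, .ne 0 3, .ne 0 3, .ne 0 3, .dia 3, .ne 0 3, .ne 0 3, .ne 0 3, .ne 0 3, .ne 0 3, .ne 0 3, .dia 3, .ne 0 3, .ne 0 3, .ne 0 3, .ne 0 3, .ne 0 3, .dia 3, .ne 0 3, .ne 0 3, .ne 0 3, .ne 0 3, .dia 3, .ne 0 3, .ne 0 3, .ne 0 3, .dia 3, .ne 0 3, .ne 0 3, .dia 3, .ne 0 3, .dia 3, .dia 3, .dia 3, .dia 3, .ne 0 3, .ne 0 3, .ne 0 3, .ne 0 3, .ne 0 3, .ne 0 3, .ne 0 3, .ne 0 3, .ne 0 3, .dia 3, .ne 0 3] },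
  { m := 16, L := [32904, 24580, 6148, 1538, 386, 97, 25, 7], x := 3, cs := [.dia 3, .dia 3, .dia 3, .dia 3, .dia 3, .dia 3, .dia 3, .dia 3, .dia 3, .dia 3, .dia 3, .ne 0 3, .dia 3, .ne 0 3, .ne 0 3, .ne 0 3, .ne 0 3, .ne 0 3, .ne 0 3, .ne 0 3, .dia 3, .dia 3, .ne 0 3, .ne 0 3, .ne 0 3, .ne 0 3, .ne 0 3, .ne 0 3, .ne 0 3, .dia 3, .dia 3, .dia 3, .dia 3, .dia 3, .dia 3, .dia 3, .dia 3, .dia 3, .ne 1 3, .ne 1 3, .ne 1 3, .ne 1 3, .ne 1 3, .ne 1 3, .dia 3, .ne 1 3, .ne 1 3, .ne 1 3, .ne 1 3, .ne 1 3, .dia 3, .ne 1 3, .ne 1 3, .ne 1 3, .ne 1 3, .dia 3, .ne 2 3, .ne 2 3, .ne 2 3, .dia 3, .ne 2 3, .ne 2 3, .dia 3, .ne 2 3, .dia 3, .dia 3, .dia 3, .ne 0 3, .ne 0 3, .dia 3, .ne 1 3, .ne 1 3, .ne 1 3, .go 18 [0, 1, 2, 3, 4, 5, 6, 7, 8, 9, 10, 11, 12, 13, 14, 15, 16], .go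 18 [0, 1, 2, 3, 4, 5, 6, 7, 8, 9, 10, 12, 11, 13, 14, 15, 16], .go 18 [0, 1, 2, 3, 4, 5, 6, 7, 8, 9, 10, 13, 14, 11, 12, 15, 16], .go 18 [0, 1, 2, 3, 4, 5, 6, 7, 8, 9, 10, 14, 13, 11, 12, 15, 16], .dia 3, .ne 2 3] },
  { m := 17, L := [98312, 24580, 6148, 1538, 386, 97, 25, 7], x := 3, cs := [.dia 3, .dia 3, .dia 3, .dia 3, .dia 3, .dia 3, .dia 3, .dia 3, .dia 3, .dia 3, .dia 3, .dia 3, .ne 0 3, .ne 0 3, .ne 0 3, .ne 0 3, .ne 0 3, .ne 0 3, .ne 0 3, .ne 0 3, .ne 0 3, .dia 3, .dia 3, .ne 0 3, .ne 0 3, .ne 0 3, .ne 0 3, .ne 0 3, .ne 0 3, .ne 0 3, .ne 0 3, .dia 3, .dia 3, .ne 1 3, .ne 1 3, .ne 1 3, .go 17 [0, 1, 2, 3, 4, 5, 6, 7, 8, 9, 10, 11, 12, 13, 14, 15, 16], .go 17 [0, 1, 2, 3, 4, 5, 6, 7, 8, 9, 10, 12, 11, 13, 14, 15, 16], .go 17 [0, 1, 2, 3, 4, 5, 6, 7, 8,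 9, 10, 13, 14, 11, 12, 15, 16], .go 17 [0, 1, 2, 3, 4, 5, 6, 7, 8, 9, 10, 14, 13, 11, 12, 15, 16], .dia 3, .dia 3, .ne 1 3, .ne 1 3, .go 17 [0, 1, 2, 3, 4, 5, 6, 8, 7, 9, 10, 11, 12, 13, 14, 15, 16], .go 17 [0, 1, 2, 3, 4, 5, 6, 8, 7, 9, 10, 12, 11, 13, 14, 15, 16], .go 17 [0, 1, 2, 3, 4, 5, 6, 8, 7, 9, 10, 13, 14, 11, 12, 15, 16], .go 17 [0, 1, 2, 3, 4, 5, 6, 8, 7, 9, 10, 14, 13, 11, 12, 15, 16], .dia 3, .dia 3, .ne 1 3, .go 17 [0, 1, 2, 3, 4, 5, 6, 9, 10, 7, 8, 11, 12, 13, 14, 15, 16], .go 17 [0, 1, 2, 3, 4, 5, 6, 9, 10, 7, 8, 12, 11, 13, 14, 15, 16], .go 17 [0, 1, 2, 3, 4, 5, 6, 9, 10, 7, 8, 13, 14, 11, 12, 15, 16], .go 17 [0, 1, 2, 3, 4, 5, 6, 9, 10, 7, 8, 14, 13, 11, 12, 15, 16], .dia 3, .dia 3, .go 17 [0, 1, 2, 3, 4, 5, 6, 10, 9, 7, 8, 11, 12, 13, 14, 15,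 16], .go 17 [0, 1, 2, 3, 4, 5, 6, 10, 9, 7, 8, 12, 11, 13, 14, 15, 16], .go 17 [0, 1, 2, 3, 4, 5, 6, 10, 9, 7, 8, 13, 14, 11, 12, 15, 16], .go 17 [0, 1, 2, 3, 4, 5, 6, 10, 9, 7, 8, 14, 13, 11, 12, 15, 16], .dia 3, .dia 3, .ne 1 3, .ne 1 3, .ne 1 3, .dia 3, .dia 3, .ne 1 3, .ne 1 3, .dia 3, .dia 3, .ne 1 3, .dia 3, .dia 3, .dia 3, .dia 3, .dia 3, .dia 3, .ne 0 3, .ne 0 3, .ne 2 3, .ne 2 3, .ne 2 3, .ne 2 3, .ne 1 3, .ne 1 3, .ne 1 3, .ne 1 3, .dia 3, .dia 3, .ne 1 3] },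
  { m := 17, L := [98312, 2184, 24580, 6148, 1538, 386, 97, 25, 7], x := 7, cs := [.ne 0 7, .ne 0 7, .dia 7, .ne 0 7, .ne 0 7, .dia 7, .ne 0 7, .ne 0 7, .ne 0 7, .ne 0 7, .ne 0 7, .ne 0 7, .dia 7, .ne 0 7, .ne 0 7, .dia 7, .ne 0 7, .ne 0 7, .ne 0 7, .ne 0 7, .ne 0 7, .dia 7, .ne 0 7, .ne 0 7, .dia 7, .ne 0 7, .ne 0 7, .ne 0 7, .ne 0 7, .ne 0 7, .dia 7, .dia 7, .dia 7, .dia 7, .dia 7, .dia 7, .dia 7, .dia 7, .ne 1 7, .dia 7, .ne 1 7, .ne 1 7, .ne 1 7, .ne 1 7, .ne 1 7, .dia 7, .ne 1 7, .ne 1 7, .ne 1 7, .ne 1 7, .ne 1 7, .dia 7, .dia 7, .dia 7, .dia 7, .dia 7, .ne 2 7, .ne 2 7, .ne 2 7, .ne 2 7, .ne 2 7, .ne 2 7, .ne 2 7, .ne 2 7, .ne 2 7, .ne 3 7, .ne 0 7, .ne 0 7, .ne 0 7, .dia 7, .ne 1 7, .ne 1 7, .dia 7, .ne 2 7, .ne 2 7, .ne 2 7, .ne 3 7, .ne 3 7, .go 19 [0,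 1, 2, 3, 4, 5, 6, 7, 8, 9, 10, 11, 12, 13, 14, 15, 16, 17, 18]] },
  { m := 17, L := [67592, 32904, 24580, 6148, 1538, 386, 97, 25, 7], x := 7, cs := [.ne 0 7, .ne 0 7, .dia 7, .ne 0 7, .ne 0 7, .ne 0 7, .ne 0 7, .ne 0 7, .ne 0 7, .dia 7, .ne 0 7, .ne 0 7, .dia 7, .ne 0 7, .ne 0 7, .ne 0 7, .ne 0 7, .ne 0 7, .ne 0 7, .dia 7, .ne 0 7, .dia 7, .ne 0 7, .ne 0 7, .ne 0 7, .ne 0 7, .ne 0 7, .ne 0 7, .dia 7, .ne 0 7, .dia 7, .dia 7, .dia 7, .dia 7, .dia 7, .dia 7, .dia 7, .dia 7, .ne 1 7, .ne 1 7, .ne 1 7, .ne 1 7, .ne 1 7, .dia 7, .ne 1 7, .ne 1 7, .ne 1 7, .ne 1 7, .ne 1 7, .dia 7, .ne 1 7, .dia 11, .ne 2 7, .ne 2 7, .dia 7, .dia 11, .ne 2 7, .ne 2 7, .dia 7, .ne 3 7, .ne 2 7, .dia 7, .ne 3 7, .dia 7, .ne 3 7, .dia 7, .ne 0 7, .ne 0 7, .ne 0 7, .dia 7, .ne 1 7, .ne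 1 7, .ne 3 7, .go 20 [0, 1, 2, 3, 4, 5, 6, 7, 8, 9, 10, 11, 12, 13, 14, 15, 16, 17], .go 21 [0, 1, 2, 3, 4, 5, 6, 7, 8, 9, 10, 11, 12, 13, 14, 15, 16, 17], .go 21 [0, 1, 2, 3, 4, 5, 6, 7, 8, 9, 10, 11, 12, 14, 13, 15, 16, 17], .dia 7, .ne 2 7, .ne 2 7] },
  { m := 19, L := [393344, 98312, 2184, 24580, 6148, 1538, 386, 97, 25, 7], x := 11, cs := [.ne 0 11, .ne 0 11, .ne 0 11, .ne 0 11, .ne 0 11, .dia 11, .ne 0 11, .ne 0 11, .ne 0 11, .ne 0 11, .ne 0 11, .ne 0 11, .ne 0 11, .ne 0 11, .ne 0 11, .ne 0 11, .dia 11, .ne 0 11, .ne 0 11, .ne 0 11, .ne 0 11, .ne 0 11, .ne 0 11, .ne 0 11, .ne 0 11, .ne 0 11, .dia 11, .ne 0 11, .ne 0 11, .ne 0 11, .ne 0 11, .ne 0 11, .ne 0 11, .ne 1 11, .ne 1 11, .dia 11, .ne 1 11, .ne 1 11, .ne 1 11, .ne 1 11, .ne 1 11, .ne 1 11, .ne 1 11,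 .dia 11, .ne 1 11, .ne 1 11, .ne 1 11, .ne 1 11, .ne 1 11, .ne 1 11, .dia 11, .ne 1 11, .ne 1 11, .ne 1 11, .ne 1 11, .ne 1 11, .ne 1 11, .dia 11, .dia 11, .dia 11, .dia 11, .dia 11, .dia 11, .ne 2 11, .ne 2 11, .ne 2 11, .ne 2 11, .ne 2 11, .ne 2 11, .ne 2 11, .ne 2 11, .ne 2 11, .ne 3 11, .ne 3 11, .ne 3 11, .ne 3 11, .ne 3 11, .ne 7 11, .big, .big, .big, .big, .big, .big, .big, .big, .big, .big, .big, .big, .big, .big] },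
  { m := 18, L := [135296, 67592, 32904, 24580, 6148, 1538, 386, 97, 25, 7], x := 11, cs := [.ne 0 11, .ne 0 11, .ne 0 11, .ne 0 11, .ne 0 11, .dia 11, .ne 0 11, .ne 0 11, .ne 0 11, .dia 11, .ne 0 11, .ne 0 11, .ne 0 11, .ne 0 11, .ne 0 11, .dia 11, .ne 0 11, .ne 0 11, .ne 0 11, .dia 11, .ne 0 11, .ne 0 11, .ne 0 11, .ne 0 11, .dia 11, .ne 0 11, .ne 0 11, .ne 0 11, .dia 11, .ne 0 11, .ne 1 11, .ne 1 11, .dia 11, .gt 2 8, .gt 2 8, .gt 3 8, .dia 11, .ne 7 11, .ne 1 11, .dia 11, .gt 2 9, .gt 2 9, .ne 3 11, .dia 11, .ne 7 11, .dia 11, .gt 2 10, .gt 2 10, .ne 3 11, .dia 11, .ne 7 11, .dia 11, .dia 11, .dia 11, .dia 11, .dia 11, .ne 1 11, .ne 1 11, .dia 11, .ne 1 11, .ne 1 11, .dia 11, .ne 1 11, .dia 11, .ne 1 11, .dia 11, .ne 0 11, .ne 0 11, .ne 0 11, .ne 7 11, .go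 22 [0, 1, 2, 3, 4, 5, 6, 7, 8, 9, 10, 11, 12, 13, 14, 15, 16, 17, 18], .go 22 [0, 1, 2, 3, 4, 5, 6, 7, 8, 10, 9, 11, 12, 13, 14, 15, 16, 17, 18], .dia 11, .ne 1 11, .ne 1 11, .ne 1 11, .dia 11, .ne 1 11, .big] },
  { m := 18, L := [139392, 67592, 32904, 24580, 6148, 1538, 386, 97, 25, 7], x := 11, cs := [.ne 0 11, .ne 0 11, .ne 0 11, .ne 0 11, .ne 0 11, .dia 11, .ne 0 11, .ne 0 11, .ne 0 11, .dia 11, .ne 0 11, .ne 0 11, .ne 0 11, .ne 0 11, .ne 0 11, .dia 11, .ne 0 11, .ne 0 11, .ne 0 11, .dia 11, .ne 0 11, .ne 0 11, .ne 0 11, .ne 0 11, .dia 11, .ne 0 11, .ne 0 11, .ne 0 11, .dia 11, .ne 0 11, .ne 1 11, .ne 1 11, .dia 11, .ne 0 13, .gt 2 8, .gt 3 8, .dia 11, .ne 7 11, .ne 1 11, .dia 11, .ne 0 13, .gt 2 9, .ne 3 11, .dia 11, .go 23 [0, 1, 2, 3, 4, 5, 6, 7, 8, 9,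 10, 11, 12, 13, 14, 15, 16, 17], .dia 11, .ne 0 13, .gt 2 10, .ne 3 11, .dia 11, .go 23 [0, 1, 2, 3, 4, 5, 6, 7, 8, 10, 9, 11, 12, 13, 14, 15, 16, 17], .dia 11, .dia 11, .dia 11, .dia 11, .dia 11, .dia 13, .ne 0 13, .dia 11, .dia 13, .ne 1 11, .dia 11, .ne 1 11, .dia 11, .ne 1 11, .dia 11, .ne 0 11, .ne 0 11, .ne 0 11, .go 22 [0, 2, 1, 3, 4, 5, 6, 11, 12, 13, 14, 7, 8, 9, 10, 16, 15, 18, 17], .ne 7 11, .ne 7 11, .dia 11, .ne 0 13, .ne 1 11, .ne 1 11, .dia 11, .ne 1 11, .big] },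
  { m := 19, L := [264704, 135296, 67592, 32904, 24580, 6148, 1538, 386, 97, 25, 7], x := 12, cs := [.ne 0 12, .ne 0 12, .ne 1 12, .ne 1 12, .ne 1 12, .gt 2 4, .gt 2 4, .ne 3 12, .ne 3 12, .dia 12, .ne 3 12, .ne 0 12, .ne 1 12, .ne 1 12, .ne 1 12, .gt 2 5, .gt 2 5, .ne 3 12, .ne 3 12, .dia 12, .ne 11 12, .ne 1 12, .ne 1 12, .ne 1 12, .gt 2 6, .gt 2 6, .ne 3 12, .ne 3 12, .dia 12, .ne 11 12, .ne 0 9, .ne 0 12, .ne 0 12, .ne 0 12, .ne 0 12, .ne 0 12, .dia 12, .ne 0 12, .dia 9, .ne 0 9, .ne 0 9, .ne 0 9, .ne 0 9, .dia 12, .dia 9, .ne 0 12, .ne 0 12, .ne 0 12, .ne 0 12, .dia 12, .ne 0 12, .ne 0 12, .ne 0 12, .ne 0 12, .dia 12, .ne 0 12, .ne 0 12, .ne 0 12, .dia 12, .ne 0 12, .ne 0 12, .dia 12, .ne 0 12, .dia 12, .ne 0 12, .dia 12, .big, .big, .big, .big, .big, .big,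 .big, .big, .big, .big, .big, .big, .big] },
  { m := 18, L := [133632, 139392, 67592, 32904, 24580, 6148, 1538, 386, 97, 25, 7], x := 9, cs := [.ne 0 9, .ne 0 9, .gt 1 4, .dia 9, .ne 2 9, .ne 1 13, .ne 2 9, .ne 3 9, .ne 3 9, .dia 9, .ne 0 9, .gt 1 5, .dia 9, .ne 2 9, .ne 1 13, .ne 2 9, .ne 7 9, .ne 9 11, .dia 9, .gt 1 6, .dia 9, .ne 2 9, .ne 1 13, .ne 2 9, .ne 7 9, .ne 9 11, .dia 9, .dia 9, .ne 0 9, .ne 0 9, .ne 0 9, .ne 0 9, .ne 0 9, .dia 9, .dia 9, .dia 9, .dia 9, .dia 9, .dia 9, .dia 9, .ne 0 9, .ne 0 9, .ne 0 9, .ne 0 9, .dia 9, .dia 13, .ne 0 9, .ne 0 9, .dia 9, .ne 0 9, .ne 0 9, .dia 9, .ne 0 9, .dia 9, .dia 9, .go 24 [0, 1, 2, 3, 4, 5, 6, 7, 8, 9, 10, 11, 12, 13, 14, 15, 16, 17, 18], .ne 3 9, .ne 3 9, .ne 0 9, .dia 9, .ne 0 9, .ne 0 9, .ne 0 9, .ne 0 9,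 .ne 0 9, .dia 9, .big] },
  { m := 19, L := [262672, 133632, 139392, 67592, 32904, 24580, 6148, 1538, 386, 97, 25, 7], x := 4, cs := [.ne 0 4, .ne 0 4, .ne 0 4, .ne 0 4, .ne 0 4, .ne 0 4, .ne 0 4, .ne 0 4, .ne 0 4, .dia 4, .ne 0 4, .ne 0 4, .ne 0 4, .ne 0 4, .ne 0 4, .ne 0 4, .ne 0 4, .ne 0 4, .dia 4, .ne 1 4, .ne 1 4, .ne 1 4, .ne 1 4, .ne 1 4, .ne 1 4, .ne 0 17, .dia 4, .ne 1 4, .ne 1 4, .ne 1 4, .ne 1 4, .ne 1 4, .ne 0 17, .dia 4, .ne 2 4, .ne 2 4, .ne 3 4, .ne 3 4, .ne 0 17, .dia 4, .dia 13, .ne 3 4, .ne 3 4, .dia 13, .dia 4, .ne 3 4, .ne 3 4, .ne 0 17, .dia 4, .ne 2 4, .ne 0 17, .dia 4, .ne 0 17, .dia 4, .dia 4, .big, .big, .big, .big, .big, .big, .big, .big, .big, .big, .big, .big] }]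

theorem tab18_ok : checkTable th18 tab18 = true := by decide +kernel

theorem good18.{u} : Good.{u} th18 :=
  good_of_table _ tab18 tab18_ok (by decide +kernel) (by decide +kernel)

def th44 : Th := ⟨2, 10, 6, 15, true⟩

def tab44 : List Node := [
  { m := 3, L := [7], x := 0, cs := [.big, .big, .big, .big] }]

theorem tab44_ok : checkTable th44 tab44 = true := by decide +kernel

theorem good44.{u} : Good.{u} th44 :=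
  good_of_table _ tab44 tab44_ok (by decide +kernel) (by decide +kernel)

end R29.CB
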