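import Pool.Agent.R29.CB.Run
set_option linter.all false

/-! Certificate tables (generated). -/

namespace R29.CB

def th14 : Th := ⟨15, 4, 3, 15, true⟩

def tab14 : List Node := [
  { m := 3, L := [7], x := 0, cs := [.go 1 [0, 1, 2], .go 2 [0, 1, 2, 3], .go 2 [0, 2, 1, 3], .go 3 [0, 1, 2, 3, 4]] },
  { m := 3, L := [7, 7], x := 0, cs := [.dia 0, .dia 0, .dia 0, .dia 0] },
  { m := 4, L := [11, 7], x := 0, cs := [.dia 0, .dia 0, .dia 0, .dia 0, .dia 0, .dia 0, .dia 0] },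
  { m := 5, L := [25, 7], x := 0, cs := [.dia 0, .dia 0, .dia 0, .dia 0, .dia 0, .dia 0, .dia 0, .dia 0, .dia 0, .dia 0, .go 4 [0, 1, 2, 3, 4, 5, 6]] },
  { m := 7, L := [97, 25, 7], x := 1, cs := [.gt 0 1, .gt 0 1, .gt 0 1, .gt 0 1, .gt 0 1, .gt 0 1, .gt 0 1, .gt 0 1, .gt 0 1, .gt 0 1, .go 5 [0, 1, 2, 3, 4, 5, 6, 7], .go 6 [0, 1, 2, 3, 4, 5, 6, 7], .go 6 [0, 1, 2, 4, 3, 5, 6, 7], .go 6 [0, 1, 2, 5, 6, 3, 4, 7], .go 6 [0, 1, 2, 6, 5, 3, 4, 7], .go 7 [0, 1, 2, 3, 4, 5, 6, 7, 8]] },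
  { m := 8, L := [134, 97, 25, 7], x := 1, cs := [.dia 1, .dia 1, .dia 1, .dia 1, .dia 1, .dia 1, .dia 1, .dia 1, .dia 1, .dia 1, .dia 1, .dia 1, .dia 1, .dia 1, .dia 1, .dia 1, .dia 1, .dia 1, .dia 1, .dia 1, .dia 1, .dia 1] },
  { m := 8, L := [138, 97, 25, 7], x := 1, cs := [.dia 1, .dia 1, .dia 1, .dia 1, .dia 1, .dia 1, .dia 1, .dia 1, .dia 1, .ne 0 1, .ne 0 1, .dia 1, .ne 0 1, .dia 1, .dia 1, .dia 1, .dia 1, .ne 0 1, .ne 0 1, .ne 0 1, .dia 1, .ne 0 1] },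
  { m := 9, L := [386, 97, 25, 7], x := 1, cs := [.dia 1, .dia 1, .dia 1, .dia 1, .dia 1, .dia 1, .ne 0 1, .ne 0 1, .ne 0 1, .dia 1, .dia 1, .ne 0 1, .ne 0 1, .dia 1, .dia 1, .ne 0 1, .dia 1, .dia 1, .dia 1, .dia 1, .dia 1, .dia 1, .ne 0 1, .ne 0 1, .ne 0 1, .ne 0 1, .dia 1, .dia 1, .go 8 [0, 1, 2, 3, 4, 5, 6, 7, 8, 9, 10]] },
  { m := 11, L := [1538, 386, 97, 25, 7], x := 2, cs := [.gt 0 2, .gt 0 2, .gt 0 2, .go 9 [0, 1, 2, 3, 4, 5, 6, 7, 8, 9, 10], .go 9 [0, 1, 2, 3, 4, 5, 6, 8, 7, 9, 10], .go 9 [0, 1, 2, 3, 4, 5, 6, 9, 10, 7, 8], .go 9 [0, 1, 2, 3, 4, 5, 6, 10, 9, 7, 8], .gt 0 2, .gt 0 2, .go 9 [0, 1, 2, 4, 3, 5, 6, 7, 8, 9, 10], .go 9 [0, 1, 2, 4, 3, 5, 6, 8, 7, 9, 10], .go 9 [0, 1, 2, 4, 3, 5, 6, 9, 10, 7, 8], .go 9 [0, 1, 2, 4, 3, 5, 6, 10, 9, 7, 8], .gt 0 2, .go 9 [0, 1,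 2, 5, 6, 3, 4, 7, 8, 9, 10], .go 9 [0, 1, 2, 5, 6, 3, 4, 8, 7, 9, 10], .go 9 [0, 1, 2, 5, 6, 3, 4, 9, 10, 7, 8], .go 9 [0, 1, 2, 5, 6, 3, 4, 10, 9, 7, 8], .go 9 [0, 1, 2, 6, 5, 3, 4, 7, 8, 9, 10], .go 9 [0, 1, 2, 6, 5, 3, 4, 8, 7, 9, 10], .go 9 [0, 1, 2, 6, 5, 3, 4, 9, 10, 7, 8], .go 9 [0, 1, 2, 6, 5, 3, 4, 10, 9, 7, 8], .gt 1 2, .gt 1 2, .gt 1 2, .gt 1 2, .gt 1 2, .gt 1 2, .go 10 [0, 1, 2, 3, 4, 5, 6, 7, 8, 9, 10, 11], .go 10 [0, 1, 2, 4, 3, 5, 6, 7, 8, 9, 10, 11], .go 10 [0, 1, 2, 5, 6, 3, 4, 7, 8, 9, 10, 11], .go 10 [0, 1, 2, 6, 5, 3, 4, 7, 8, 9, 10, 11], .go 10 [1, 0, 2, 7, 8, 9, 10, 3, 4, 5, 6, 11], .go 10 [1, 0, 2, 8, 7, 9, 10, 3, 4, 5, 6, 11], .go 10 [1, 0, 2, 9, 10, 7, 8, 3, 4, 5, 6, 11], .go 10 [1, 0, 2, 10, 9, 7, 8, 3, 4, 5, 6, 11], .go 11 [0, 1, 2, 3, 4, 5, 6, 7, 8, 9,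 10, 11, 12]] },
  { m := 11, L := [140, 1538, 386, 97, 25, 7], x := 2, cs := [.dia 2, .dia 2, .dia 2, .dia 2, .dia 2, .dia 2, .dia 2, .ne 0 2, .ne 0 2, .dia 2, .ne 0 2, .ne 0 2, .ne 0 2, .ne 0 2, .dia 2, .ne 0 2, .ne 0 2, .ne 0 2, .dia 2, .ne 0 2, .ne 0 2, .ne 0 2, .dia 2, .dia 2, .dia 2, .ne 0 2, .ne 0 2, .ne 0 2, .dia 2, .ne 0 2, .ne 0 2, .ne 0 2, .dia 2, .ne 0 2, .ne 0 2, .ne 0 2, .ne 0 2] },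
  { m := 12, L := [2060, 1538, 386, 97, 25, 7], x := 2, cs := [.dia 2, .dia 2, .dia 2, .dia 2, .dia 2, .dia 2, .dia 2, .dia 2, .ne 0 2, .ne 0 2, .ne 0 2, .ne 0 2, .ne 0 2, .ne 0 2, .dia 2, .ne 0 2, .ne 0 2, .ne 0 2, .ne 0 2, .ne 0 2, .dia 2, .ne 0 2, .ne 0 2, .ne 0 2, .ne 0 2, .dia 2, .ne 0 2, .ne 0 2, .ne 0 2, .dia 2, .ne 0 2, .ne 0 2, .dia 2, .ne 0 2, .dia 2, .dia 2, .dia 2, .ne 0 2, .ne 0 2, .ne 0 2, .ne 0 2, .ne 0 2, .ne 0 2, .ne 0 2, .dia 2, .ne 0 2] },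
  { m := 13, L := [6148, 1538, 386, 97, 25, 7], x := 2, cs := [.ne 0 2, .ne 0 2, .ne 0 2, .ne 0 2, .ne 0 2, .ne 0 2, .ne 0 2, .dia 2, .dia 2, .ne 0 2, .ne 0 2, .ne 0 2, .ne 0 2, .ne 0 2, .ne 0 2, .dia 2, .dia 2, .ne 0 2, .ne 0 2, .ne 0 2, .ne 0 2, .ne 0 2, .dia 2, .dia 2, .ne 0 2, .ne 0 2, .ne 0 2, .ne 0 2, .dia 2, .dia 2, .ne 1 2, .ne 1 2, .ne 1 2, .dia 2, .dia 2, .ne 1 2, .ne 1 2, .dia 2, .dia 2, .ne 1 2, .dia 2, .dia 2, .dia 2, .dia 2, .dia 2, .ne 0 2, .ne 0 2, .ne 0 2, .ne 0 2, .ne 1 2, .ne 1 2, .ne 1 2, .ne 1 2, .dia 2, .dia 2, .go 12 [0, 1, 2, 3, 4, 5, 6, 7, 8, 9, 10, 11, 12, 13, 14]] },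
  { m := 15, L := [24580, 6148, 1538, 386, 97, 25, 7], x := 3, cs := [.gt 0 3, .gt 0 3, .go 13 [0, 1, 2, 3, 4, 5, 6, 7, 8, 9, 10, 11, 12, 13, 14], .go 13 [0, 1, 2, 3, 4, 5, 6, 8, 7, 9, 10, 11, 12, 13, 14], .go 13 [0, 1, 2, 3, 4, 5, 6, 9, 10, 7, 8, 11, 12, 13, 14], .go 13 [0, 1, 2, 3, 4, 5, 6, 10, 9, 7, 8, 11, 12, 13, 14], .go 13 [0, 2, 1, 3, 4, 5, 6, 11, 12, 13, 14, 7, 8, 9, 10], .go 13 [0, 2, 1, 3, 4, 5, 6, 12, 11, 13, 14, 7, 8, 9, 10], .go 13 [0, 2, 1, 3, 4, 5, 6, 13, 14, 11, 12, 7, 8, 9, 10], .go 13 [0, 2, 1, 3, 4, 5, 6, 14, 13, 11, 12, 7, 8, 9, 10], .gt 0 3, .go 14 [0, 1, 2, 3, 4, 5, 6, 7, 8, 9, 10, 11, 12, 13, 14], .go 14 [0, 1, 2, 3, 4, 5, 6, 8, 7, 9, 10, 11, 12, 13, 14], .go 14 [0, 1, 2, 3, 4, 5, 6, 9, 10, 7, 8, 11, 12, 13, 14], .go 14 [0, 1, 2, 3, 4, 5, 6, 10, 9, 7, 8, 11,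 12, 13, 14], .go 14 [0, 2, 1, 3, 4, 5, 6, 11, 12, 13, 14, 7, 8, 9, 10], .go 14 [0, 2, 1, 3, 4, 5, 6, 12, 11, 13, 14, 7, 8, 9, 10], .go 14 [0, 2, 1, 3, 4, 5, 6, 13, 14, 11, 12, 7, 8, 9, 10], .go 14 [0, 2, 1, 3, 4, 5, 6, 14, 13, 11, 12, 7, 8, 9, 10], .go 14 [0, 1, 2, 3, 4, 6, 5, 7, 8, 9, 10, 11, 12, 13, 14], .go 14 [0, 1, 2, 3, 4, 6, 5, 8, 7, 9, 10, 11, 12, 13, 14], .go 14 [0, 1, 2, 3, 4, 6, 5, 9, 10, 7, 8, 11, 12, 13, 14], .go 14 [0, 1, 2, 3, 4, 6, 5, 10, 9, 7, 8, 11, 12, 13, 14], .go 14 [0, 2, 1, 3, 4, 6, 5, 11, 12, 13, 14, 7, 8, 9, 10], .go 14 [0, 2, 1, 3, 4, 6, 5, 12, 11, 13, 14, 7, 8, 9, 10], .go 14 [0, 2, 1, 3, 4, 6, 5, 13, 14, 11, 12, 7, 8, 9, 10], .go 14 [0, 2, 1, 3, 4, 6, 5, 14, 13, 11, 12, 7, 8, 9, 10], .go 13 [1, 0, 2, 7, 8, 9, 10, 3, 4, 5, 6, 11, 12, 13, 14], .go 14 [1,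 0, 2, 7, 8, 9, 10, 3, 4, 5, 6, 11, 12, 13, 14], .go 14 [1, 0, 2, 7, 8, 10, 9, 3, 4, 5, 6, 11, 12, 13, 14], .go 15 [0, 1, 2, 3, 4, 5, 6, 7, 8, 9, 10, 11, 12, 13, 14], .go 15 [0, 1, 2, 3, 4, 5, 6, 7, 8, 9, 10, 12, 11, 13, 14], .go 15 [0, 1, 2, 3, 4, 5, 6, 7, 8, 9, 10, 13, 14, 11, 12], .go 15 [0, 1, 2, 3, 4, 5, 6, 7, 8, 9, 10, 14, 13, 11, 12], .go 14 [1, 0, 2, 8, 7, 9, 10, 3, 4, 5, 6, 11, 12, 13, 14], .go 14 [1, 0, 2, 8, 7, 10, 9, 3, 4, 5, 6, 11, 12, 13, 14], .go 15 [0, 1, 2, 3, 4, 5, 6, 8, 7, 9, 10, 11, 12, 13, 14], .go 15 [0, 1, 2, 3, 4, 5, 6, 8, 7, 9, 10, 12, 11, 13, 14], .go 15 [0, 1, 2, 3, 4, 5, 6, 8, 7, 9, 10, 13, 14, 11, 12], .go 15 [0, 1, 2, 3, 4, 5, 6, 8, 7, 9, 10, 14, 13, 11, 12], .go 13 [1, 0, 2, 9, 10, 7, 8, 3, 4, 5, 6, 11, 12, 13, 14], .go 15 [0, 1, 2, 3, 4, 5, 6, 9, 10,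 7, 8, 11, 12, 13, 14], .go 15 [0, 1, 2, 3, 4, 5, 6, 9, 10, 7, 8, 12, 11, 13, 14], .go 15 [0, 1, 2, 3, 4, 5, 6, 9, 10, 7, 8, 13, 14, 11, 12], .go 15 [0, 1, 2, 3, 4, 5, 6, 9, 10, 7, 8, 14, 13, 11, 12], .go 15 [0, 1, 2, 3, 4, 5, 6, 10, 9, 7, 8, 11, 12, 13, 14], .go 15 [0, 1, 2, 3, 4, 5, 6, 10, 9, 7, 8, 12, 11, 13, 14], .go 15 [0, 1, 2, 3, 4, 5, 6, 10, 9, 7, 8, 13, 14, 11, 12], .go 15 [0, 1, 2, 3, 4, 5, 6, 10, 9, 7, 8, 14, 13, 11, 12], .go 13 [2, 0, 1, 11, 12, 13, 14, 3, 4, 5, 6, 7, 8, 9, 10], .go 14 [2, 0, 1, 11, 12, 13, 14, 3, 4, 5, 6, 7, 8, 9, 10], .go 14 [2, 0, 1, 11, 12, 14, 13, 3, 4, 5, 6, 7, 8, 9, 10], .go 14 [2, 0, 1, 12, 11, 13, 14, 3, 4, 5, 6, 7, 8, 9, 10], .go 14 [2, 0, 1, 12, 11, 14, 13, 3, 4, 5, 6, 7, 8, 9, 10], .go 13 [2, 0, 1, 13, 14, 11, 12, 3, 4, 5, 6, 7, 8, 9, 10],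 .big, .big, .big, .big, .big, .big, .big, .big, .big, .big, .big, .big] },
  { m := 15, L := [152, 24580, 6148, 1538, 386, 97, 25, 7], x := 3, cs := [.dia 3, .dia 3, .dia 3, .dia 3, .dia 3, .dia 3, .dia 3, .dia 3, .dia 3, .dia 3, .dia 3, .dia 3, .dia 3, .dia 3, .dia 3, .dia 3, .dia 3, .dia 3, .dia 3, .dia 3, .dia 3, .dia 3, .dia 3, .dia 3, .dia 3, .dia 3, .dia 3, .dia 3, .dia 3, .dia 3, .dia 3, .dia 3, .dia 3, .dia 3, .dia 3, .dia 3, .dia 3, .dia 3, .dia 3, .dia 3, .dia 3, .dia 3, .dia 3, .dia 3, .dia 3, .dia 3, .dia 3, .dia 3, .dia 3, .dia 3, .dia 3, .dia 3, .dia 3, .dia 3, .dia 3, .big, .big, .big, .big, .big, .big, .big, .big, .big, .big, .big, .big] },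
  { m := 15, L := [168, 24580, 6148, 1538, 386, 97, 25, 7], x := 3, cs := [.dia 3, .dia 3, .dia 3, .dia 3, .dia 3, .dia 3, .dia 3, .dia 3, .dia 3, .dia 3, .dia 3, .dia 3, .dia 3, .dia 3, .dia 3, .dia 3, .dia 3, .dia 3, .dia 3, .dia 3, .ne 0 3, .ne 0 3, .ne 0 3, .ne 0 3, .ne 0 3, .ne 0 3, .ne 0 3, .dia 3, .dia 3, .dia 3, .dia 3, .dia 3, .dia 3, .dia 3, .ne 0 3, .ne 0 3, .ne 0 3, .ne 0 3, .ne 0 3, .ne 0 3, .ne 0 3, .ne 0 3, .ne 0 3, .ne 0 3, .ne 0 3, .ne 0 3, .ne 0 3, .ne 0 3, .ne 0 3, .ne 0 3, .ne 0 3, .ne 0 3, .ne 0 3, .ne 0 3, .ne 0 3, .big, .big, .big, .big, .big, .big, .big, .big, .big, .big, .big, .big] },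
  { m := 15, L := [2184, 24580, 6148, 1538, 386, 97, 25, 7], x := 3, cs := [.dia 3, .dia 3, .dia 3, .dia 3, .dia 3, .dia 3, .dia 3, .dia 3, .dia 3, .dia 3, .ne 0 3, .dia 3, .ne 0 3, .ne 0 3, .ne 0 3, .dia 3, .ne 0 3, .ne 0 3, .ne 0 3, .dia 3, .ne 0 3, .ne 0 3, .ne 0 3, .dia 3, .ne 0 3, .ne 0 3, .ne 0 3, .dia 3, .dia 3, .dia 3, .dia 3, .dia 3, .dia 3, .dia 3, .ne 1 3, .ne 1 3, .dia 3, .go 16 [0, 1, 2, 3, 4, 5, 6, 7, 8, 9, 10, 11, 12, 13, 14], .go 17 [0, 1, 2, 3, 4, 5, 6, 7, 8, 9, 10, 11, 12, 13, 14], .go 17 [0, 1, 2, 3, 4, 5, 6, 7, 8, 9, 10, 11, 12, 14, 13], .ne 1 3, .dia 3, .go 17 [0, 2, 1, 3, 4, 5, 6, 11, 12, 13, 14, 7, 8, 9, 10], .go 18 [0, 1, 2, 3, 4, 5, 6, 7, 8, 9, 10, 11, 12, 13, 14], .go 18 [0, 1, 2, 3, 4, 5, 6, 7, 8, 9, 10, 11, 12, 14, 13], .dia 3, .go 17 [0, 2, 1, 3, 4,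 5, 6, 11, 12, 13, 14, 7, 8, 10, 9], .go 18 [0, 1, 2, 3, 4, 5, 6, 7, 8, 10, 9, 11, 12, 13, 14], .go 18 [0, 1, 2, 3, 4, 5, 6, 7, 8, 10, 9, 11, 12, 14, 13], .dia 3, .dia 3, .dia 3, .ne 1 3, .ne 1 3, .ne 1 3, .big, .big, .big, .big, .big, .big, .big, .big, .big, .big, .big, .big] },
  { m := 15, L := [4360, 2184, 24580, 6148, 1538, 386, 97, 25, 7], x := 7, cs := [.ne 0 7, .ne 0 7, .dia 7, .ne 1 7, .ne 1 7, .dia 7, .gt 3 4, .ne 3 7, .ne 3 7, .ne 0 7, .dia 7, .ne 1 7, .ne 1 7, .dia 7, .ne 3 7, .ne 3 7, .ne 3 7, .dia 7, .ne 1 7, .ne 1 7, .dia 7, .ne 3 7, .ne 3 7, .ne 3 7, .dia 7, .dia 7, .dia 7, .dia 7, .dia 7, .dia 7, .ne 0 7, .dia 7, .ne 0 7, .ne 0 7, .ne 0 7, .dia 7, .ne 0 7, .ne 0 7, .ne 0 7, .dia 7, .dia 7, .dia 7, .ne 0 7, .ne 0 7, .ne 0 7, .big, .big, .big, .big, .big, .big, .big,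 .big, .big, .big, .big] },
  { m := 15, L := [8456, 2184, 24580, 6148, 1538, 386, 97, 25, 7], x := 7, cs := [.ne 0 7, .ne 0 7, .dia 7, .ne 1 7, .ne 1 7, .dia 7, .ne 3 7, .gt 3 4, .ne 3 7, .ne 0 7, .dia 7, .ne 1 7, .ne 1 7, .dia 7, .ne 3 7, .ne 3 7, .ne 3 7, .dia 7, .ne 1 7, .ne 1 7, .dia 7, .ne 3 7, .ne 3 7, .ne 3 7, .dia 7, .dia 7, .dia 7, .dia 7, .dia 7, .dia 7, .ne 0 7, .dia 7, .ne 0 7, .ne 0 7, .ne 0 7, .dia 7, .ne 0 7, .ne 0 7, .ne 0 7, .dia 7, .dia 7, .dia 7, .ne 0 7, .ne 0 7, .dia 13, .big, .big, .big, .big, .big, .big, .big, .big, .big, .big, .big] },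
  { m := 15, L := [8712, 2184, 24580, 6148, 1538, 386, 97, 25, 7], x := 7, cs := [.ne 0 7, .ne 0 7, .dia 7, .ne 1 7, .ne 1 7, .dia 7, .ne 3 7, .gt 3 4, .ne 3 7, .ne 0 7, .dia 7, .ne 1 7, .ne 1 7, .dia 7, .go 19 [0, 1, 2, 3, 4, 5, 6, 7, 8, 9, 10, 11, 12, 13, 14], .ne 3 7, .go 20 [0, 1, 2, 3, 4, 5, 6, 7, 8, 9, 10, 11, 12, 13, 14], .dia 7, .ne 1 7, .ne 1 7, .dia 7, .go 19 [0, 1, 2, 3, 4, 6, 5, 7, 8, 9, 10, 11, 12, 13, 14], .ne 3 7, .go 20 [0, 1, 2, 3, 4, 6, 5, 7, 8, 9, 10, 11, 12, 13, 14], .dia 7, .dia 7, .dia 7, .dia 7, .dia 7, .dia 7, .dia 9, .dia 7, .ne 0 7, .dia 9, .ne 0 7, .dia 7, .ne 0 7, .ne 0 7, .ne 0 7, .dia 7, .dia 7, .dia 7, .ne 0 7, .ne 0 7, .dia 13, .big, .big, .big, .big, .big, .big, .big, .big, .big, .big, .big] },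
  { m := 15, L := [4256, 8712, 2184, 24580, 6148, 1538, 386, 97, 25, 7], x := 11, cs := [.ne 0 5, .ne 0 11, .ne 3 11, .gt 3 4, .ne 3 11, .dia 11, .ne 1 11, .ne 1 11, .dia 5, .ne 5 7, .ne 3 5, .ne 5 7, .dia 5, .ne 1 5, .ne 1 5, .ne 7 11, .ne 3 9, .ne 7 11, .dia 11, .ne 1 11, .ne 1 11, .ne 0 9, .ne 0 11, .dia 11, .ne 0 11, .ne 0 11, .dia 9, .dia 11, .dia 9, .ne 0 9, .dia 11, .ne 0 11, .ne 0 11, .dia 11, .dia 11, .dia 13, .big, .big, .big, .big, .big, .big, .big, .big, .big, .big] },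
  { m := 15, L := [16544, 8712, 2184, 24580, 6148, 1538, 386, 97, 25, 7], x := 5, cs := [.dia 5, .ne 0 5, .ne 0 5, .ne 0 5, .ne 0 5, .ne 0 5, .ne 0 5, .dia 5, .dia 5, .dia 5, .dia 5, .dia 5, .dia 5, .dia 5, .dia 5, .ne 1 5, .ne 1 5, .ne 5 7, .ne 3 5, .ne 5 7, .dia 5, .dia 9, .ne 3 5, .go 21 [0, 1, 2, 3, 4, 5, 6, 7, 8, 9, 10, 11, 12, 13, 14], .dia 9, .dia 5, .ne 5 7, .ne 3 5, .ne 5 13, .dia 5, .dia 11, .ne 1 5, .dia 5, .ne 1 5, .dia 5, .dia 5, .big, .big, .big, .big, .big, .big, .big, .big, .big, .big] },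
  { m := 15, L := [4640, 16544, 8712, 2184, 24580, 6148, 1538, 386, 97, 25, 7], x := 11, cs := [.ne 0 11, .ne 3 11, .ne 3 11, .dia 11, .ne 1 11, .ne 1 11, .ne 7 11, .go 22 [0, 1, 2, 3, 4, 5, 6, 7, 8, 9, 10, 11, 12, 13, 14], .dia 11, .ne 1 11, .ne 1 11, .ne 0 11, .dia 11, .ne 0 11, .ne 0 11, .dia 11, .ne 0 11, .ne 0 11, .dia 11, .dia 11, .dia 13, .big, .big, .big, .big, .big, .big, .big, .big] },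
  { m := 15, L := [3136, 4640, 16544, 8712, 2184, 24580, 6148, 1538, 386, 97, 25, 7], x := 6, cs := [.ne 0 6, .dia 6, .ne 0 6, .ne 0 6, .ne 0 6, .dia 6, .ne 3 6, .go 23 [0, 1, 2, 3, 4, 5, 6, 7, 8, 9, 10, 11, 12, 13, 14], .ne 3 6, .dia 6, .dia 6, .dia 6, .ne 1 6, .ne 1 6, .dia 13, .big, .big, .big, .big, .big, .big, .big] },
  { m := 15, L := [8512, 3136, 4640, 16544, 8712, 2184, 24580, 6148, 1538, 386, 97, 25, 7], x := 8, cs := [.ne 1 8, .go 24 [0, 1, 2, 3, 4, 5, 6, 7, 8, 9, 10, 11, 12, 13, 14], .ne 7 8, .ne 0 8, .ne 0 8, .ne 0 8, .big, .big, .big, .big, .big] },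
  { m := 15, L := [4368, 8512, 3136, 4640, 16544, 8712, 2184, 24580, 6148, 1538, 386, 97, 25, 7], x := 4, cs := [.go 25 [0, 1, 2, 3, 4, 5, 6, 7, 8, 9, 10, 11, 12, 13, 14], .big, .big, .big] },
  { m := 15, L := [7, 25, 97, 386, 1538, 6148, 24580, 2184, 8712, 4368, 17424, 16544, 4640, 8512, 3136], x := 15, cs := [] }]

theorem tab14_ok : checkTable th14 tab14 = true := by decide +kernel

theorem good14.{u} : Good.{u} th14 :=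
  good_of_table _ tab14 tab14_ok (by decide +kernel) (by decide +kernel)

def th20 : Th := ⟨10, 5, 4, 15, true⟩

def tab20 : List Node := [
  { m := 3, L := [7], x := 0, cs := [.go 1 [0, 1, 2], .go 2 [0, 1, 2, 3], .go 2 [0, 2, 1, 3], .go 3 [0, 1, 2, 3, 4]] },
  { m := 3, L := [7, 7], x := 0, cs := [.dia 0, .dia 0, .dia 0, .dia 0] },
  { m := 4, L := [11, 7], x := 0, cs := [.dia 0, .dia 0, .dia 0, .dia 0, .dia 0, .dia 0, .dia 0] },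
  { m := 5, L := [25, 7], x := 0, cs := [.dia 0, .dia 0, .dia 0, .dia 0, .dia 0, .dia 0, .dia 0, .dia 0, .dia 0, .dia 0, .go 4 [0, 1, 2, 3, 4, 5, 6]] },
  { m := 7, L := [97, 25, 7], x := 1, cs := [.go 5 [0, 1, 2, 3, 4, 5, 6], .go 5 [0, 1, 2, 4, 3, 5, 6], .go 5 [0, 1, 2, 5, 6, 3, 4], .go 5 [0, 1, 2, 6, 5, 3, 4], .go 5 [0, 3, 4, 1, 2, 5, 6], .go 6 [0, 1, 2, 3, 4, 5, 6], .go 6 [0, 1, 2, 3, 4, 6, 5], .go 6 [0, 1, 2, 4, 3, 5, 6], .go 6 [0, 1, 2, 4, 3, 6, 5], .go 5 [0, 5, 6, 1, 2, 3, 4], .go 7 [0, 1, 2, 3, 4, 5, 6, 7], .go 8 [0, 1, 2, 3, 4, 5, 6, 7], .go 8 [0, 1, 2, 4, 3, 5, 6, 7], .go 8 [0, 1, 2, 5, 6, 3, 4, 7], .go 8 [0, 1, 2, 6, 5, 3, 4, 7], .go 9 [0, 1, 2, 3, 4, 5, 6, 7, 8]] },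
  { m := 7, L := [14, 97, 25, 7], x := 1, cs := [.dia 1, .dia 1, .dia 1, .dia 1, .dia 1, .dia 1, .dia 1, .dia 1, .dia 1, .dia 1, .dia 1, .dia 1, .dia 1, .dia 1, .dia 1, .dia 1] },
  { m := 7, L := [42, 97, 25, 7], x := 1, cs := [.dia 1, .dia 1, .dia 1, .dia 1, .dia 1, .dia 1, .dia 1, .dia 1, .ne 0 1, .dia 1, .dia 1, .dia 1, .ne 0 1, .dia 1, .ne 0 1, .go 10 [0, 1, 2, 3, 4, 5, 6, 7, 8]] },
  { m := 8, L := [134, 97, 25, 7], x := 1, cs := [.dia 1, .dia 1, .dia 1, .dia 1, .dia 1, .dia 1, .dia 1, .dia 1, .dia 1, .dia 1, .dia 1, .dia 1, .dia 1, .dia 1, .dia 1, .dia 1, .dia 1, .dia 1, .dia 1, .dia 1, .dia 1, .dia 1] },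
  { m := 8, L := [138, 97, 25, 7], x := 1, cs := [.dia 1, .dia 1, .dia 1, .dia 1, .dia 1, .dia 1, .dia 1, .dia 1, .dia 1, .ne 0 1, .ne 0 1, .dia 1, .ne 0 1, .dia 1, .dia 1, .dia 1, .dia 1, .go 10 [1, 0, 2, 3, 7, 4, 8, 5, 6], .go 11 [0, 1, 2, 3, 4, 5, 6, 7, 8], .go 11 [0, 1, 2, 3, 4, 6, 5, 7, 8], .dia 1, .ne 0 1] },
  { m := 9, L := [386, 97, 25, 7], x := 1, cs := [.dia 1, .dia 1, .dia 1, .dia 1, .dia 1, .dia 1, .go 12 [0, 1, 2, 3, 4, 5, 6, 7, 8], .go 10 [0, 1, 2, 3, 4, 5, 6, 7, 8], .go 10 [0, 1, 2, 3, 4, 6, 5, 7, 8], .dia 1, .dia 1, .go 10 [0, 1, 2, 4, 3, 5, 6, 7, 8], .go 10 [0, 1, 2, 4, 3, 6, 5, 7, 8], .dia 1, .dia 1, .go 12 [0, 1, 2, 5, 6, 3, 4, 7, 8], .dia 1, .dia 1, .dia 1, .dia 1, .dia 1, .dia 1, .ne 0 1, .ne 0 1, .ne 0 1, .ne 0 1, .dia 1, .dia 1, .big] },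
  { m := 9, L := [386, 42, 97, 25, 7], x := 3, cs := [.dia 3, .dia 3, .ne 0 3, .ne 0 3, .ne 0 3, .dia 3, .dia 3, .dia 3, .dia 3, .dia 3, .dia 3, .dia 3, .ne 0 3, .ne 0 3, .ne 1 3, .ne 0 3, .dia 3, .dia 3, .ne 0 3, .go 13 [0, 1, 2, 3, 4, 5, 6, 7, 8, 9], .go 13 [0, 1, 2, 3, 4, 5, 6, 8, 7, 9], .big] },
  { m := 9, L := [290, 138, 97, 25, 7], x := 3, cs := [.dia 3, .ne 0 3, .ne 0 3, .dia 3, .ne 1 3, .dia 3, .dia 3, .dia 3, .dia 3, .dia 5, .dia 3, .dia 5, .dia 3, .go 14 [0, 1, 2, 3, 4, 5, 6, 7, 8], .dia 3, .go 13 [3, 0, 4, 1, 7, 2, 9, 5, 6, 8], .dia 3, .go 15 [0, 1, 2, 3, 4, 5, 6, 7, 8, 9], .ne 1 3, .dia 3, .ne 0 3, .big] },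
  { m := 9, L := [26, 386, 97, 25, 7], x := 3, cs := [.dia 3, .dia 3, .dia 3, .dia 3, .dia 3, .dia 3, .dia 3, .dia 3, .dia 3, .dia 3, .dia 3, .dia 3, .dia 3, .dia 3, .dia 3, .dia 3, .dia 3, .dia 3, .dia 3, .dia 3, .dia 3, .big] },
  { m := 10, L := [648, 386, 42, 97, 25, 7], x := 5, cs := [.ne 0 5, .dia 5, .ne 0 5, .ne 0 5, .ne 0 5, .dia 5, .ne 0 5, .ne 0 5, .ne 0 5, .dia 5, .dia 5, .dia 5, .dia 7, .dia 7, .go 16 [0, 1, 2, 3, 4, 5, 6, 7, 8, 9], .big, .big, .big, .big, .big, .big, .big] },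
  { m := 9, L := [328, 290, 138, 97, 25, 7], x := 5, cs := [.ne 0 5, .dia 5, .ne 1 5, .dia 5, .dia 5, .ne 3 5, .dia 5, .dia 5, .dia 5, .dia 5, .go 17 [0, 1, 2, 3, 4, 5, 6, 7, 8, 9], .ne 1 5, .dia 5, .ne 0 5, .dia 5, .big] },
  { m := 10, L := [552, 290, 138, 97, 25, 7], x := 2, cs := [.go 18 [0, 1, 2, 3, 4, 5, 6, 7, 8, 9], .go 19 [0, 1, 2, 3, 4, 5, 6, 7, 8, 9], .go 20 [0, 1, 2, 3, 4, 5, 6, 7, 8, 9], .go 20 [0, 3, 4, 1, 2, 5, 6, 7, 9, 8], .go 20 [0, 1, 2, 5, 6, 3, 4, 8, 7, 9], .go 19 [0, 1, 2, 5, 6, 3, 4, 8, 7, 9], .go 20 [0, 5, 6, 1, 2, 3, 4, 8, 9, 7], .go 18 [1, 0, 2, 3, 7, 5, 8, 4, 6, 9], .go 20 [1, 3, 7, 0, 2, 5, 8, 4, 9, 6], .go 20 [1, 5, 8, 0, 2, 3, 7, 6, 9, 4], .big, .big, .big, .big, .big, .big] },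
  { m := 10, L := [800, 648, 386, 42, 97, 25, 7], x := 7, cs := [.go 21 [0, 1, 2, 3, 4, 5, 6, 7, 8, 9], .ne 3 7, .dia 7, .dia 7, .ne 1 7, .dia 7, .dia 7, .dia 7, .dia 7, .dia 7, .big, .big, .big, .big, .big, .big] },
  { m := 10, L := [548, 328, 290, 138, 97, 25, 7], x := 2, cs := [.ne 0 2, .go 21 [5, 0, 6, 1, 8, 2, 9, 3, 4, 7], .ne 0 8, .dia 2, .ne 1 6, .dia 6, .dia 2, .ne 0 2, .dia 2, .dia 2, .big, .big, .big, .big, .big, .big] },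
  { m := 10, L := [84, 552, 290, 138, 97, 25, 7], x := 2, cs := [.dia 2, .dia 2, .dia 2, .dia 2, .dia 2, .dia 2, .dia 2, .go 22 [0, 1, 2, 3, 4, 5, 6, 7, 8, 9], .ne 1 2, .ne 1 2, .big, .big, .big, .big, .big, .big] },
  { m := 10, L := [148, 552, 290, 138, 97, 25, 7], x := 2, cs := [.dia 2, .dia 2, .dia 2, .dia 2, .dia 2, .go 23 [0, 1, 2, 3, 4, 5, 6, 7, 8, 9], .ne 1 2, .dia 2, .dia 2, .ne 0 2, .big, .big, .big, .big, .big, .big] },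
  { m := 10, L := [276, 552, 290, 138, 97, 25, 7], x := 4, cs := [.dia 2, .dia 2, .dia 2, .dia 2, .ne 1 4, .dia 4, .ne 3 4, .dia 4, .ne 0 4, .dia 4, .big, .big, .big, .big, .big, .big] },
  { m := 10, L := [148, 800, 648, 386, 42, 97, 25, 7], x := 2, cs := [.dia 2, .dia 2, .dia 2, .go 24 [0, 1, 2, 3, 4, 5, 6, 7, 8, 9], .ne 1 2, .dia 8, .big, .big, .big, .big, .big] },
  { m := 10, L := [388, 84, 552, 290, 138, 97, 25, 7], x := 4, cs := [.dia 4, .dia 4, .dia 4, .dia 7, .go 25 [0, 1, 2, 3, 4, 5, 6, 7, 8, 9], .ne 3 4, .big, .big, .big, .big, .big] },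
  { m := 10, L := [324, 148, 552, 290, 138, 97, 25, 7], x := 4, cs := [.dia 4, .dia 6, .go 26 [0, 1, 2, 3, 4, 5, 6, 7, 8, 9], .dia 4, .dia 4, .ne 0 4, .big, .big, .big, .big, .big] },
  { m := 10, L := [324, 148, 800, 648, 386, 42, 97, 25, 7], x := 4, cs := [.go 27 [0, 1, 2, 3, 4, 5, 6, 7, 8, 9], .big, .big, .big] },
  { m := 10, L := [656, 388, 84, 552, 290, 138, 97, 25, 7], x := 6, cs := [.go 27 [0, 2, 1, 4, 3, 6, 5, 7, 8, 9], .big, .big, .big] },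
  { m := 10, L := [592, 324, 148, 552, 290, 138, 97, 25, 7], x := 7, cs := [.go 28 [0, 1, 2, 3, 4, 5, 6, 7, 8, 9], .big, .big, .big] },
  { m := 10, L := [7, 25, 97, 42, 386, 148, 324, 648, 592, 800], x := 10, cs := [] },
  { m := 10, L := [7, 25, 97, 138, 290, 148, 324, 552, 592, 896], x := 10, cs := [] }]

theorem tab20_ok : checkTable th20 tab20 = true := by decide +kernel

theorem good20.{u} : Good.{u} th20 :=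
  good_of_table _ tab20 tab20_ok (by decide +kernel) (by decide +kernel)

def th61 : Th := ⟨2, 9, 10, 17, true⟩

def tab61 : List Node := [
  { m := 3, L := [7], x := 0, cs := [.big, .big, .big, .big] }]

theorem tab61_ok : checkTable th61 tab61 = true := by decide +kernel

theorem good61.{u} : Good.{u} th61 :=
  good_of_table _ tab61 tab61_ok (by decide +kernel) (by decide +kernel)

def th71 : Th := ⟨11, 7, 2, 19, true⟩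

def tab71 : List Node := [
  { m := 3, L := [7], x := 0, cs := [.go 1 [0, 1, 2], .go 2 [0, 1, 2, 3], .go 2 [0, 2, 1, 3], .go 3 [0, 1, 2, 3, 4]] },
  { m := 3, L := [7, 7], x := 0, cs := [.dia 0, .dia 0, .dia 0, .go 4 [0, 1, 2, 3, 4]] },
  { m := 4, L := [11, 7], x := 0, cs := [.dia 0, .dia 0, .dia 0, .dia 0, .go 5 [0, 1, 2, 3, 4], .go 5 [0, 1, 3, 2, 4], .dia 0] },
  { m := 5, L := [25, 7], x := 0, cs := [.go 4 [0, 1, 2, 3, 4], .go 5 [0, 1, 3, 2, 4], .go 5 [0, 1, 4, 2, 3], .go 5 [0, 2, 3, 1, 4], .go 5 [0, 2, 4, 1, 3], .go 4 [0, 3, 4, 1, 2], .dia 0, .dia 0, .dia 0, .dia 0, .dia 0] },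
  { m := 5, L := [25, 7, 7], x := 1, cs := [.dia 1, .dia 1, .ne 0 1, .dia 1, .ne 0 1, .ne 0 1, .go 6 [0, 1, 2, 3, 4, 5, 6]] },
  { m := 5, L := [21, 11, 7], x := 1, cs := [.dia 1, .dia 2, .ne 0 1, .ne 0 1, .gt 0 5, .dia 1, .dia 1] },
  { m := 7, L := [98, 25, 7, 7], x := 2, cs := [.ne 0 2, .ne 0 2, .ne 0 2, .ne 0 2, .ne 0 2, .gt 0 5, .ne 0 2, .ne 0 2, .gt 0 5, .gt 0 6, .go 7 [0, 1, 2, 3, 4, 5, 6, 7, 8]] },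
  { m := 9, L := [388, 98, 25, 7, 7], x := 3, cs := [.gt 0 5, .gt 0 6, .gt 0 7, .gt 0 8, .gt 0 5, .gt 0 5, .gt 0 5, .gt 0 6, .gt 0 6, .gt 0 7, .go 8 [0, 1, 2, 3, 4, 5, 6, 7, 8, 9], .gt 0 5, .gt 0 6, .gt 0 7, .gt 0 8, .go 9 [0, 1, 2, 3, 4, 5, 6, 7, 8, 9, 10]] },
  { m := 10, L := [536, 388, 98, 25, 7, 7], x := 3, cs := [.dia 3, .dia 3, .dia 3, .dia 3, .dia 3, .dia 3, .dia 3, .dia 3, .ne 0 3, .dia 3, .dia 3, .ne 0 3, .dia 3, .ne 0 3, .ne 0 3, .dia 3, .dia 3, .dia 3, .dia 3, .dia 3, .ne 0 3, .big] },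
  { m := 11, L := [1544, 388, 98, 25, 7, 7], x := 3, cs := [.dia 3, .dia 3, .dia 3, .dia 3, .ne 0 3, .ne 0 3, .dia 3, .dia 3, .dia 3, .dia 3, .dia 3, .dia 3, .dia 3, .dia 3, .dia 3, .dia 3, .dia 3, .dia 3, .dia 3, .dia 3, .ne 0 3, .big, .big, .big, .big, .big, .big, .big, .big] }]

theorem tab71_ok : checkTable th71 tab71 = true := by decide +kernel

theorem good71.{u} : Good.{u} th71 :=
  good_of_table _ tab71 tab71_ok (by decide +kernel) (by decide +kernel)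

end R29.CB
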