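import Pool.Agent.R29.CB.Run
set_option linter.all false

/-! Certificate tables (generated). -/

namespace R29.CB

def th19 : Th := ⟨13, 5, 3, 15, true⟩

def tab19 : List Node := [
  { m := 3, L := [7], x := 0, cs := [.go 1 [0, 1, 2], .go 2 [0, 1, 2, 3], .go 2 [0, 2, 1, 3], .go 3 [0, 1, 2, 3, 4]] },
  { m := 3, L := [7, 7], x := 0, cs := [.dia 0, .dia 0, .dia 0, .dia 0] },
  { m := 4, L := [11, 7], x := 0, cs := [.dia 0, .dia 0, .dia 0, .dia 0, .dia 0, .dia 0, .dia 0] },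
  { m := 5, L := [25, 7], x := 0, cs := [.dia 0, .dia 0, .dia 0, .dia 0, .dia 0, .dia 0, .dia 0, .dia 0, .dia 0, .dia 0, .go 4 [0, 1, 2, 3, 4, 5, 6]] },
  { m := 7, L := [97, 25, 7], x := 1, cs := [.go 5 [0, 1, 2, 3, 4, 5, 6], .go 5 [0, 1, 2, 4, 3, 5, 6], .go 5 [0, 1, 2, 5, 6, 3, 4], .go 5 [0, 1, 2, 6, 5, 3, 4], .go 5 [0, 3, 4, 1, 2, 5, 6], .go 6 [0, 1, 2, 3, 4, 5, 6], .go 6 [0, 1, 2, 3, 4, 6, 5], .go 6 [0, 1, 2, 4, 3, 5, 6], .go 6 [0, 1, 2, 4, 3, 6, 5], .go 5 [0, 5, 6, 1, 2, 3, 4], .go 7 [0, 1, 2, 3, 4, 5, 6, 7], .go 8 [0, 1, 2, 3, 4, 5, 6, 7], .go 8 [0, 1, 2, 4, 3, 5, 6, 7], .go 8 [0, 1, 2, 5, 6, 3, 4, 7], .go 8 [0, 1, 2, 6, 5, 3, 4, 7], .go 9 [0, 1, 2, 3, 4, 5, 6, 7, 8]] },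
  { m := 7, L := [14, 97, 25, 7], x := 1, cs := [.dia 1, .dia 1, .dia 1, .dia 1, .dia 1, .dia 1, .dia 1, .dia 1, .dia 1, .dia 1, .dia 1, .dia 1, .dia 1, .dia 1, .dia 1, .dia 1] },
  { m := 7, L := [42, 97, 25, 7], x := 1, cs := [.dia 1, .dia 1, .dia 1, .dia 1, .dia 1, .dia 1, .dia 1, .dia 1, .ne 0 1, .dia 1, .dia 1, .dia 1, .ne 0 1, .dia 1, .ne 0 1, .ne 0 1] },
  { m := 8, L := [134, 97, 25, 7], x := 1, cs := [.dia 1, .dia 1, .dia 1, .dia 1, .dia 1, .dia 1, .dia 1, .dia 1, .dia 1, .dia 1, .dia 1, .dia 1, .dia 1, .dia 1, .dia 1, .dia 1, .dia 1, .dia 1, .dia 1, .dia 1, .dia 1, .dia 1] },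
  { m := 8, L := [138, 97, 25, 7], x := 1, cs := [.dia 1, .dia 1, .dia 1, .dia 1, .dia 1, .dia 1, .dia 1, .dia 1, .dia 1, .ne 0 1, .ne 0 1, .dia 1, .ne 0 1, .dia 1, .dia 1, .dia 1, .dia 1, .ne 0 1, .ne 0 1, .ne 0 1, .dia 1, .go 10 [0, 1, 2, 3, 4, 5, 6, 7, 8, 9]] },
  { m := 9, L := [386, 97, 25, 7], x := 1, cs := [.dia 1, .dia 1, .dia 1, .dia 1, .dia 1, .dia 1, .ne 0 1, .ne 0 1, .ne 0 1, .dia 1, .dia 1, .ne 0 1, .ne 0 1, .dia 1, .dia 1, .ne 0 1, .dia 1, .dia 1, .dia 1, .dia 1, .dia 1, .dia 1, .go 10 [0, 1, 2, 3, 4, 5, 6, 9, 7, 8], .go 10 [0, 1, 2, 4, 3, 5, 6, 9, 7, 8], .go 10 [0, 1, 2, 5, 6, 3, 4, 9, 7, 8], .go 10 [0, 1, 2, 6, 5, 3, 4, 9, 7, 8], .dia 1, .dia 1, .ne 0 1] },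
  { m := 10, L := [770, 138, 97, 25, 7], x := 3, cs := [.dia 3, .ne 0 3, .ne 0 3, .dia 3, .ne 0 3, .ne 0 3, .dia 3, .dia 3, .dia 3, .dia 3, .dia 3, .ne 0 3, .dia 3, .ne 0 3, .ne 0 3, .dia 3, .ne 0 3, .ne 0 3, .dia 3, .dia 3, .ne 1 3, .ne 0 3, .dia 3, .ne 0 3, .ne 0 3, .dia 3, .ne 1 3, .ne 1 3, .go 11 [0, 1, 2, 3, 4, 5, 6, 7, 8, 9, 10, 11]] },
  { m := 12, L := [3080, 770, 138, 97, 25, 7], x := 2, cs := [.go 12 [0, 1, 2, 3, 4, 5, 6, 7, 8, 9, 10, 11], .go 12 [0, 1, 2, 3, 4, 6, 5, 7, 8, 9, 10, 11], .gt 0 7, .gt 1 4, .gt 1 4, .gt 3 2, .gt 3 2, .go 13 [0, 1, 2, 3, 4, 5, 6, 7, 8, 9, 10, 11], .gt 0 7, .go 14 [0, 1, 2, 3, 4, 5, 6, 7, 8, 9, 10, 11], .go 14 [0, 1, 2, 3, 4, 5, 6, 7, 9, 8, 10, 11], .go 15 [0, 1, 2, 3, 4, 5, 6, 7, 8, 9, 10, 11], .go 15 [0, 1, 2, 3, 4, 5, 6, 7, 8, 9, 11, 10],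 .gt 0 7, .go 14 [0, 1, 2, 3, 4, 6, 5, 7, 8, 9, 10, 11], .go 14 [0, 1, 2, 3, 4, 6, 5, 7, 9, 8, 10, 11], .go 15 [0, 1, 2, 3, 4, 6, 5, 7, 8, 9, 10, 11], .go 15 [0, 1, 2, 3, 4, 6, 5, 7, 8, 9, 11, 10], .go 12 [1, 0, 2, 3, 7, 8, 9, 4, 5, 6, 10, 11], .go 12 [1, 0, 2, 3, 7, 9, 8, 4, 5, 6, 10, 11], .gt 3 2, .gt 3 2, .go 13 [1, 0, 2, 3, 7, 8, 9, 4, 5, 6, 10, 11], .go 15 [1, 0, 2, 3, 7, 8, 9, 4, 5, 6, 10, 11], .go 15 [1, 0, 2, 3, 7, 8, 9, 4, 5, 6, 11, 10], .go 15 [1, 0, 2, 3, 7, 9, 8, 4, 5, 6, 10, 11], .go 15 [1, 0, 2, 3, 7, 9, 8, 4, 5, 6, 11, 10], .gt 3 2, .go 16 [0, 1, 2, 3, 4, 5, 6, 7, 8, 9, 10, 11, 12], .go 17 [0, 1, 2, 3, 4, 5, 6, 7, 8, 9, 10, 11, 12], .go 17 [0, 1, 2, 3, 4, 6, 5, 7, 8, 9, 10, 11, 12], .go 16 [1, 0, 2, 3, 7, 8, 9, 4, 5, 6, 10, 11, 12], .go 17 [1, 0, 2, 3, 7, 8, 9, 4, 5,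 6, 10, 11, 12], .go 17 [1, 0, 2, 3, 7, 9, 8, 4, 5, 6, 10, 11, 12], .go 18 [0, 1, 2, 3, 4, 5, 6, 7, 8, 9, 10, 11, 12], .go 18 [0, 1, 2, 3, 4, 5, 6, 7, 8, 9, 11, 10, 12], .big] },
  { m := 12, L := [52, 3080, 770, 138, 97, 25, 7], x := 2, cs := [.dia 2, .dia 2, .dia 2, .dia 2, .dia 2, .dia 2, .dia 2, .dia 2, .dia 2, .dia 2, .dia 2, .dia 2, .dia 2, .ne 0 2, .ne 0 2, .ne 0 2, .ne 0 2, .ne 0 2, .ne 0 2, .ne 0 2, .ne 0 2, .ne 0 2, .ne 0 2, .ne 0 2, .ne 0 2, .ne 0 2, .ne 0 2, .ne 0 2, .dia 2, .dia 2, .ne 0 2, .ne 0 2, .ne 0 2, .ne 0 2, .ne 0 2, .ne 0 2, .big] },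
  { m := 12, L := [100, 3080, 770, 138, 97, 25, 7], x := 2, cs := [.dia 2, .dia 2, .ne 0 2, .ne 0 2, .ne 0 2, .ne 0 2, .ne 0 2, .dia 2, .dia 2, .dia 2, .dia 2, .dia 2, .dia 2, .dia 2, .dia 2, .dia 2, .dia 2, .dia 2, .ne 0 2, .ne 0 2, .ne 0 2, .ne 0 2, .ne 0 2, .ne 0 2, .ne 0 2, .ne 0 2, .ne 0 2, .ne 0 2, .ne 0 2, .dia 2, .dia 2, .ne 0 2, .ne 0 2, .ne 0 2, .ne 0 2, .ne 0 2, .big] },
  { m := 12, L := [292, 3080, 770, 138, 97, 25, 7], x := 5, cs := [.dia 2, .dia 2, .dia 2, .dia 2, .dia 2, .dia 2, .dia 2, .dia 5, .ne 0 5, .dia 5, .ne 0 5, .ne 0 5, .ne 0 5, .dia 5, .dia 5, .dia 5, .dia 5, .dia 5, .dia 5, .ne 1 5, .ne 1 5, .ne 1 5, .dia 5, .dia 5, .dia 5, .ne 1 5, .ne 1 5, .go 19 [0, 1, 2, 3, 4, 5, 6, 7, 8, 9, 10, 11], .dia 2, .ne 0 5, .dia 5, .ne 1 5, .dia 5, .ne 1 5, .ne 3 5, .ne 3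 5, .big] },
  { m := 12, L := [1060, 3080, 770, 138, 97, 25, 7], x := 10, cs := [.dia 2, .dia 2, .dia 2, .dia 2, .dia 2, .dia 2, .dia 2, .dia 5, .ne 0 10, .ne 0 10, .ne 0 10, .ne 0 10, .dia 10, .dia 5, .dia 5, .dia 5, .dia 5, .dia 5, .ne 0 10, .ne 0 10, .ne 0 10, .dia 10, .ne 1 10, .ne 1 10, .dia 10, .ne 1 10, .dia 10, .dia 10, .dia 2, .ne 0 10, .dia 5, .ne 0 10, .go 20 [0, 1, 2, 3, 4, 5, 6, 7, 8, 9, 10, 11, 12], .ne 3 10, .ne 3 10, .dia 10, .big] },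
  { m := 13, L := [4116, 3080, 770, 138, 97, 25, 7], x := 2, cs := [.dia 2, .dia 2, .dia 2, .dia 2, .dia 2, .dia 2, .dia 2, .dia 2, .ne 0 2, .ne 0 2, .ne 0 2, .ne 0 2, .ne 0 2, .ne 0 2, .dia 2, .ne 0 2, .ne 0 2, .ne 0 2, .ne 0 2, .ne 0 2, .dia 2, .ne 1 2, .ne 1 2, .ne 2 3, .ne 2 3, .dia 2, .ne 1 2, .ne 2 3, .ne 2 3, .dia 2, .ne 2 3, .ne 2 3, .dia 2, .ne 1 2, .dia 2, .dia 2, .big, .big, .big, .big, .big, .big, .big, .big, .big, .big] },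
  { m := 13, L := [4132, 3080, 770, 138, 97, 25, 7], x := 5, cs := [.dia 2, .dia 2, .dia 2, .dia 2, .dia 2, .dia 2, .dia 2, .dia 2, .dia 5, .ne 0 5, .ne 0 5, .ne 0 5, .ne 0 5, .ne 0 5, .dia 5, .dia 5, .dia 5, .dia 5, .dia 5, .dia 5, .dia 5, .ne 1 5, .ne 1 5, .go 20 [3, 1, 7, 0, 4, 10, 11, 2, 8, 9, 5, 6, 12], .go 20 [3, 1, 7, 0, 4, 11, 10, 2, 8, 9, 5, 6, 12], .dia 5, .ne 1 5, .ne 3 5, .ne 3 5, .dia 5, .ne 3 5, .ne 3 5, .dia 5, .ne 1 5, .dia 5, .dia 5, .big, .big, .big, .big, .big, .big, .big, .big, .big, .big] },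
  { m := 13, L := [5124, 3080, 770, 138, 97, 25, 7], x := 2, cs := [.ne 0 2, .ne 0 2, .gt 0 7, .gt 1 4, .gt 1 4, .dia 2, .ne 1 2, .dia 2, .ne 0 2, .gt 0 7, .go 21 [0, 1, 2, 3, 4, 5, 6, 7, 8, 9, 10, 11, 12], .go 21 [0, 1, 2, 3, 4, 5, 6, 7, 9, 8, 10, 11, 12], .dia 2, .ne 1 2, .dia 2, .gt 0 7, .go 21 [0, 1, 2, 3, 4, 6, 5, 7, 8, 9, 10, 11, 12], .go 21 [0, 1, 2, 3, 4, 6, 5, 7, 9, 8, 10, 11, 12], .dia 2, .ne 1 2, .dia 2, .ne 0 2, .ne 0 2, .dia 2, .ne 0 2, .dia 2, .ne 0 2, .dia 2, .ne 0 2, .dia 2, .dia 2, .ne 0 2, .dia 2, .dia 2, .dia 2, .dia 2, .big, .big, .big, .big, .big, .big, .big, .big, .big, .big] },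
  { m := 12, L := [3104, 292, 3080, 770, 138, 97, 25, 7], x := 2, cs := [.ne 0 2, .ne 0 2, .dia 2, .ne 0 2, .dia 10, .dia 11, .ne 0 2, .dia 2, .ne 0 2, .dia 10, .dia 11, .dia 2, .ne 1 2, .dia 10, .dia 11, .dia 2, .dia 2, .dia 2, .dia 10, .dia 11, .dia 10, .ne 0 2, .ne 0 2, .ne 1 2, .dia 2, .ne 1 2, .dia 10, .dia 11, .big] },
  { m := 13, L := [5248, 1060, 3080, 770, 138, 97, 25, 7], x := 2, cs := [.dia 2, .ne 0 2, .ne 0 2, .ne 0 2, .ne 0 2, .ne 0 2, .ne 0 2, .dia 2, .dia 2, .dia 2, .dia 2, .dia 2, .dia 2, .ne 0 2, .ne 0 2, .ne 0 2, .ne 0 2, .ne 0 2, .ne 1 2, .ne 1 2, .ne 2 3, .dia 7, .ne 1 2, .ne 2 3, .go 22 [0, 1, 2, 3, 4, 5, 6, 7, 8, 9, 10, 11, 12], .ne 2 3, .go 22 [0, 1, 2, 3, 4, 5, 6, 7, 9, 8, 10, 11, 12], .ne 1 2, .big, .big, .big, .big, .big, .big, .big, .big, .big] },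
  { m := 13, L := [292, 5124, 3080, 770, 138, 97, 25, 7], x := 5, cs := [.dia 5, .ne 0 5, .dia 5, .ne 0 5, .ne 0 5, .ne 0 5, .ne 0 5, .dia 5, .dia 5, .dia 5, .dia 5, .dia 5, .dia 5, .dia 5, .ne 1 5, .ne 1 5, .ne 1 5, .ne 1 5, .dia 5, .dia 5, .dia 5, .dia 5, .ne 1 5, .ne 1 5, .ne 1 5, .dia 10, .dia 10, .ne 2 5, .big, .big, .big, .big, .big, .big, .big, .big, .big] },
  { m := 13, L := [4356, 5248, 1060, 3080, 770, 138, 97, 25, 7], x := 5, cs := [.dia 5, .ne 0 5, .ne 0 5, .ne 0 5, .ne 0 5, .ne 0 5, .dia 5, .dia 5, .dia 5, .dia 5, .dia 5, .ne 1 5, .ne 1 5, .ne 1 7, .dia 7, .dia 8, .ne 2 5, .dia 8, .go 23 [0, 1, 2, 3, 4, 5, 6, 7, 8, 9, 10, 11, 12], .ne 0 12, .ne 0 12, .big, .big, .big, .big, .big, .big, .big, .big] },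
  { m := 13, L := [2592, 4356, 5248, 1060, 3080, 770, 138, 97, 25, 7], x := 7, cs := [.ne 0 7, .gt 1 4, .gt 1 4, .ne 1 7, .dia 7, .ne 1 8, .go 24 [0, 1, 2, 3, 4, 5, 6, 7, 8, 9, 10, 11, 12], .ne 1 7, .dia 7, .dia 8, .ne 0 7, .dia 7, .dia 9, .dia 7, .dia 7, .big, .big, .big, .big, .big, .big, .big] },
  { m := 13, L := [704, 2592, 4356, 5248, 1060, 3080, 770, 138, 97, 25, 7], x := 6, cs := [.ne 0 8, .ne 0 11, .go 25 [0, 1, 2, 3, 4, 5, 6, 7, 8, 9, 10, 11, 12], .ne 0 6, .dia 8, .ne 0 6, .big, .big, .big, .big, .big] },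
  { m := 13, L := [4176, 704, 2592, 4356, 5248, 1060, 3080, 770, 138, 97, 25, 7], x := 4, cs := [.go 26 [0, 1, 2, 3, 4, 5, 6, 7, 8, 9, 10, 12, 11], .big, .big, .big] },
  { m := 13, L := [7, 25, 97, 138, 770, 1060, 2308, 5128, 2128, 4368, 4640, 704, 3200], x := 13, cs := [] }]

theorem tab19_ok : checkTable th19 tab19 = true := by decide +kernel

theorem good19.{u} : Good.{u} th19 :=
  good_of_table _ tab19 tab19_ok (by decide +kernel) (by decide +kernel)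

def th23 : Th := ⟨16, 6, 2, 15, true⟩

def tab23 : List Node := [
  { m := 3, L := [7], x := 0, cs := [.go 1 [0, 1, 2], .go 2 [0, 1, 2, 3], .go 2 [0, 2, 1, 3], .go 3 [0, 1, 2, 3, 4]] },
  { m := 3, L := [7, 7], x := 0, cs := [.dia 0, .dia 0, .dia 0, .dia 0] },
  { m := 4, L := [11, 7], x := 0, cs := [.dia 0, .dia 0, .dia 0, .dia 0, .dia 0, .dia 0, .dia 0] },
  { m := 5, L := [25, 7], x := 0, cs := [.dia 0, .dia 0, .dia 0, .dia 0, .dia 0, .dia 0, .dia 0, .dia 0, .dia 0, .dia 0, .go 4 [0, 1, 2, 3, 4, 5, 6]] },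
  { m := 7, L := [97, 25, 7], x := 1, cs := [.go 5 [0, 1, 2, 3, 4, 5, 6], .go 5 [0, 1, 2, 4, 3, 5, 6], .go 5 [0, 1, 2, 5, 6, 3, 4], .go 5 [0, 1, 2, 6, 5, 3, 4], .go 5 [0, 3, 4, 1, 2, 5, 6], .go 6 [0, 1, 2, 3, 4, 5, 6], .go 6 [0, 1, 2, 3, 4, 6, 5], .go 6 [0, 1, 2, 4, 3, 5, 6], .go 6 [0, 1, 2, 4, 3, 6, 5], .go 5 [0, 5, 6, 1, 2, 3, 4], .go 7 [0, 1, 2, 3, 4, 5, 6, 7], .go 8 [0, 1, 2, 3, 4, 5, 6, 7], .go 8 [0, 1, 2, 4, 3, 5, 6, 7], .go 8 [0, 1, 2, 5, 6, 3, 4, 7], .go 8 [0, 1, 2, 6, 5, 3, 4, 7], .go 9 [0, 1, 2, 3, 4, 5, 6, 7, 8]] },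
  { m := 7, L := [14, 97, 25, 7], x := 1, cs := [.dia 1, .dia 1, .dia 1, .dia 1, .dia 1, .dia 1, .dia 1, .dia 1, .dia 1, .dia 1, .dia 1, .dia 1, .dia 1, .dia 1, .dia 1, .dia 1] },
  { m := 7, L := [42, 97, 25, 7], x := 1, cs := [.dia 1, .dia 1, .dia 1, .dia 1, .dia 1, .dia 1, .dia 1, .dia 1, .ne 0 1, .dia 1, .dia 1, .dia 1, .ne 0 1, .dia 1, .ne 0 1, .ne 0 1] },
  { m := 8, L := [134, 97, 25, 7], x := 1, cs := [.dia 1, .dia 1, .dia 1, .dia 1, .dia 1, .dia 1, .dia 1, .dia 1, .dia 1, .dia 1, .dia 1, .dia 1, .dia 1, .dia 1, .dia 1, .dia 1, .dia 1, .dia 1, .dia 1, .dia 1, .dia 1, .dia 1] },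
  { m := 8, L := [138, 97, 25, 7], x := 1, cs := [.dia 1, .dia 1, .dia 1, .dia 1, .dia 1, .dia 1, .dia 1, .dia 1, .dia 1, .ne 0 1, .ne 0 1, .dia 1, .ne 0 1, .dia 1, .dia 1, .dia 1, .dia 1, .ne 0 1, .ne 0 1, .ne 0 1, .dia 1, .go 10 [0, 1, 2, 3, 4, 5, 6, 7, 8, 9]] },
  { m := 9, L := [386, 97, 25, 7], x := 1, cs := [.dia 1, .dia 1, .dia 1, .dia 1, .dia 1, .dia 1, .ne 0 1, .ne 0 1, .ne 0 1, .dia 1, .dia 1, .ne 0 1, .ne 0 1, .dia 1, .dia 1, .ne 0 1, .dia 1, .dia 1, .dia 1, .dia 1, .dia 1, .dia 1, .go 10 [0, 1, 2, 3, 4, 5, 6, 9, 7, 8], .go 10 [0, 1, 2, 4, 3, 5, 6, 9, 7, 8], .go 10 [0, 1, 2, 5, 6, 3, 4, 9, 7, 8], .go 10 [0, 1, 2, 6, 5, 3, 4, 9, 7, 8], .dia 1, .dia 1, .ne 0 1] },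
  { m := 10, L := [770, 138, 97, 25, 7], x := 3, cs := [.dia 3, .ne 0 3, .ne 0 3, .dia 3, .ne 0 3, .ne 0 3, .dia 3, .dia 3, .dia 3, .dia 3, .dia 3, .ne 0 3, .dia 3, .ne 0 3, .ne 0 3, .dia 3, .ne 0 3, .ne 0 3, .dia 3, .dia 3, .ne 1 3, .ne 0 3, .dia 3, .ne 0 3, .ne 0 3, .dia 3, .ne 1 3, .ne 1 3, .go 11 [0, 1, 2, 3, 4, 5, 6, 7, 8, 9, 10, 11]] },
  { m := 12, L := [3080, 770, 138, 97, 25, 7], x := 2, cs := [.gt 1 4, .gt 1 4, .gt 0 7, .gt 0 8, .gt 0 9, .gt 0 10, .gt 0 11, .go 12 [0, 1, 2, 3, 4, 5, 6, 7, 8, 9, 10, 11], .gt 0 7, .gt 0 8, .gt 0 9, .gt 0 10, .gt 0 11, .gt 0 7, .gt 0 8, .gt 0 9, .gt 0 10, .gt 0 11, .gt 0 7, .gt 0 7, .gt 0 7, .gt 0 7, .go 12 [1, 0, 2, 3, 7, 8, 9, 4, 5, 6, 10, 11], .gt 1 10, .gt 1 11, .gt 1 10, .gt 1 11, .gt 3 2, .gt 1 4, .go 13 [0, 1, 2, 3, 4, 5, 6, 7, 8, 9,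 10, 11, 12], .go 13 [0, 1, 2, 3, 4, 6, 5, 7, 8, 9, 10, 11, 12], .gt 0 7, .go 13 [1, 0, 2, 3, 7, 8, 9, 4, 5, 6, 10, 11, 12], .go 13 [1, 0, 2, 3, 7, 9, 8, 4, 5, 6, 10, 11, 12], .gt 3 2, .gt 3 2, .go 14 [0, 1, 2, 3, 4, 5, 6, 7, 8, 9, 10, 11, 12, 13]] },
  { m := 12, L := [100, 3080, 770, 138, 97, 25, 7], x := 2, cs := [.dia 2, .dia 2, .ne 0 2, .ne 0 2, .ne 0 2, .ne 0 2, .ne 0 2, .dia 2, .dia 2, .dia 2, .dia 2, .dia 2, .dia 2, .dia 2, .dia 2, .dia 2, .dia 2, .dia 2, .ne 0 2, .ne 0 2, .ne 0 2, .ne 0 2, .ne 0 2, .ne 0 2, .ne 0 2, .ne 0 2, .ne 0 2, .ne 0 2, .ne 0 2, .dia 2, .dia 2, .ne 0 2, .ne 0 2, .ne 0 2, .ne 0 2, .ne 0 2, .ne 0 2] },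
  { m := 13, L := [4132, 3080, 770, 138, 97, 25, 7], x := 2, cs := [.dia 2, .ne 0 2, .ne 0 2, .ne 0 2, .ne 0 2, .ne 0 2, .ne 0 2, .dia 2, .dia 2, .dia 2, .dia 2, .dia 2, .dia 2, .dia 2, .dia 2, .ne 0 2, .ne 0 2, .ne 0 2, .ne 0 2, .ne 0 2, .dia 2, .gt 0 7, .gt 0 7, .gt 0 7, .gt 0 7, .dia 2, .ne 1 2, .gt 1 10, .gt 1 11, .dia 2, .gt 1 10, .gt 1 11, .dia 2, .ne 1 2, .dia 2, .dia 2, .ne 0 2, .dia 2, .ne 0 2, .gt 0 7, .go 15 [0, 1, 2, 3, 4, 5, 6, 7, 8, 9, 10, 11, 12, 13], .go 15 [0, 1, 2, 3, 4, 5, 6, 7, 9, 8, 10, 11, 12, 13], .ne 1 2, .ne 1 2, .dia 2, .ne 1 2] },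
  { m := 14, L := [12292, 3080, 770, 138, 97, 25, 7], x := 2, cs := [.ne 0 2, .ne 0 2, .gt 0 7, .gt 0 8, .gt 0 9, .gt 0 10, .gt 0 11, .dia 2, .dia 2, .ne 0 2, .gt 0 7, .gt 0 8, .gt 0 9, .gt 0 10, .gt 0 11, .dia 2, .dia 2, .gt 0 7, .gt 0 8, .gt 0 9, .gt 0 10, .gt 0 11, .dia 2, .dia 2, .ne 0 2, .ne 0 2, .ne 0 2, .ne 0 2, .dia 2, .dia 2, .ne 0 2, .ne 0 2, .ne 0 2, .dia 2, .dia 2, .ne 0 2, .ne 0 2, .dia 2, .dia 2, .ne 0 2, .dia 2, .dia 2, .dia 2, .dia 2, .dia 2, .ne 1 2, .ne 1 2, .ne 1 2, .ne 0 2, .ne 0 2, .ne 0 2, .ne 0 2, .ne 0 2, .dia 2, .dia 2, .ne 0 2] },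
  { m := 14, L := [8452, 4132, 3080, 770, 138, 97, 25, 7], x := 5, cs := [.dia 5, .ne 0 5, .ne 0 5, .ne 0 5, .ne 0 5, .ne 0 5, .dia 5, .ne 0 5, .dia 5, .dia 5, .dia 5, .dia 5, .dia 5, .dia 5, .dia 5, .gt 0 7, .gt 0 7, .gt 0 7, .gt 0 7, .dia 5, .gt 0 7, .dia 8, .ne 0 8, .ne 0 8, .dia 5, .dia 8, .ne 1 5, .ne 1 5, .dia 5, .ne 1 5, .ne 3 5, .dia 5, .ne 2 5, .dia 5, .ne 2 5, .dia 5, .ne 0 5, .dia 5, .gt 0 7, .ne 0 8, .ne 1 5, .go 16 [0, 1, 2, 3, 4, 5, 6, 7, 8, 9, 10, 11, 12, 13, 14], .go 16 [0, 1, 2, 3, 4, 5, 6, 7, 8, 9, 11, 10, 12, 13, 14], .dia 5, .ne 2 5, .ne 3 5] },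
  { m := 15, L := [17440, 8452, 4132, 3080, 770, 138, 97, 25, 7], x := 8, cs := [.ne 0 8, .gt 0 7, .dia 8, .ne 0 8, .ne 0 8, .ne 0 8, .dia 8, .ne 0 8, .gt 0 7, .dia 8, .ne 0 8, .ne 0 8, .ne 0 8, .dia 8, .ne 0 8, .dia 8, .ne 1 8, .ne 1 8, .ne 1 8, .dia 8, .ne 1 8, .dia 8, .dia 8, .dia 8, .dia 8, .dia 8, .dia 10, .ne 2 8, .dia 8, .dia 10, .ne 2 8, .dia 8, .go 17 [0, 1, 2, 3, 4, 5, 6, 7, 8, 9, 10, 11, 12, 13, 14], .dia 8, .ne 2 8, .dia 8, .ne 0 8, .ne 0 8, .ne 1 8, .dia 8, .ne 3 10, .ne 5 8, .ne 2 8, .dia 8, .ne 3 8, .big] },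
  { m := 15, L := [18688, 17440, 8452, 4132, 3080, 770, 138, 97, 25, 7], x := 10, cs := [.ne 0 10, .gt 0 7, .ne 0 10, .dia 10, .ne 0 10, .ne 0 10, .dia 10, .gt 0 7, .ne 0 10, .dia 10, .ne 0 10, .ne 0 10, .dia 10, .ne 1 10, .dia 10, .go 18 [0, 1, 2, 3, 4, 5, 6, 7, 8, 9, 10, 11, 12, 13, 14], .gt 1 13, .dia 10, .dia 10, .gt 2 9, .gt 1 13, .dia 10, .dia 10, .dia 10, .dia 10, .ne 1 10, .dia 10, .dia 10, .ne 0 10, .ne 0 10, .ne 2 10, .ne 2 10, .dia 10, .ne 1 10, .ne 1 10, .dia 10, .big] },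
  { m := 15, L := [5248, 18688, 17440, 8452, 4132, 3080, 770, 138, 97, 25, 7], x := 7, cs := [.ne 0 7, .ne 0 7, .ne 0 7, .dia 7, .ne 0 7, .ne 0 7, .ne 0 7, .ne 0 7, .dia 7, .ne 0 7, .ne 0 7, .ne 0 11, .dia 7, .gt 1 13, .ne 0 14, .dia 7, .ne 0 11, .dia 11, .dia 7, .dia 7, .ne 0 14, .ne 0 7, .ne 0 7, .go 19 [0, 1, 2, 3, 4, 5, 6, 7, 8, 9, 10, 11, 12, 13, 14, 15], .ne 0 11, .dia 7, .ne 1 7, .ne 0 14, .big] },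
  { m := 16, L := [33408, 5248, 18688, 17440, 8452, 4132, 3080, 770, 138, 97, 25, 7], x := 9, cs := [.ne 0 9, .gt 1 4, .ne 0 12, .gt 1 4, .gt 1 4, .dia 9, .ne 1 11, .ne 0 12, .gt 1 13, .go 20 [0, 1, 2, 3, 4, 5, 6, 7, 8, 9, 10, 11, 12, 13, 14, 15], .dia 9, .ne 0 9, .ne 0 9, .dia 11, .dia 9, .ne 0 9, .ne 0 9, .dia 9, .ne 0 9, .dia 9, .dia 9, .big, .big, .big, .big, .big, .big, .big, .big] },
  { m := 16, L := [16960, 33408, 5248, 18688, 17440, 8452, 4132, 3080, 770, 138, 97, 25, 7], x := 6, cs := [.ne 0 11, .ne 0 12, .gt 0 13, .go 21 [0, 1, 2, 3, 4, 5, 6, 7, 8, 9, 10, 11, 12, 13, 14, 15], .ne 0 6, .ne 0 6, .ne 0 6, .ne 0 6, .ne 0 6, .ne 0 6, .big, .big, .big, .big, .big, .big] },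
  { m := 16, L := [32848, 16960, 33408, 5248, 18688, 17440, 8452, 4132, 3080, 770, 138, 97, 25, 7], x := 4, cs := [.ne 0 12, .go 22 [0, 1, 2, 3, 4, 5, 6, 7, 8, 9, 10, 11, 12, 13, 14, 15], .dia 4, .ne 0 12, .dia 4, .dia 4, .big, .big, .big, .big, .big] },
  { m := 16, L := [10256, 32848, 16960, 33408, 5248, 18688, 17440, 8452, 4132, 3080, 770, 138, 97, 25, 7], x := 12, cs := [.go 23 [0, 1, 2, 3, 4, 5, 6, 7, 8, 9, 12, 13, 11, 10, 15, 14], .big, .big, .big] },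
  { m := 16, L := [7, 25, 97, 138, 770, 1060, 2308, 12296, 16464, 6160, 40992, 33344, 17024, 9344, 37120, 19456], x := 16, cs := [] }]

theorem tab23_ok : checkTable th23 tab23 = true := by decide +kernel

theorem good23.{u} : Good.{u} th23 :=
  good_of_table _ tab23 tab23_ok (by decide +kernel) (by decide +kernel)

def th32 : Th := ⟨19, 8, 1, 15, true⟩

def tab32 : List Node := [
  { m := 3, L := [7], x := 0, cs := [.go 1 [0, 1, 2], .go 2 [0, 1, 2, 3], .go 2 [0, 2, 1, 3], .go 3 [0, 1, 2, 3, 4]] },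
  { m := 3, L := [7, 7], x := 0, cs := [.dia 0, .dia 0, .dia 0, .dia 0] },
  { m := 4, L := [11, 7], x := 0, cs := [.dia 0, .dia 0, .dia 0, .dia 0, .dia 0, .dia 0, .dia 0] },
  { m := 5, L := [25, 7], x := 0, cs := [.dia 0, .dia 0, .dia 0, .dia 0, .dia 0, .dia 0, .dia 0, .dia 0, .dia 0, .dia 0, .go 4 [0, 1, 2, 3, 4, 5, 6]] },
  { m := 7, L := [97, 25, 7], x := 1, cs := [.go 5 [0, 1, 2, 3, 4, 5, 6], .go 5 [0, 1, 2, 4, 3, 5, 6], .go 5 [0, 1, 2, 5, 6, 3, 4], .go 5 [0, 1, 2, 6, 5, 3, 4], .go 5 [0, 3, 4, 1, 2, 5, 6], .go 6 [0, 1, 2, 3, 4, 5, 6], .go 6 [0, 1, 2, 3, 4, 6, 5], .go 6 [0, 1, 2, 4, 3, 5, 6], .go 6 [0, 1, 2, 4, 3, 6, 5], .go 5 [0, 5, 6, 1, 2, 3, 4], .gt 0 7, .gt 0 7, .gt 0 7, .gt 0 7, .gt 0 7, .go 7 [0, 1, 2, 3, 4, 5, 6, 7, 8]] },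
  { m := 7, L := [14, 97, 25, 7], x := 1, cs := [.dia 1, .dia 1, .dia 1, .dia 1, .dia 1, .dia 1, .dia 1, .dia 1, .dia 1, .dia 1, .dia 1, .dia 1, .dia 1, .dia 1, .dia 1, .dia 1] },
  { m := 7, L := [42, 97, 25, 7], x := 1, cs := [.dia 1, .dia 1, .dia 1, .dia 1, .dia 1, .dia 1, .dia 1, .dia 1, .ne 0 1, .dia 1, .dia 1, .dia 1, .ne 0 1, .dia 1, .ne 0 1, .gt 1 4] },
  { m := 9, L := [386, 97, 25, 7], x := 1, cs := [.dia 1, .dia 1, .dia 1, .dia 1, .dia 1, .dia 1, .go 8 [0, 1, 2, 3, 4, 5, 6, 7, 8], .gt 1 4, .gt 1 4, .dia 1, .dia 1, .gt 1 3, .gt 1 3, .dia 1, .dia 1, .go 8 [0, 1, 2, 5, 6, 3, 4, 7, 8], .dia 1, .dia 1, .dia 1, .dia 1, .dia 1, .dia 1, .ne 0 1, .ne 0 1, .ne 0 1, .ne 0 1, .dia 1, .dia 1, .ne 0 1] },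
  { m := 9, L := [26, 386, 97, 25, 7], x := 3, cs := [.dia 3, .dia 3, .dia 3, .dia 3, .dia 3, .dia 3, .dia 3, .dia 3, .dia 3, .dia 3, .dia 3, .dia 3, .dia 3, .dia 3, .dia 3, .dia 3, .dia 3, .dia 3, .dia 3, .dia 3, .dia 3, .dia 3] }]

theorem tab32_ok : checkTable th32 tab32 = true := by decide +kernel

theorem good32.{u} : Good.{u} th32 :=
  good_of_table _ tab32 tab32_ok (by decide +kernel) (by decide +kernel)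

def th45 : Th := ⟨9, 4, 5, 17, true⟩

def tab45 : List Node := [
  { m := 3, L := [7], x := 0, cs := [.go 1 [0, 1, 2], .go 2 [0, 1, 2, 3], .go 2 [0, 2, 1, 3], .go 3 [0, 1, 2, 3, 4]] },
  { m := 3, L := [7, 7], x := 0, cs := [.dia 0, .dia 0, .dia 0, .dia 0] },
  { m := 4, L := [11, 7], x := 0, cs := [.dia 0, .dia 0, .dia 0, .dia 0, .dia 0, .dia 0, .go 4 [0, 1, 2, 3, 4, 5]] },
  { m := 5, L := [25, 7], x := 0, cs := [.dia 0, .dia 0, .dia 0, .dia 0, .dia 0, .dia 0, .go 4 [0, 1, 2, 5, 3, 4], .go 4 [0, 2, 1, 5, 3, 4], .go 4 [0, 3, 4, 5, 1, 2], .go 4 [0, 4, 3, 5, 1, 2], .dia 0] },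
  { m := 6, L := [49, 11, 7], x := 1, cs := [.dia 1, .dia 1, .dia 1, .dia 1, .dia 1, .ne 0 1, .dia 1, .dia 1, .ne 0 1, .ne 0 1, .ne 0 1] }]

theorem tab45_ok : checkTable th45 tab45 = true := by decide +kernel

theorem good45.{u} : Good.{u} th45 :=
  good_of_table _ tab45 tab45_ok (by decide +kernel) (by decide +kernel)

end R29.CB
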