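import Pool.Agent.R29.CB.Run
set_option linter.all false

/-! Certificate tables (generated). -/

namespace R29.CB

def th5 : Th := ⟨0, 0, 0, 23, false⟩

def tab5 : List Node := [
  { m := 3, L := [7], x := 0, cs := [.go 1 [0, 1, 2], .go 2 [0, 1, 2, 3], .go 2 [0, 2, 1, 3], .go 3 [0, 1, 2, 3, 4]] },
  { m := 3, L := [7, 7], x := 0, cs := [.dia 0, .go 4 [0, 1, 2, 3], .go 4 [0, 2, 1, 3], .dia 0] },
  { m := 4, L := [11, 7], x := 0, cs := [.go 4 [0, 1, 2, 3], .go 4 [0, 1, 3, 2], .dia 0, .dia 0, .dia 0, .dia 0, .dia 0] },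
  { m := 5, L := [25, 7], x := 0, cs := [.dia 0, .dia 0, .dia 0, .dia 0, .dia 0, .dia 0, .dia 0, .dia 0, .dia 0, .dia 0, .dia 0] },
  { m := 4, L := [11, 7, 7], x := 2, cs := [.dia 2, .dia 2] }]

theorem tab5_ok : checkTable th5 tab5 = true := by decide +kernel

theorem good5.{u} : Good.{u} th5 :=
  good_of_table _ tab5 tab5_ok (by decide +kernel) (by decide +kernel)

def th12 : Th := ⟨9, 3, 6, 15, true⟩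

def tab12 : List Node := [
  { m := 3, L := [7], x := 0, cs := [.go 1 [0, 1, 2], .go 2 [0, 1, 2, 3], .go 2 [0, 2, 1, 3], .go 3 [0, 1, 2, 3, 4]] },
  { m := 3, L := [7, 7], x := 0, cs := [.dia 0, .dia 0, .dia 0, .dia 0] },
  { m := 4, L := [11, 7], x := 0, cs := [.dia 0, .dia 0, .dia 0, .dia 0, .dia 0, .dia 0, .dia 0] },
  { m := 5, L := [25, 7], x := 0, cs := [.dia 0, .dia 0, .dia 0, .dia 0, .dia 0, .dia 0, .dia 0, .dia 0, .dia 0, .dia 0, .go 4 [0, 1, 2, 3, 4, 5, 6]] },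
  { m := 7, L := [97, 25, 7], x := 1, cs := [.go 5 [0, 1, 2, 3, 4, 5, 6], .go 5 [0, 1, 2, 4, 3, 5, 6], .go 5 [0, 1, 2, 5, 6, 3, 4], .go 5 [0, 1, 2, 6, 5, 3, 4], .go 5 [0, 3, 4, 1, 2, 5, 6], .go 6 [0, 1, 2, 3, 4, 5, 6], .go 6 [0, 1, 2, 3, 4, 6, 5], .go 6 [0, 1, 2, 4, 3, 5, 6], .go 6 [0, 1, 2, 4, 3, 6, 5], .go 5 [0, 5, 6, 1, 2, 3, 4], .go 7 [0, 1, 2, 3, 4, 5, 6, 7], .go 8 [0, 1, 2, 3, 4, 5, 6, 7], .go 8 [0, 1, 2, 4, 3, 5, 6, 7], .go 8 [0, 1, 2, 5, 6, 3, 4, 7], .go 8 [0, 1, 2, 6, 5, 3, 4, 7], .go 9 [0, 1, 2, 3, 4, 5, 6, 7, 8]] },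
  { m := 7, L := [14, 97, 25, 7], x := 1, cs := [.dia 1, .dia 1, .dia 1, .dia 1, .dia 1, .dia 1, .dia 1, .dia 1, .dia 1, .dia 1, .dia 1, .dia 1, .dia 1, .dia 1, .dia 1, .dia 1] },
  { m := 7, L := [42, 97, 25, 7], x := 1, cs := [.dia 1, .dia 1, .dia 1, .dia 1, .dia 1, .dia 1, .dia 1, .dia 1, .ne 0 1, .dia 1, .dia 1, .dia 1, .ne 0 1, .dia 1, .ne 0 1, .go 10 [0, 1, 2, 3, 4, 5, 6, 7, 8]] },
  { m := 8, L := [134, 97, 25, 7], x := 1, cs := [.dia 1, .dia 1, .dia 1, .dia 1, .dia 1, .dia 1, .dia 1, .dia 1, .dia 1, .dia 1, .dia 1, .dia 1, .dia 1, .dia 1, .dia 1, .dia 1, .dia 1, .dia 1, .dia 1, .dia 1, .dia 1, .big] },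
  { m := 8, L := [138, 97, 25, 7], x := 1, cs := [.dia 1, .dia 1, .dia 1, .dia 1, .dia 1, .dia 1, .dia 1, .dia 1, .dia 1, .ne 0 1, .ne 0 1, .dia 1, .ne 0 1, .dia 1, .dia 1, .dia 1, .dia 1, .go 10 [1, 0, 2, 3, 7, 4, 8, 5, 6], .go 11 [0, 1, 2, 3, 4, 5, 6, 7, 8], .go 11 [0, 1, 2, 3, 4, 6, 5, 7, 8], .dia 1, .big] },
  { m := 9, L := [386, 97, 25, 7], x := 1, cs := [.dia 1, .dia 1, .dia 1, .dia 1, .dia 1, .dia 1, .go 12 [0, 1, 2, 3, 4, 5, 6, 7, 8], .go 10 [0, 1, 2, 3, 4, 5, 6, 7, 8], .go 10 [0, 1, 2, 3, 4, 6, 5, 7, 8], .dia 1, .dia 1, .go 10 [0, 1, 2, 4, 3, 5, 6, 7, 8], .go 10 [0, 1, 2, 4, 3, 6, 5, 7, 8], .dia 1, .dia 1, .go 12 [0, 1, 2, 5, 6, 3, 4, 7, 8], .dia 1, .dia 1, .dia 1, .dia 1, .dia 1, .big, .big, .big, .big, .big, .big, .big, .big] },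
  { m := 9, L := [386, 42, 97, 25, 7], x := 3, cs := [.dia 3, .dia 3, .ne 0 3, .ne 0 3, .ne 0 3, .dia 3, .dia 3, .dia 3, .dia 3, .dia 3, .dia 3, .dia 3, .ne 0 3, .ne 0 3, .ne 1 3, .big, .big, .big, .big, .big, .big, .big] },
  { m := 9, L := [290, 138, 97, 25, 7], x := 3, cs := [.dia 3, .ne 0 3, .ne 0 3, .dia 3, .ne 1 3, .dia 3, .dia 3, .dia 3, .dia 3, .dia 5, .dia 3, .dia 5, .dia 3, .go 13 [0, 1, 2, 3, 4, 5, 6, 7, 8], .dia 3, .big, .big, .big, .big, .big, .big, .big] },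
  { m := 9, L := [26, 386, 97, 25, 7], x := 3, cs := [.dia 3, .dia 3, .dia 3, .dia 3, .dia 3, .dia 3, .dia 3, .dia 3, .dia 3, .dia 3, .dia 3, .dia 3, .dia 3, .dia 3, .dia 3, .big, .big, .big, .big, .big, .big, .big] },
  { m := 9, L := [328, 290, 138, 97, 25, 7], x := 5, cs := [.ne 0 5, .dia 5, .ne 1 5, .dia 5, .dia 5, .go 14 [0, 1, 2, 3, 4, 5, 6, 7, 8], .dia 5, .dia 5, .dia 5, .dia 5, .big, .big, .big, .big, .big, .big] },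
  { m := 9, L := [176, 328, 290, 138, 97, 25, 7], x := 4, cs := [.ne 0 4, .dia 4, .go 15 [0, 1, 2, 3, 4, 5, 6, 7, 8], .dia 4, .dia 6, .dia 4, .big, .big, .big, .big, .big] },
  { m := 9, L := [276, 176, 328, 290, 138, 97, 25, 7], x := 2, cs := [.go 16 [0, 1, 2, 3, 4, 5, 6, 7, 8], .big, .big, .big] },
  { m := 9, L := [7, 25, 97, 138, 290, 276, 196, 328, 176], x := 9, cs := [] }]

theorem tab12_ok : checkTable th12 tab12 = true := by decide +kernel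

theorem good12.{u} : Good.{u} th12 :=
  good_of_table _ tab12 tab12_ok (by decide +kernel) (by decide +kernel)

def th24 : Th := ⟨11, 6, 3, 15, true⟩

def tab24 : List Node := [
  { m := 3, L := [7], x := 0, cs := [.go 1 [0, 1, 2], .go 2 [0, 1, 2, 3], .go 2 [0, 2, 1, 3], .go 3 [0, 1, 2, 3, 4]] },
  { m := 3, L := [7, 7], x := 0, cs := [.dia 0, .dia 0, .dia 0, .dia 0] },
  { m := 4, L := [11, 7], x := 0, cs := [.dia 0, .dia 0, .dia 0, .dia 0, .dia 0, .dia 0, .dia 0] },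
  { m := 5, L := [25, 7], x := 0, cs := [.dia 0, .dia 0, .dia 0, .dia 0, .dia 0, .dia 0, .dia 0, .dia 0, .dia 0, .dia 0, .go 4 [0, 1, 2, 3, 4, 5, 6]] },
  { m := 7, L := [97, 25, 7], x := 1, cs := [.go 5 [0, 1, 2, 3, 4, 5, 6], .go 5 [0, 1, 2, 4, 3, 5, 6], .go 5 [0, 1, 2, 5, 6, 3, 4], .go 5 [0, 1, 2, 6, 5, 3, 4], .go 5 [0, 3, 4, 1, 2, 5, 6], .go 6 [0, 1, 2, 3, 4, 5, 6], .go 6 [0, 1, 2, 3, 4, 6, 5], .go 6 [0, 1, 2, 4, 3, 5, 6], .go 6 [0, 1, 2, 4, 3, 6, 5], .go 5 [0, 5, 6, 1, 2, 3, 4], .go 7 [0, 1, 2, 3, 4, 5, 6, 7], .go 8 [0, 1, 2, 3, 4, 5, 6, 7], .go 8 [0, 1, 2, 4, 3, 5, 6, 7], .go 8 [0, 1, 2, 5, 6, 3, 4, 7], .go 8 [0, 1, 2, 6, 5, 3, 4, 7], .go 9 [0, 1, 2, 3, 4, 5, 6, 7, 8]] },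
  { m := 7, L := [14, 97, 25, 7], x := 1, cs := [.dia 1, .dia 1, .dia 1, .dia 1, .dia 1, .dia 1, .dia 1, .dia 1, .dia 1, .dia 1, .dia 1, .dia 1, .dia 1, .dia 1, .dia 1, .dia 1] },
  { m := 7, L := [42, 97, 25, 7], x := 1, cs := [.dia 1, .dia 1, .dia 1, .dia 1, .dia 1, .dia 1, .dia 1, .dia 1, .ne 0 1, .dia 1, .dia 1, .dia 1, .ne 0 1, .dia 1, .ne 0 1, .go 10 [0, 1, 2, 3, 4, 5, 6, 7, 8]] },
  { m := 8, L := [134, 97, 25, 7], x := 1, cs := [.dia 1, .dia 1, .dia 1, .dia 1, .dia 1, .dia 1, .dia 1, .dia 1, .dia 1, .dia 1, .dia 1, .dia 1, .dia 1, .dia 1, .dia 1, .dia 1, .dia 1, .dia 1, .dia 1, .dia 1, .dia 1, .dia 1] },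
  { m := 8, L := [138, 97, 25, 7], x := 1, cs := [.dia 1, .dia 1, .dia 1, .dia 1, .dia 1, .dia 1, .dia 1, .dia 1, .dia 1, .ne 0 1, .ne 0 1, .dia 1, .ne 0 1, .dia 1, .dia 1, .dia 1, .dia 1, .go 10 [1, 0, 2, 3, 7, 4, 8, 5, 6], .go 11 [0, 1, 2, 3, 4, 5, 6, 7, 8], .go 11 [0, 1, 2, 3, 4, 6, 5, 7, 8], .dia 1, .ne 0 1] },
  { m := 9, L := [386, 97, 25, 7], x := 1, cs := [.dia 1, .dia 1, .dia 1, .dia 1, .dia 1, .dia 1, .go 12 [0, 1, 2, 3, 4, 5, 6, 7, 8], .go 10 [0, 1, 2, 3, 4, 5, 6, 7, 8], .go 10 [0, 1, 2, 3, 4, 6, 5, 7, 8], .dia 1, .dia 1, .go 10 [0, 1, 2, 4, 3, 5, 6, 7, 8], .go 10 [0, 1, 2, 4, 3, 6, 5, 7, 8], .dia 1, .dia 1, .go 12 [0, 1, 2, 5, 6, 3, 4, 7, 8], .dia 1, .dia 1, .dia 1, .dia 1, .dia 1, .dia 1, .ne 0 1, .ne 0 1, .ne 0 1, .ne 0 1, .dia 1, .dia 1, .ne 0 1] },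
  { m := 9, L := [386, 42, 97, 25, 7], x := 3, cs := [.dia 3, .dia 3, .ne 0 3, .ne 0 3, .ne 0 3, .dia 3, .dia 3, .dia 3, .dia 3, .dia 3, .dia 3, .dia 3, .ne 0 3, .ne 0 3, .ne 1 3, .ne 0 3, .dia 3, .dia 3, .ne 0 3, .go 13 [0, 1, 2, 3, 4, 5, 6, 7, 8, 9], .go 13 [0, 1, 2, 3, 4, 5, 6, 8, 7, 9], .ne 1 3] },
  { m := 9, L := [290, 138, 97, 25, 7], x := 3, cs := [.dia 3, .ne 0 3, .ne 0 3, .dia 3, .gt 0 8, .dia 3, .dia 3, .dia 3, .dia 3, .dia 5, .dia 3, .dia 5, .dia 3, .gt 0 8, .dia 3, .go 13 [3, 0, 4, 1, 7, 2, 9, 5, 6, 8], .dia 3, .go 14 [0, 1, 2, 3, 4, 5, 6, 7, 8, 9], .ne 1 3, .dia 3, .ne 0 3, .ne 0 3] },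
  { m := 9, L := [26, 386, 97, 25, 7], x := 3, cs := [.dia 3, .dia 3, .dia 3, .dia 3, .dia 3, .dia 3, .dia 3, .dia 3, .dia 3, .dia 3, .dia 3, .dia 3, .dia 3, .dia 3, .dia 3, .dia 3, .dia 3, .dia 3, .dia 3, .dia 3, .dia 3, .dia 3] },
  { m := 10, L := [648, 386, 42, 97, 25, 7], x := 5, cs := [.ne 0 5, .dia 5, .ne 0 5, .ne 0 5, .ne 0 5, .dia 5, .ne 0 5, .ne 0 5, .ne 0 5, .dia 5, .dia 5, .dia 5, .dia 7, .dia 7, .gt 1 9, .ne 0 5, .ne 0 5, .dia 5, .go 15 [0, 1, 2, 3, 4, 5, 6, 7, 8, 9, 10], .ne 3 5, .ne 1 5, .big] },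
  { m := 10, L := [552, 290, 138, 97, 25, 7], x := 2, cs := [.go 16 [0, 1, 2, 3, 4, 5, 6, 7, 8, 9], .gt 0 7, .gt 0 8, .gt 0 9, .gt 0 7, .gt 0 8, .gt 0 9, .go 16 [1, 0, 2, 3, 7, 5, 8, 4, 6, 9], .gt 1 9, .gt 1 9, .go 17 [0, 1, 2, 3, 4, 5, 6, 7, 8, 9, 10], .go 17 [0, 1, 2, 5, 6, 3, 4, 8, 7, 9, 10], .go 17 [1, 0, 2, 3, 7, 5, 8, 4, 6, 9, 10], .go 17 [1, 0, 2, 5, 8, 3, 7, 6, 4, 9, 10], .go 18 [0, 1, 2, 3, 4, 5, 6, 7, 8, 9, 10], .big] },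
  { m := 11, L := [1184, 648, 386, 42, 97, 25, 7], x := 2, cs := [.go 19 [0, 1, 2, 3, 4, 5, 6, 7, 8, 9, 10], .gt 1 4, .gt 3 2, .go 20 [0, 1, 2, 3, 4, 5, 6, 7, 8, 9, 10], .gt 1 6, .go 20 [0, 1, 2, 5, 6, 3, 4, 7, 8, 10, 9], .gt 5 2, .gt 1 9, .gt 1 10, .go 20 [7, 3, 9, 5, 10, 1, 8, 0, 4, 6, 2], .big, .big, .big, .big, .big, .big] },
  { m := 10, L := [84, 552, 290, 138, 97, 25, 7], x := 2, cs := [.dia 2, .dia 2, .dia 2, .dia 2, .dia 2, .dia 2, .dia 2, .ne 2 3, .ne 1 2, .ne 1 2, .dia 2, .dia 2, .ne 1 2, .ne 1 2, .ne 1 2, .big] },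
  { m := 11, L := [1044, 552, 290, 138, 97, 25, 7], x := 2, cs := [.dia 2, .dia 2, .dia 2, .dia 2, .dia 2, .gt 0 7, .gt 0 8, .gt 0 9, .dia 2, .ne 0 2, .ne 0 2, .dia 2, .ne 0 2, .dia 2, .dia 2, .big, .big, .big, .big, .big, .big, .big] },
  { m := 11, L := [1540, 552, 290, 138, 97, 25, 7], x := 2, cs := [.ne 1 2, .ne 0 2, .ne 0 2, .dia 2, .dia 2, .ne 0 2, .ne 0 2, .dia 2, .dia 2, .ne 0 2, .dia 2, .dia 2, .dia 2, .dia 2, .dia 2, .big, .big, .big, .big, .big, .big, .big] },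
  { m := 11, L := [84, 1184, 648, 386, 42, 97, 25, 7], x := 2, cs := [.dia 2, .dia 2, .dia 2, .dia 2, .dia 2, .dia 2, .dia 2, .ne 1 2, .ne 1 2, .ne 1 2, .big, .big, .big, .big, .big, .big] },
  { m := 11, L := [1044, 1184, 648, 386, 42, 97, 25, 7], x := 2, cs := [.dia 2, .dia 2, .dia 2, .dia 2, .ne 1 2, .ne 1 2, .dia 2, .ne 0 2, .dia 2, .dia 2, .big, .big, .big, .big, .big, .big] }]

theorem tab24_ok : checkTable th24 tab24 = true := by decide +kernel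

theorem good24.{u} : Good.{u} th24 :=
  good_of_table _ tab24 tab24_ok (by decide +kernel) (by decide +kernel)

def th28 : Th := ⟨13, 7, 2, 15, true⟩

def tab28 : List Node := [
  { m := 3, L := [7], x := 0, cs := [.go 1 [0, 1, 2], .go 2 [0, 1, 2, 3], .go 2 [0, 2, 1, 3], .go 3 [0, 1, 2, 3, 4]] },
  { m := 3, L := [7, 7], x := 0, cs := [.dia 0, .dia 0, .dia 0, .dia 0] },
  { m := 4, L := [11, 7], x := 0, cs := [.dia 0, .dia 0, .dia 0, .dia 0, .dia 0, .dia 0, .dia 0] },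
  { m := 5, L := [25, 7], x := 0, cs := [.dia 0, .dia 0, .dia 0, .dia 0, .dia 0, .dia 0, .dia 0, .dia 0, .dia 0, .dia 0, .go 4 [0, 1, 2, 3, 4, 5, 6]] },
  { m := 7, L := [97, 25, 7], x := 1, cs := [.go 5 [0, 1, 2, 3, 4, 5, 6], .go 5 [0, 1, 2, 4, 3, 5, 6], .go 5 [0, 1, 2, 5, 6, 3, 4], .go 5 [0, 1, 2, 6, 5, 3, 4], .go 5 [0, 3, 4, 1, 2, 5, 6], .go 6 [0, 1, 2, 3, 4, 5, 6], .go 6 [0, 1, 2, 3, 4, 6, 5], .go 6 [0, 1, 2, 4, 3, 5, 6], .go 6 [0, 1, 2, 4, 3, 6, 5], .go 5 [0, 5, 6, 1, 2, 3, 4], .go 7 [0, 1, 2, 3, 4, 5, 6, 7], .go 8 [0, 1, 2, 3, 4, 5, 6, 7], .go 8 [0, 1, 2, 4, 3, 5, 6, 7], .go 8 [0, 1, 2, 5, 6, 3, 4, 7], .go 8 [0, 1, 2, 6, 5, 3, 4, 7], .go 9 [0, 1, 2, 3, 4, 5, 6, 7, 8]] },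
  { m := 7, L := [14, 97, 25, 7], x := 1, cs := [.dia 1, .dia 1, .dia 1, .dia 1, .dia 1, .dia 1, .dia 1, .dia 1, .dia 1, .dia 1, .dia 1, .dia 1, .dia 1, .dia 1, .dia 1, .dia 1] },
  { m := 7, L := [42, 97, 25, 7], x := 1, cs := [.dia 1, .dia 1, .dia 1, .dia 1, .dia 1, .dia 1, .dia 1, .dia 1, .ne 0 1, .dia 1, .dia 1, .dia 1, .ne 0 1, .dia 1, .ne 0 1, .go 10 [0, 1, 2, 3, 4, 5, 6, 7, 8]] },
  { m := 8, L := [134, 97, 25, 7], x := 1, cs := [.dia 1, .dia 1, .dia 1, .dia 1, .dia 1, .dia 1, .dia 1, .dia 1, .dia 1, .dia 1, .dia 1, .dia 1, .dia 1, .dia 1, .dia 1, .dia 1, .dia 1, .dia 1, .dia 1, .dia 1, .dia 1, .dia 1] },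
  { m := 8, L := [138, 97, 25, 7], x := 1, cs := [.dia 1, .dia 1, .dia 1, .dia 1, .dia 1, .dia 1, .dia 1, .dia 1, .dia 1, .ne 0 1, .ne 0 1, .dia 1, .ne 0 1, .dia 1, .dia 1, .dia 1, .dia 1, .go 10 [1, 0, 2, 3, 7, 4, 8, 5, 6], .go 11 [0, 1, 2, 3, 4, 5, 6, 7, 8], .go 11 [0, 1, 2, 3, 4, 6, 5, 7, 8], .dia 1, .ne 0 1] },
  { m := 9, L := [386, 97, 25, 7], x := 1, cs := [.dia 1, .dia 1, .dia 1, .dia 1, .dia 1, .dia 1, .go 12 [0, 1, 2, 3, 4, 5, 6, 7, 8], .go 10 [0, 1, 2, 3, 4, 5, 6, 7, 8], .go 10 [0, 1, 2, 3, 4, 6, 5, 7, 8], .dia 1, .dia 1, .go 10 [0, 1, 2, 4, 3, 5, 6, 7, 8], .go 10 [0, 1, 2, 4, 3, 6, 5, 7, 8], .dia 1, .dia 1, .go 12 [0, 1, 2, 5, 6, 3, 4, 7, 8], .dia 1, .dia 1, .dia 1, .dia 1, .dia 1, .dia 1, .ne 0 1, .ne 0 1, .ne 0 1, .ne 0 1, .dia 1, .dia 1, .ne 0 1] },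
  { m := 9, L := [386, 42, 97, 25, 7], x := 3, cs := [.dia 3, .dia 3, .ne 0 3, .ne 0 3, .ne 0 3, .dia 3, .dia 3, .dia 3, .dia 3, .dia 3, .dia 3, .dia 3, .ne 0 3, .ne 0 3, .ne 1 3, .ne 0 3, .dia 3, .dia 3, .ne 0 3, .go 13 [0, 1, 2, 3, 4, 5, 6, 7, 8, 9], .go 13 [0, 1, 2, 3, 4, 5, 6, 8, 7, 9], .ne 1 3] },
  { m := 9, L := [290, 138, 97, 25, 7], x := 3, cs := [.dia 3, .ne 0 3, .ne 0 3, .dia 3, .gt 0 8, .dia 3, .dia 3, .dia 3, .dia 3, .dia 5, .dia 3, .dia 5, .dia 3, .gt 0 8, .dia 3, .go 13 [3, 0, 4, 1, 7, 2, 9, 5, 6, 8], .dia 3, .go 14 [0, 1, 2, 3, 4, 5, 6, 7, 8, 9], .ne 1 3, .dia 3, .ne 0 3, .ne 0 3] },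
  { m := 9, L := [26, 386, 97, 25, 7], x := 3, cs := [.dia 3, .dia 3, .dia 3, .dia 3, .dia 3, .dia 3, .dia 3, .dia 3, .dia 3, .dia 3, .dia 3, .dia 3, .dia 3, .dia 3, .dia 3, .dia 3, .dia 3, .dia 3, .dia 3, .dia 3, .dia 3, .dia 3] },
  { m := 10, L := [648, 386, 42, 97, 25, 7], x := 5, cs := [.ne 0 5, .dia 5, .ne 0 5, .ne 0 5, .ne 0 5, .dia 5, .ne 0 5, .ne 0 5, .ne 0 5, .dia 5, .dia 5, .dia 5, .dia 7, .dia 7, .gt 1 9, .ne 0 5, .ne 0 5, .dia 5, .ne 0 7, .ne 3 5, .ne 1 5, .ne 1 5] },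
  { m := 10, L := [552, 290, 138, 97, 25, 7], x := 2, cs := [.gt 1 4, .gt 0 7, .gt 0 8, .gt 0 9, .gt 0 7, .gt 0 8, .gt 0 9, .gt 0 7, .gt 0 7, .gt 0 8, .gt 1 4, .gt 1 6, .gt 0 7, .gt 0 8, .gt 0 9, .go 15 [0, 1, 2, 3, 4, 5, 6, 7, 8, 9, 10, 11]] },
  { m := 12, L := [3076, 552, 290, 138, 97, 25, 7], x := 2, cs := [.ne 1 2, .ne 0 2, .ne 0 2, .ne 0 2, .dia 2, .dia 2, .ne 0 2, .ne 0 2, .ne 0 2, .dia 2, .dia 2, .ne 0 2, .ne 0 2, .dia 2, .dia 2, .ne 0 2, .dia 2, .dia 2, .dia 2, .dia 2, .dia 2, .ne 0 2, .ne 0 2, .ne 0 2, .ne 0 2, .ne 0 2, .dia 2, .dia 2, .big] }]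

theorem tab28_ok : checkTable th28 tab28 = true := by decide +kernel

theorem good28.{u} : Good.{u} th28 :=
  good_of_table _ tab28 tab28_ok (by decide +kernel) (by decide +kernel)

def th29 : Th := ⟨9, 7, 3, 15, true⟩

def tab29 : List Node := [
  { m := 3, L := [7], x := 0, cs := [.go 1 [0, 1, 2], .go 2 [0, 1, 2, 3], .go 2 [0, 2, 1, 3], .go 3 [0, 1, 2, 3, 4]] },
  { m := 3, L := [7, 7], x := 0, cs := [.dia 0, .dia 0, .dia 0, .dia 0] },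
  { m := 4, L := [11, 7], x := 0, cs := [.dia 0, .dia 0, .dia 0, .dia 0, .dia 0, .dia 0, .dia 0] },
  { m := 5, L := [25, 7], x := 0, cs := [.dia 0, .dia 0, .dia 0, .dia 0, .dia 0, .dia 0, .dia 0, .dia 0, .dia 0, .dia 0, .go 4 [0, 1, 2, 3, 4, 5, 6]] },
  { m := 7, L := [97, 25, 7], x := 1, cs := [.go 5 [0, 1, 2, 3, 4, 5, 6], .go 5 [0, 1, 2, 4, 3, 5, 6], .go 5 [0, 1, 2, 5, 6, 3, 4], .go 5 [0, 1, 2, 6, 5, 3, 4], .go 5 [0, 3, 4, 1, 2, 5, 6], .go 6 [0, 1, 2, 3, 4, 5, 6], .go 6 [0, 1, 2, 3, 4, 6, 5], .go 6 [0, 1, 2, 4, 3, 5, 6], .go 6 [0, 1, 2, 4, 3, 6, 5], .go 5 [0, 5, 6, 1, 2, 3, 4], .go 7 [0, 1, 2, 3, 4, 5, 6, 7], .go 8 [0, 1, 2, 3, 4, 5, 6, 7], .go 8 [0, 1, 2, 4, 3, 5, 6, 7], .go 8 [0, 1, 2, 5, 6, 3, 4, 7], .go 8 [0, 1, 2, 6, 5, 3, 4, 7], .go 9 [0, 1, 2, 3, 4, 5, 6, 7, 8]] },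
  { m := 7, L := [14, 97, 25, 7], x := 1, cs := [.dia 1, .dia 1, .dia 1, .dia 1, .dia 1, .dia 1, .dia 1, .dia 1, .dia 1, .dia 1, .dia 1, .dia 1, .dia 1, .dia 1, .dia 1, .dia 1] },
  { m := 7, L := [42, 97, 25, 7], x := 1, cs := [.dia 1, .dia 1, .dia 1, .dia 1, .dia 1, .dia 1, .dia 1, .dia 1, .ne 0 1, .dia 1, .dia 1, .dia 1, .go 10 [0, 1, 2, 3, 4, 5, 6, 7], .dia 1, .go 10 [0, 1, 2, 5, 6, 3, 4, 7], .ne 0 1] },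
  { m := 8, L := [134, 97, 25, 7], x := 1, cs := [.dia 1, .dia 1, .dia 1, .dia 1, .dia 1, .dia 1, .dia 1, .dia 1, .dia 1, .dia 1, .dia 1, .dia 1, .dia 1, .dia 1, .dia 1, .dia 1, .dia 1, .dia 1, .dia 1, .dia 1, .dia 1, .big] },
  { m := 8, L := [138, 97, 25, 7], x := 1, cs := [.dia 1, .dia 1, .dia 1, .dia 1, .dia 1, .dia 1, .dia 1, .dia 1, .dia 1, .go 10 [0, 1, 2, 4, 3, 5, 6, 7], .go 10 [0, 1, 2, 4, 3, 6, 5, 7], .dia 1, .go 11 [0, 1, 2, 3, 4, 5, 6, 7], .dia 1, .dia 1, .dia 1, .dia 1, .ne 0 1, .ne 0 1, .ne 0 1, .dia 1, .big] },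
  { m := 9, L := [386, 97, 25, 7], x := 1, cs := [.dia 1, .dia 1, .dia 1, .dia 1, .dia 1, .dia 1, .ne 0 1, .ne 0 1, .ne 0 1, .dia 1, .dia 1, .ne 0 1, .ne 0 1, .dia 1, .dia 1, .ne 0 1, .dia 1, .dia 1, .dia 1, .dia 1, .dia 1, .big, .big, .big, .big, .big, .big, .big, .big] },
  { m := 8, L := [146, 42, 97, 25, 7], x := 4, cs := [.dia 3, .ne 0 5, .gt 1 6, .dia 4, .dia 3, .dia 3, .dia 3, .dia 5, .dia 4, .dia 4, .ne 0 4, .dia 3, .ne 0 4, .ne 0 4, .dia 4, .big] },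
  { m := 8, L := [98, 138, 97, 25, 7], x := 3, cs := [.dia 3, .dia 5, .dia 6, .dia 3, .dia 3, .dia 3, .dia 3, .dia 5, .dia 3, .dia 3, .ne 0 3, .dia 3, .dia 5, .dia 6, .dia 3, .big] }]

theorem tab29_ok : checkTable th29 tab29 = true := by decide +kernel

theorem good29.{u} : Good.{u} th29 :=
  good_of_table _ tab29 tab29_ok (by decide +kernel) (by decide +kernel)

def th49 : Th := ⟨15, 6, 2, 17, true⟩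

def tab49 : List Node := [
  { m := 3, L := [7], x := 0, cs := [.go 1 [0, 1, 2], .go 2 [0, 1, 2, 3], .go 2 [0, 2, 1, 3], .go 3 [0, 1, 2, 3, 4]] },
  { m := 3, L := [7, 7], x := 0, cs := [.dia 0, .dia 0, .dia 0, .dia 0] },
  { m := 4, L := [11, 7], x := 0, cs := [.dia 0, .dia 0, .dia 0, .dia 0, .dia 0, .dia 0, .go 4 [0, 1, 2, 3, 4, 5]] },
  { m := 5, L := [25, 7], x := 0, cs := [.dia 0, .dia 0, .dia 0, .dia 0, .dia 0, .dia 0, .go 4 [0, 1, 2, 5, 3, 4], .go 4 [0, 2, 1, 5, 3, 4], .go 4 [0, 3, 4, 5, 1, 2], .go 4 [0, 4, 3, 5, 1, 2], .dia 0] },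
  { m := 6, L := [49, 11, 7], x := 1, cs := [.dia 1, .dia 1, .dia 1, .dia 1, .dia 1, .ne 0 1, .dia 1, .dia 1, .ne 0 1, .ne 0 1, .go 5 [0, 1, 2, 3, 4, 5, 6, 7]] },
  { m := 8, L := [194, 49, 11, 7], x := 2, cs := [.gt 0 2, .gt 0 2, .gt 0 6, .gt 0 7, .gt 0 2, .gt 0 6, .gt 0 7, .gt 0 6, .gt 0 7, .gt 0 6, .go 6 [0, 1, 2, 3, 4, 5, 6, 7, 8], .gt 1 4, .gt 1 5, .gt 0 6, .gt 0 7, .go 7 [0, 1, 2, 3, 4, 5, 6, 7, 8, 9]] },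
  { m := 9, L := [268, 194, 49, 11, 7], x := 2, cs := [.ne 0 2, .ne 0 2, .ne 0 2, .ne 0 2, .dia 2, .dia 2, .dia 2, .dia 2, .ne 0 2, .dia 2, .dia 2, .ne 0 2, .dia 2, .ne 0 2, .ne 0 2, .ne 0 2, .dia 2, .dia 2, .dia 2, .dia 2, .ne 0 2, .dia 2] },
  { m := 10, L := [772, 194, 49, 11, 7], x := 2, cs := [.dia 2, .dia 2, .dia 2, .dia 2, .ne 0 2, .ne 0 2, .dia 2, .dia 2, .dia 2, .ne 0 2, .ne 0 2, .dia 2, .dia 2, .ne 0 2, .ne 0 2, .dia 2, .gt 0 6, .gt 0 6, .gt 0 7, .gt 0 7, .dia 2, .dia 2, .dia 2, .dia 2, .dia 2, .dia 2, .go 8 [0, 1, 2, 3, 4, 5, 6, 7, 8, 9, 10], .go 8 [0, 1, 2, 3, 4, 5, 6, 7, 9, 8, 10], .dia 2] },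
  { m := 11, L := [1284, 772, 194, 49, 11, 7], x := 8, cs := [.ne 0 8, .ne 0 8, .gt 0 6, .gt 0 7, .dia 8, .dia 8, .ne 0 8, .gt 0 6, .gt 0 7, .dia 8, .dia 8, .gt 0 6, .gt 0 7, .dia 8, .dia 8, .ne 1 8, .dia 8, .dia 8, .dia 8, .dia 8, .dia 8, .ne 0 8, .ne 0 8, .ne 0 8, .ne 1 8, .ne 1 8, .dia 8, .dia 8, .go 9 [0, 1, 2, 3, 4, 5, 6, 7, 8, 9, 10, 11, 12]] },
  { m := 13, L := [6400, 1284, 772, 194, 49, 11, 7], x := 3, cs := [.gt 0 3, .gt 0 6, .gt 0 7, .gt 0 9, .gt 0 10, .gt 1 4, .gt 1 4, .gt 0 6, .gt 0 7, .gt 0 9, .gt 0 10, .gt 1 5, .gt 1 5, .gt 0 6, .gt 0 6, .gt 0 6, .gt 0 6, .gt 0 6, .gt 0 7, .gt 0 7, .gt 0 7, .gt 0 7, .gt 2 3, .gt 2 3, .gt 2 3, .gt 2 3, .gt 2 3, .go 10 [0, 1, 2, 3, 4, 5, 6, 7, 8, 9, 10, 11, 12], .gt 1 4, .gt 1 5, .gt 0 6, .gt 0 7, .gt 2 3, .gt 2 3, .go 11 [0, 1, 2, 3, 4, 5, 6, 7,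 8, 9, 10, 11, 12, 13], .go 11 [0, 1, 2, 3, 4, 5, 6, 7, 8, 9, 10, 12, 11, 13], .go 12 [0, 1, 2, 3, 4, 5, 6, 7, 8, 9, 10, 11, 12, 13, 14]] },
  { m := 13, L := [6152, 6400, 1284, 772, 194, 49, 11, 7], x := 3, cs := [.dia 3, .dia 3, .dia 3, .dia 3, .dia 3, .dia 11, .dia 12, .dia 3, .dia 3, .dia 3, .dia 3, .dia 11, .dia 12, .dia 3, .dia 3, .dia 3, .dia 11, .dia 12, .dia 3, .dia 3, .dia 11, .dia 12, .dia 3, .dia 11, .dia 12, .dia 11, .dia 12, .dia 3, .dia 3, .dia 3, .dia 3, .dia 3, .dia 3, .dia 3, .dia 11, .dia 12, .dia 3] },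
  { m := 14, L := [10248, 6400, 1284, 772, 194, 49, 11, 7], x := 11, cs := [.ne 0 3, .ne 0 3, .gt 0 6, .gt 0 7, .ne 2 3, .ne 2 3, .dia 11, .dia 3, .dia 11, .dia 11, .dia 11, .dia 11, .dia 11, .ne 1 11, .ne 1 11, .dia 11, .dia 11, .dia 11, .dia 11, .ne 1 11, .ne 1 11, .dia 11, .dia 11, .dia 11, .ne 0 11, .ne 0 11, .dia 11, .dia 11, .ne 0 11, .ne 0 11, .dia 11, .ne 0 11, .ne 0 11, .ne 0 11, .ne 0 11, .dia 11, .ne 8 11, .dia 11, .dia 11, .dia 11, .dia 11, .dia 11, .dia 11, .ne 0 11, .ne 0 11, .big] },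
  { m := 15, L := [24584, 6400, 1284, 772, 194, 49, 11, 7], x := 3, cs := [.dia 3, .dia 3, .dia 3, .dia 3, .dia 3, .dia 3, .dia 3, .ne 0 3, .ne 0 3, .dia 3, .dia 3, .dia 3, .dia 3, .dia 3, .dia 3, .ne 0 3, .ne 0 3, .dia 3, .dia 3, .dia 3, .dia 3, .dia 3, .gt 0 6, .gt 0 6, .dia 3, .dia 3, .dia 3, .dia 3, .gt 0 7, .gt 0 7, .dia 3, .dia 3, .dia 3, .ne 2 3, .ne 2 3, .dia 3, .dia 3, .ne 2 3, .ne 2 3, .dia 3, .ne 3 8, .ne 3 8, .ne 3 8, .ne 3 8, .dia 3, .big, .big, .big, .big, .big, .big, .big, .big, .big, .big, .big] }]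

theorem tab49_ok : checkTable th49 tab49 = true := by decide +kernel

theorem good49.{u} : Good.{u} th49 :=
  good_of_table _ tab49 tab49_ok (by decide +kernel) (by decide +kernel)

end R29.CB
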