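import Pool.Agent.R29.CB.Run
set_option linter.all false

/-! Certificate tables (generated). -/

namespace R29.CB

def th11 : Th := ⟨7, 2, 9, 15, true⟩

def tab11 : List Node := [
  { m := 3, L := [7], x := 0, cs := [.go 1 [0, 1, 2], .go 2 [0, 1, 2, 3], .go 2 [0, 2, 1, 3], .go 3 [0, 1, 2, 3, 4]] },
  { m := 3, L := [7, 7], x := 0, cs := [.dia 0, .dia 0, .dia 0, .dia 0] },
  { m := 4, L := [11, 7], x := 0, cs := [.dia 0, .dia 0, .dia 0, .dia 0, .dia 0, .dia 0, .dia 0] },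
  { m := 5, L := [25, 7], x := 0, cs := [.dia 0, .dia 0, .dia 0, .dia 0, .dia 0, .dia 0, .dia 0, .dia 0, .dia 0, .dia 0, .go 4 [0, 1, 2, 3, 4, 5, 6]] },
  { m := 7, L := [97, 25, 7], x := 1, cs := [.go 5 [0, 1, 2, 3, 4, 5, 6], .go 5 [0, 1, 2, 4, 3, 5, 6], .go 5 [0, 1, 2, 5, 6, 3, 4], .go 5 [0, 1, 2, 6, 5, 3, 4], .go 5 [0, 3, 4, 1, 2, 5, 6], .go 6 [0, 1, 2, 3, 4, 5, 6], .go 6 [0, 1, 2, 3, 4, 6, 5], .go 6 [0, 1, 2, 4, 3, 5, 6], .go 6 [0, 1, 2, 4, 3, 6, 5], .go 5 [0, 5, 6, 1, 2, 3, 4], .big, .big, .big, .big, .big, .big] },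
  { m := 7, L := [14, 97, 25, 7], x := 1, cs := [.dia 1, .dia 1, .dia 1, .dia 1, .dia 1, .dia 1, .dia 1, .dia 1, .dia 1, .dia 1, .big, .big, .big, .big, .big, .big] },
  { m := 7, L := [42, 97, 25, 7], x := 1, cs := [.dia 1, .dia 1, .dia 1, .dia 1, .dia 1, .dia 1, .dia 1, .dia 1, .go 7 [0, 1, 2, 3, 4, 5, 6], .dia 1, .big, .big, .big, .big, .big, .big] },
  { m := 7, L := [82, 42, 97, 25, 7], x := 3, cs := [.dia 3, .dia 3, .go 8 [0, 1, 2, 3, 4, 5, 6], .dia 3, .dia 3, .dia 3, .big, .big, .big, .big, .big] },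
  { m := 7, L := [76, 82, 42, 97, 25, 7], x := 2, cs := [.go 9 [0, 1, 2, 3, 4, 5, 6], .big, .big, .big] },
  { m := 7, L := [7, 25, 97, 42, 82, 76, 52], x := 7, cs := [] }]

theorem tab11_ok : checkTable th11 tab11 = true := by decide +kernel

theorem good11.{u} : Good.{u} th11 :=
  good_of_table _ tab11 tab11_ok (by decide +kernel) (by decide +kernel)

def th13 : Th := ⟨7, 3, 8, 15, true⟩

def tab13 : List Node := [
  { m := 3, L := [7], x := 0, cs := [.go 1 [0, 1, 2], .go 2 [0, 1, 2, 3], .go 2 [0, 2, 1, 3], .go 3 [0, 1, 2, 3, 4]] },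
  { m := 3, L := [7, 7], x := 0, cs := [.dia 0, .dia 0, .dia 0, .dia 0] },
  { m := 4, L := [11, 7], x := 0, cs := [.dia 0, .dia 0, .dia 0, .dia 0, .dia 0, .dia 0, .dia 0] },
  { m := 5, L := [25, 7], x := 0, cs := [.dia 0, .dia 0, .dia 0, .dia 0, .dia 0, .dia 0, .dia 0, .dia 0, .dia 0, .dia 0, .go 4 [0, 1, 2, 3, 4, 5, 6]] },
  { m := 7, L := [97, 25, 7], x := 1, cs := [.go 5 [0, 1, 2, 3, 4, 5, 6], .go 5 [0, 1, 2, 4, 3, 5, 6], .go 5 [0, 1, 2, 5, 6, 3, 4], .go 5 [0, 1, 2, 6, 5, 3, 4], .go 5 [0, 3, 4, 1, 2, 5, 6], .go 6 [0, 1, 2, 3, 4, 5, 6], .go 6 [0, 1, 2, 3, 4, 6, 5], .go 6 [0, 1, 2, 4, 3, 5, 6], .go 6 [0, 1, 2, 4, 3, 6, 5], .go 5 [0, 5, 6, 1, 2, 3, 4], .big, .big, .big, .big, .big, .big] },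
  { m := 7, L := [14, 97, 25, 7], x := 1, cs := [.dia 1, .dia 1, .dia 1, .dia 1, .dia 1, .dia 1, .dia 1, .dia 1, .dia 1, .dia 1, .big, .big, .big, .big, .big, .big] },
  { m := 7, L := [42, 97, 25, 7], x := 1, cs := [.dia 1, .dia 1, .dia 1, .dia 1, .dia 1, .dia 1, .dia 1, .dia 1, .go 7 [0, 1, 2, 3, 4, 5, 6], .dia 1, .big, .big, .big, .big, .big, .big] },
  { m := 7, L := [82, 42, 97, 25, 7], x := 3, cs := [.dia 3, .dia 3, .go 8 [0, 1, 2, 3, 4, 5, 6], .dia 3, .dia 3, .dia 3, .big, .big, .big, .big, .big] },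
  { m := 7, L := [76, 82, 42, 97, 25, 7], x := 2, cs := [.go 9 [0, 1, 2, 3, 4, 5, 6], .big, .big, .big] },
  { m := 7, L := [7, 25, 97, 42, 82, 76, 52], x := 7, cs := [] }]

theorem tab13_ok : checkTable th13 tab13 = true := by decide +kernel

theorem good13.{u} : Good.{u} th13 :=
  good_of_table _ tab13 tab13_ok (by decide +kernel) (by decide +kernel)

def th15 : Th := ⟨8, 4, 6, 15, true⟩

def tab15 : List Node := [
  { m := 3, L := [7], x := 0, cs := [.go 1 [0, 1, 2], .go 2 [0, 1, 2, 3], .go 2 [0, 2, 1, 3], .go 3 [0, 1, 2, 3, 4]] },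
  { m := 3, L := [7, 7], x := 0, cs := [.dia 0, .dia 0, .dia 0, .dia 0] },
  { m := 4, L := [11, 7], x := 0, cs := [.dia 0, .dia 0, .dia 0, .dia 0, .dia 0, .dia 0, .dia 0] },
  { m := 5, L := [25, 7], x := 0, cs := [.dia 0, .dia 0, .dia 0, .dia 0, .dia 0, .dia 0, .dia 0, .dia 0, .dia 0, .dia 0, .go 4 [0, 1, 2, 3, 4, 5, 6]] },
  { m := 7, L := [97, 25, 7], x := 1, cs := [.go 5 [0, 1, 2, 3, 4, 5, 6], .go 5 [0, 1, 2, 4, 3, 5, 6], .go 5 [0, 1, 2, 5, 6, 3, 4], .go 5 [0, 1, 2, 6, 5, 3, 4], .go 5 [0, 3, 4, 1, 2, 5, 6], .go 6 [0, 1, 2, 3, 4, 5, 6], .go 6 [0, 1, 2, 3, 4, 6, 5], .go 6 [0, 1, 2, 4, 3, 5, 6], .go 6 [0, 1, 2, 4, 3, 6, 5], .go 5 [0, 5, 6, 1, 2, 3, 4], .go 7 [0, 1, 2, 3, 4, 5, 6, 7], .go 8 [0, 1, 2, 3, 4, 5, 6, 7], .go 8 [0, 1, 2, 4, 3, 5, 6, 7], .go 8 [0, 1, 2, 5, 6, 3, 4, 7], .go 8 [0, 1, 2, 6, 5, 3, 4, 7], .big] },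
  { m := 7, L := [14, 97, 25, 7], x := 1, cs := [.dia 1, .dia 1, .dia 1, .dia 1, .dia 1, .dia 1, .dia 1, .dia 1, .dia 1, .dia 1, .dia 1, .dia 1, .dia 1, .dia 1, .dia 1, .big] },
  { m := 7, L := [42, 97, 25, 7], x := 1, cs := [.dia 1, .dia 1, .dia 1, .dia 1, .dia 1, .dia 1, .dia 1, .dia 1, .ne 0 1, .dia 1, .dia 1, .dia 1, .go 9 [0, 1, 2, 3, 4, 5, 6, 7], .dia 1, .go 9 [0, 1, 2, 5, 6, 3, 4, 7], .big] },
  { m := 8, L := [134, 97, 25, 7], x := 1, cs := [.dia 1, .dia 1, .dia 1, .dia 1, .dia 1, .dia 1, .dia 1, .dia 1, .dia 1, .dia 1, .dia 1, .dia 1, .dia 1, .dia 1, .dia 1, .big, .big, .big, .big, .big, .big, .big] },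
  { m := 8, L := [138, 97, 25, 7], x := 1, cs := [.dia 1, .dia 1, .dia 1, .dia 1, .dia 1, .dia 1, .dia 1, .dia 1, .dia 1, .go 9 [0, 1, 2, 4, 3, 5, 6, 7], .go 9 [0, 1, 2, 4, 3, 6, 5, 7], .dia 1, .go 10 [0, 1, 2, 3, 4, 5, 6, 7], .dia 1, .dia 1, .big, .big, .big, .big, .big, .big, .big] },
  { m := 8, L := [146, 42, 97, 25, 7], x := 3, cs := [.dia 3, .dia 3, .ne 0 3, .ne 1 3, .dia 3, .dia 3, .dia 3, .dia 3, .dia 3, .go 11 [0, 1, 2, 3, 4, 5, 6, 7], .big, .big, .big, .big, .big, .big] },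
  { m := 8, L := [98, 138, 97, 25, 7], x := 3, cs := [.dia 3, .dia 5, .dia 6, .dia 3, .dia 3, .dia 3, .dia 3, .dia 5, .dia 3, .dia 3, .big, .big, .big, .big, .big, .big] },
  { m := 8, L := [200, 146, 42, 97, 25, 7], x := 4, cs := [.ne 0 5, .go 12 [0, 1, 2, 3, 4, 5, 6, 7], .dia 4, .dia 5, .dia 4, .dia 4, .big, .big, .big, .big, .big] },
  { m := 8, L := [84, 200, 146, 42, 97, 25, 7], x := 2, cs := [.go 13 [0, 1, 2, 3, 4, 5, 6, 7], .big, .big, .big] },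
  { m := 8, L := [7, 25, 97, 42, 146, 84, 164, 200], x := 8, cs := [] }]

theorem tab15_ok : checkTable th15 tab15 = true := by decide +kernel

theorem good15.{u} : Good.{u} th15 :=
  good_of_table _ tab15 tab15_ok (by decide +kernel) (by decide +kernel)

def th16 : Th := ⟨7, 4, 7, 15, true⟩

def tab16 : List Node := [
  { m := 3, L := [7], x := 0, cs := [.go 1 [0, 1, 2], .go 2 [0, 1, 2, 3], .go 2 [0, 2, 1, 3], .go 3 [0, 1, 2, 3, 4]] },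
  { m := 3, L := [7, 7], x := 0, cs := [.dia 0, .dia 0, .dia 0, .dia 0] },
  { m := 4, L := [11, 7], x := 0, cs := [.dia 0, .dia 0, .dia 0, .dia 0, .dia 0, .dia 0, .dia 0] },
  { m := 5, L := [25, 7], x := 0, cs := [.dia 0, .dia 0, .dia 0, .dia 0, .dia 0, .dia 0, .dia 0, .dia 0, .dia 0, .dia 0, .go 4 [0, 1, 2, 3, 4, 5, 6]] },
  { m := 7, L := [97, 25, 7], x := 1, cs := [.go 5 [0, 1, 2, 3, 4, 5, 6], .go 5 [0, 1, 2, 4, 3, 5, 6], .go 5 [0, 1, 2, 5, 6, 3, 4], .go 5 [0, 1, 2, 6, 5, 3, 4], .go 5 [0, 3, 4, 1, 2, 5, 6], .go 6 [0, 1, 2, 3, 4, 5, 6], .go 6 [0, 1, 2, 3, 4, 6, 5], .go 6 [0, 1, 2, 4, 3, 5, 6], .go 6 [0, 1, 2, 4, 3, 6, 5], .go 5 [0, 5, 6, 1, 2, 3, 4], .big, .big, .big, .big, .big, .big] },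
  { m := 7, L := [14, 97, 25, 7], x := 1, cs := [.dia 1, .dia 1, .dia 1, .dia 1, .dia 1, .dia 1, .dia 1, .dia 1, .dia 1, .dia 1, .big, .big, .big, .big, .big, .big] },
  { m := 7, L := [42, 97, 25, 7], x := 1, cs := [.dia 1, .dia 1, .dia 1, .dia 1, .dia 1, .dia 1, .dia 1, .dia 1, .go 7 [0, 1, 2, 3, 4, 5, 6], .dia 1, .big, .big, .big, .big, .big, .big] },
  { m := 7, L := [82, 42, 97, 25, 7], x := 3, cs := [.dia 3, .dia 3, .go 8 [0, 1, 2, 3, 4, 5, 6], .dia 3, .dia 3, .dia 3, .big, .big, .big, .big, .big] },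
  { m := 7, L := [76, 82, 42, 97, 25, 7], x := 2, cs := [.go 9 [0, 1, 2, 3, 4, 5, 6], .big, .big, .big] },
  { m := 7, L := [7, 25, 97, 42, 82, 76, 52], x := 7, cs := [] }]

theorem tab16_ok : checkTable th16 tab16 = true := by decide +kernel

theorem good16.{u} : Good.{u} th16 :=
  good_of_table _ tab16 tab16_ok (by decide +kernel) (by decide +kernel)

def th21 : Th := ⟨7, 5, 6, 15, true⟩

def tab21 : List Node := [
  { m := 3, L := [7], x := 0, cs := [.go 1 [0, 1, 2], .go 2 [0, 1, 2, 3], .go 2 [0, 2, 1, 3], .go 3 [0, 1, 2, 3, 4]] },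
  { m := 3, L := [7, 7], x := 0, cs := [.dia 0, .dia 0, .dia 0, .dia 0] },
  { m := 4, L := [11, 7], x := 0, cs := [.dia 0, .dia 0, .dia 0, .dia 0, .dia 0, .dia 0, .dia 0] },
  { m := 5, L := [25, 7], x := 0, cs := [.dia 0, .dia 0, .dia 0, .dia 0, .dia 0, .dia 0, .dia 0, .dia 0, .dia 0, .dia 0, .go 4 [0, 1, 2, 3, 4, 5, 6]] },
  { m := 7, L := [97, 25, 7], x := 1, cs := [.go 5 [0, 1, 2, 3, 4, 5, 6], .go 5 [0, 1, 2, 4, 3, 5, 6], .go 5 [0, 1, 2, 5, 6, 3, 4], .go 5 [0, 1, 2, 6, 5, 3, 4], .go 5 [0, 3, 4, 1, 2, 5, 6], .go 6 [0, 1, 2, 3, 4, 5, 6], .go 6 [0, 1, 2, 3, 4, 6, 5], .go 6 [0, 1, 2, 4, 3, 5, 6], .go 6 [0, 1, 2, 4, 3, 6, 5], .go 5 [0, 5, 6, 1, 2, 3, 4], .big, .big, .big, .big, .big, .big] },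
  { m := 7, L := [14, 97, 25, 7], x := 1, cs := [.dia 1, .dia 1, .dia 1, .dia 1, .dia 1, .dia 1, .dia 1, .dia 1, .dia 1, .dia 1, .big, .big, .big, .big, .big, .big] },
  { m := 7, L := [42, 97, 25, 7], x := 1, cs := [.dia 1, .dia 1, .dia 1, .dia 1, .dia 1, .dia 1, .dia 1, .dia 1, .go 7 [0, 1, 2, 3, 4, 5, 6], .dia 1, .big, .big, .big, .big, .big, .big] },
  { m := 7, L := [82, 42, 97, 25, 7], x := 3, cs := [.dia 3, .dia 3, .go 8 [0, 1, 2, 3, 4, 5, 6], .dia 3, .dia 3, .dia 3, .big, .big, .big, .big, .big] },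
  { m := 7, L := [76, 82, 42, 97, 25, 7], x := 2, cs := [.go 9 [0, 1, 2, 3, 4, 5, 6], .big, .big, .big] },
  { m := 7, L := [7, 25, 97, 42, 82, 76, 52], x := 7, cs := [] }]

theorem tab21_ok : checkTable th21 tab21 = true := by decide +kernel

theorem good21.{u} : Good.{u} th21 :=
  good_of_table _ tab21 tab21_ok (by decide +kernel) (by decide +kernel)

def th25 : Th := ⟨7, 6, 5, 15, true⟩

def tab25 : List Node := [
  { m := 3, L := [7], x := 0, cs := [.go 1 [0, 1, 2], .go 2 [0, 1, 2, 3], .go 2 [0, 2, 1, 3], .go 3 [0, 1, 2, 3, 4]] },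
  { m := 3, L := [7, 7], x := 0, cs := [.dia 0, .dia 0, .dia 0, .dia 0] },
  { m := 4, L := [11, 7], x := 0, cs := [.dia 0, .dia 0, .dia 0, .dia 0, .dia 0, .dia 0, .dia 0] },
  { m := 5, L := [25, 7], x := 0, cs := [.dia 0, .dia 0, .dia 0, .dia 0, .dia 0, .dia 0, .dia 0, .dia 0, .dia 0, .dia 0, .go 4 [0, 1, 2, 3, 4, 5, 6]] },
  { m := 7, L := [97, 25, 7], x := 1, cs := [.go 5 [0, 1, 2, 3, 4, 5, 6], .go 5 [0, 1, 2, 4, 3, 5, 6], .go 5 [0, 1, 2, 5, 6, 3, 4], .go 5 [0, 1, 2, 6, 5, 3, 4], .go 5 [0, 3, 4, 1, 2, 5, 6], .go 6 [0, 1, 2, 3, 4, 5, 6], .go 6 [0, 1, 2, 3, 4, 6, 5], .go 6 [0, 1, 2, 4, 3, 5, 6], .go 6 [0, 1, 2, 4, 3, 6, 5], .go 5 [0, 5, 6, 1, 2, 3, 4], .big, .big, .big, .big, .big, .big] },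
  { m := 7, L := [14, 97, 25, 7], x := 1, cs := [.dia 1, .dia 1, .dia 1, .dia 1, .dia 1, .dia 1, .dia 1, .dia 1, .dia 1, .dia 1, .big, .big, .big, .big, .big, .big] },
  { m := 7, L := [42, 97, 25, 7], x := 1, cs := [.dia 1, .dia 1, .dia 1, .dia 1, .dia 1, .dia 1, .dia 1, .dia 1, .go 7 [0, 1, 2, 3, 4, 5, 6], .dia 1, .big, .big, .big, .big, .big, .big] },
  { m := 7, L := [82, 42, 97, 25, 7], x := 3, cs := [.dia 3, .dia 3, .go 8 [0, 1, 2, 3, 4, 5, 6], .dia 3, .dia 3, .dia 3, .big, .big, .big, .big, .big] },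
  { m := 7, L := [76, 82, 42, 97, 25, 7], x := 2, cs := [.go 9 [0, 1, 2, 3, 4, 5, 6], .big, .big, .big] },
  { m := 7, L := [7, 25, 97, 42, 82, 76, 52], x := 7, cs := [] }]

theorem tab25_ok : checkTable th25 tab25 = true := by decide +kernel

theorem good25.{u} : Good.{u} th25 :=
  good_of_table _ tab25 tab25_ok (by decide +kernel) (by decide +kernel)

def th27 : Th := ⟨25, 7, 1, 15, true⟩

def tab27 : List Node := [
  { m := 3, L := [7], x := 0, cs := [.go 1 [0, 1, 2], .go 2 [0, 1, 2, 3], .go 2 [0, 2, 1, 3], .go 3 [0, 1, 2, 3, 4]] },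
  { m := 3, L := [7, 7], x := 0, cs := [.dia 0, .dia 0, .dia 0, .dia 0] },
  { m := 4, L := [11, 7], x := 0, cs := [.dia 0, .dia 0, .dia 0, .dia 0, .dia 0, .dia 0, .dia 0] },
  { m := 5, L := [25, 7], x := 0, cs := [.dia 0, .dia 0, .dia 0, .dia 0, .dia 0, .dia 0, .dia 0, .dia 0, .dia 0, .dia 0, .go 4 [0, 1, 2, 3, 4, 5, 6]] },
  { m := 7, L := [97, 25, 7], x := 1, cs := [.go 5 [0, 1, 2, 3, 4, 5, 6], .go 5 [0, 1, 2, 4, 3, 5, 6], .go 5 [0, 1, 2, 5, 6, 3, 4], .go 5 [0, 1, 2, 6, 5, 3, 4], .go 5 [0, 3, 4, 1, 2, 5, 6], .go 6 [0, 1, 2, 3, 4, 5, 6], .go 6 [0, 1, 2, 3, 4, 6, 5], .go 6 [0, 1, 2, 4, 3, 5, 6], .go 6 [0, 1, 2, 4, 3, 6, 5], .go 5 [0, 5, 6, 1, 2, 3, 4], .gt 0 7, .gt 0 7, .gt 0 7, .gt 0 7, .gt 0 7, .go 7 [0, 1, 2, 3, 4, 5, 6, 7, 8]] },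
  { m := 7, L := [14, 97, 25, 7], x := 1, cs := [.dia 1, .dia 1, .dia 1, .dia 1, .dia 1, .dia 1, .dia 1, .dia 1, .dia 1, .dia 1, .dia 1, .dia 1, .dia 1, .dia 1, .dia 1, .dia 1] },
  { m := 7, L := [42, 97, 25, 7], x := 1, cs := [.dia 1, .dia 1, .dia 1, .dia 1, .dia 1, .dia 1, .dia 1, .dia 1, .ne 0 1, .dia 1, .dia 1, .dia 1, .ne 0 1, .dia 1, .ne 0 1, .ne 0 1] },
  { m := 9, L := [386, 97, 25, 7], x := 1, cs := [.dia 1, .dia 1, .dia 1, .dia 1, .dia 1, .dia 1, .ne 0 1, .ne 0 1, .ne 0 1, .dia 1, .dia 1, .ne 0 1, .ne 0 1, .dia 1, .dia 1, .ne 0 1, .dia 1, .dia 1, .dia 1, .dia 1, .dia 1, .dia 1, .gt 0 9, .gt 0 9, .gt 0 9, .gt 0 9, .dia 1, .dia 1, .ne 0 1] }]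

theorem tab27_ok : checkTable th27 tab27 = true := by decide +kernel

theorem good27.{u} : Good.{u} th27 :=
  good_of_table _ tab27 tab27_ok (by decide +kernel) (by decide +kernel)

def th30 : Th := ⟨7, 7, 4, 15, true⟩

def tab30 : List Node := [
  { m := 3, L := [7], x := 0, cs := [.go 1 [0, 1, 2], .go 2 [0, 1, 2, 3], .go 2 [0, 2, 1, 3], .go 3 [0, 1, 2, 3, 4]] },
  { m := 3, L := [7, 7], x := 0, cs := [.dia 0, .dia 0, .dia 0, .dia 0] },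
  { m := 4, L := [11, 7], x := 0, cs := [.dia 0, .dia 0, .dia 0, .dia 0, .dia 0, .dia 0, .dia 0] },
  { m := 5, L := [25, 7], x := 0, cs := [.dia 0, .dia 0, .dia 0, .dia 0, .dia 0, .dia 0, .dia 0, .dia 0, .dia 0, .dia 0, .go 4 [0, 1, 2, 3, 4, 5, 6]] },
  { m := 7, L := [97, 25, 7], x := 1, cs := [.go 5 [0, 1, 2, 3, 4, 5, 6], .go 5 [0, 1, 2, 4, 3, 5, 6], .go 5 [0, 1, 2, 5, 6, 3, 4], .go 5 [0, 1, 2, 6, 5, 3, 4], .go 5 [0, 3, 4, 1, 2, 5, 6], .go 6 [0, 1, 2, 3, 4, 5, 6], .go 6 [0, 1, 2, 3, 4, 6, 5], .go 6 [0, 1, 2, 4, 3, 5, 6], .go 6 [0, 1, 2, 4, 3, 6, 5], .go 5 [0, 5, 6, 1, 2, 3, 4], .big, .big, .big, .big, .big, .big] },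
  { m := 7, L := [14, 97, 25, 7], x := 1, cs := [.dia 1, .dia 1, .dia 1, .dia 1, .dia 1, .dia 1, .dia 1, .dia 1, .dia 1, .dia 1, .big, .big, .big, .big, .big, .big] },
  { m := 7, L := [42, 97, 25, 7], x := 1, cs := [.dia 1, .dia 1, .dia 1, .dia 1, .dia 1, .dia 1, .dia 1, .dia 1, .go 7 [0, 1, 2, 3, 4, 5, 6], .dia 1, .big, .big, .big, .big, .big, .big] },
  { m := 7, L := [82, 42, 97, 25, 7], x := 3, cs := [.dia 3, .dia 3, .go 8 [0, 1, 2, 3, 4, 5, 6], .dia 3, .dia 3, .dia 3, .big, .big, .big, .big, .big] },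
  { m := 7, L := [76, 82, 42, 97, 25, 7], x := 2, cs := [.go 9 [0, 1, 2, 3, 4, 5, 6], .big, .big, .big] },
  { m := 7, L := [7, 25, 97, 42, 82, 76, 52], x := 7, cs := [] }]

theorem tab30_ok : checkTable th30 tab30 = true := by decide +kernel

theorem good30.{u} : Good.{u} th30 :=
  good_of_table _ tab30 tab30_ok (by decide +kernel) (by decide +kernel)

def th33 : Th := ⟨10, 8, 2, 15, true⟩

def tab33 : List Node := [
  { m := 3, L := [7], x := 0, cs := [.go 1 [0, 1, 2], .go 2 [0, 1, 2, 3], .go 2 [0, 2, 1, 3], .go 3 [0, 1, 2, 3, 4]] },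
  { m := 3, L := [7, 7], x := 0, cs := [.dia 0, .dia 0, .dia 0, .dia 0] },
  { m := 4, L := [11, 7], x := 0, cs := [.dia 0, .dia 0, .dia 0, .dia 0, .dia 0, .dia 0, .dia 0] },
  { m := 5, L := [25, 7], x := 0, cs := [.dia 0, .dia 0, .dia 0, .dia 0, .dia 0, .dia 0, .dia 0, .dia 0, .dia 0, .dia 0, .go 4 [0, 1, 2, 3, 4, 5, 6]] },
  { m := 7, L := [97, 25, 7], x := 1, cs := [.go 5 [0, 1, 2, 3, 4, 5, 6], .go 5 [0, 1, 2, 4, 3, 5, 6], .go 5 [0, 1, 2, 5, 6, 3, 4], .go 5 [0, 1, 2, 6, 5, 3, 4], .go 5 [0, 3, 4, 1, 2, 5, 6], .go 6 [0, 1, 2, 3, 4, 5, 6], .go 6 [0, 1, 2, 3, 4, 6, 5], .go 6 [0, 1, 2, 4, 3, 5, 6], .go 6 [0, 1, 2, 4, 3, 6, 5], .go 5 [0, 5, 6, 1, 2, 3, 4], .go 7 [0, 1, 2, 3, 4, 5, 6, 7], .go 8 [0, 1, 2, 3, 4, 5, 6, 7], .go 8 [0, 1, 2, 4, 3, 5, 6, 7], .go 8 [0, 1, 2, 5, 6, 3, 4, 7], .go 8 [0, 1, 2, 6, 5, 3, 4, 7], .go 9 [0, 1, 2, 3, 4, 5,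 6, 7, 8]] },
  { m := 7, L := [14, 97, 25, 7], x := 1, cs := [.dia 1, .dia 1, .dia 1, .dia 1, .dia 1, .dia 1, .dia 1, .dia 1, .dia 1, .dia 1, .dia 1, .dia 1, .dia 1, .dia 1, .dia 1, .dia 1] },
  { m := 7, L := [42, 97, 25, 7], x := 1, cs := [.dia 1, .dia 1, .dia 1, .dia 1, .dia 1, .dia 1, .dia 1, .dia 1, .ne 0 1, .dia 1, .dia 1, .dia 1, .go 10 [0, 1, 2, 3, 4, 5, 6, 7], .dia 1, .go 10 [0, 1, 2, 5, 6, 3, 4, 7], .ne 0 1] },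
  { m := 8, L := [134, 97, 25, 7], x := 1, cs := [.dia 1, .dia 1, .dia 1, .dia 1, .dia 1, .dia 1, .dia 1, .dia 1, .dia 1, .dia 1, .dia 1, .dia 1, .dia 1, .dia 1, .dia 1, .dia 1, .dia 1, .dia 1, .dia 1, .dia 1, .dia 1, .dia 1] },
  { m := 8, L := [138, 97, 25, 7], x := 1, cs := [.dia 1, .dia 1, .dia 1, .dia 1, .dia 1, .dia 1, .dia 1, .dia 1, .dia 1, .go 10 [0, 1, 2, 4, 3, 5, 6, 7], .go 10 [0, 1, 2, 4, 3, 6, 5, 7], .dia 1, .go 11 [0, 1, 2, 3, 4, 5, 6, 7], .dia 1, .dia 1, .dia 1, .dia 1, .ne 0 1, .ne 0 1, .ne 0 1, .dia 1, .ne 0 1] },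
  { m := 9, L := [386, 97, 25, 7], x := 1, cs := [.dia 1, .dia 1, .dia 1, .dia 1, .dia 1, .dia 1, .ne 0 1, .ne 0 1, .ne 0 1, .dia 1, .dia 1, .ne 0 1, .ne 0 1, .dia 1, .dia 1, .ne 0 1, .dia 1, .dia 1, .dia 1, .dia 1, .dia 1, .dia 1, .ne 0 1, .ne 0 1, .ne 0 1, .ne 0 1, .dia 1, .dia 1, .big] },
  { m := 8, L := [146, 42, 97, 25, 7], x := 4, cs := [.dia 3, .ne 0 5, .gt 1 6, .dia 4, .dia 3, .dia 3, .dia 3, .dia 5, .dia 4, .dia 4, .ne 0 4, .dia 3, .ne 0 4, .ne 0 4, .dia 4, .ne 0 4] },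
  { m := 8, L := [98, 138, 97, 25, 7], x := 3, cs := [.dia 3, .dia 5, .dia 6, .dia 3, .dia 3, .dia 3, .dia 3, .dia 5, .dia 3, .dia 3, .ne 0 3, .dia 3, .dia 5, .dia 6, .dia 3, .ne 0 3] }]

theorem tab33_ok : checkTable th33 tab33 = true := by decide +kernel

theorem good33.{u} : Good.{u} th33 :=
  good_of_table _ tab33 tab33_ok (by decide +kernel) (by decide +kernel)

def th34 : Th := ⟨7, 8, 3, 15, true⟩

def tab34 : List Node := [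
  { m := 3, L := [7], x := 0, cs := [.go 1 [0, 1, 2], .go 2 [0, 1, 2, 3], .go 2 [0, 2, 1, 3], .go 3 [0, 1, 2, 3, 4]] },
  { m := 3, L := [7, 7], x := 0, cs := [.dia 0, .dia 0, .dia 0, .dia 0] },
  { m := 4, L := [11, 7], x := 0, cs := [.dia 0, .dia 0, .dia 0, .dia 0, .dia 0, .dia 0, .dia 0] },
  { m := 5, L := [25, 7], x := 0, cs := [.dia 0, .dia 0, .dia 0, .dia 0, .dia 0, .dia 0, .dia 0, .dia 0, .dia 0, .dia 0, .go 4 [0, 1, 2, 3, 4, 5, 6]] },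
  { m := 7, L := [97, 25, 7], x := 1, cs := [.go 5 [0, 1, 2, 3, 4, 5, 6], .go 5 [0, 1, 2, 4, 3, 5, 6], .go 5 [0, 1, 2, 5, 6, 3, 4], .go 5 [0, 1, 2, 6, 5, 3, 4], .go 5 [0, 3, 4, 1, 2, 5, 6], .go 6 [0, 1, 2, 3, 4, 5, 6], .go 6 [0, 1, 2, 3, 4, 6, 5], .go 6 [0, 1, 2, 4, 3, 5, 6], .go 6 [0, 1, 2, 4, 3, 6, 5], .go 5 [0, 5, 6, 1, 2, 3, 4], .big, .big, .big, .big, .big, .big] },
  { m := 7, L := [14, 97, 25, 7], x := 1, cs := [.dia 1, .dia 1, .dia 1, .dia 1, .dia 1, .dia 1, .dia 1, .dia 1, .dia 1, .dia 1, .big, .big, .big, .big, .big, .big] },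
  { m := 7, L := [42, 97, 25, 7], x := 1, cs := [.dia 1, .dia 1, .dia 1, .dia 1, .dia 1, .dia 1, .dia 1, .dia 1, .go 7 [0, 1, 2, 3, 4, 5, 6], .dia 1, .big, .big, .big, .big, .big, .big] },
  { m := 7, L := [82, 42, 97, 25, 7], x := 3, cs := [.dia 3, .dia 3, .go 8 [0, 1, 2, 3, 4, 5, 6], .dia 3, .dia 3, .dia 3, .big, .big, .big, .big, .big] },
  { m := 7, L := [76, 82, 42, 97, 25, 7], x := 2, cs := [.go 9 [0, 1, 2, 3, 4, 5, 6], .big, .big, .big] },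
  { m := 7, L := [7, 25, 97, 42, 82, 76, 52], x := 7, cs := [] }]

theorem tab34_ok : checkTable th34 tab34 = true := by decide +kernel

theorem good34.{u} : Good.{u} th34 :=
  good_of_table _ tab34 tab34_ok (by decide +kernel) (by decide +kernel)

def th36 : Th := ⟨13, 9, 1, 15, true⟩

def tab36 : List Node := [
  { m := 3, L := [7], x := 0, cs := [.go 1 [0, 1, 2], .go 2 [0, 1, 2, 3], .go 2 [0, 2, 1, 3], .go 3 [0, 1, 2, 3, 4]] },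
  { m := 3, L := [7, 7], x := 0, cs := [.dia 0, .dia 0, .dia 0, .dia 0] },
  { m := 4, L := [11, 7], x := 0, cs := [.dia 0, .dia 0, .dia 0, .dia 0, .dia 0, .dia 0, .dia 0] },
  { m := 5, L := [25, 7], x := 0, cs := [.dia 0, .dia 0, .dia 0, .dia 0, .dia 0, .dia 0, .dia 0, .dia 0, .dia 0, .dia 0, .go 4 [0, 1, 2, 3, 4, 5, 6]] },
  { m := 7, L := [97, 25, 7], x := 1, cs := [.go 5 [0, 1, 2, 3, 4, 5, 6], .go 5 [0, 1, 2, 4, 3, 5, 6], .go 5 [0, 1, 2, 5, 6, 3, 4], .go 5 [0, 1, 2, 6, 5, 3, 4], .go 5 [0, 3, 4, 1, 2, 5, 6], .go 6 [0, 1, 2, 3, 4, 5, 6], .go 6 [0, 1, 2, 3, 4, 6, 5], .go 6 [0, 1, 2, 4, 3, 5, 6], .go 6 [0, 1, 2, 4, 3, 6, 5], .go 5 [0, 5, 6, 1, 2, 3, 4], .gt 0 7, .gt 0 7, .gt 0 7, .gt 0 7, .gt 0 7, .go 7 [0, 1, 2, 3, 4, 5, 6, 7, 8]] },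
  { m := 7, L := [14, 97, 25, 7], x := 1, cs := [.dia 1, .dia 1, .dia 1, .dia 1, .dia 1, .dia 1, .dia 1, .dia 1, .dia 1, .dia 1, .dia 1, .dia 1, .dia 1, .dia 1, .dia 1, .dia 1] },
  { m := 7, L := [42, 97, 25, 7], x := 1, cs := [.dia 1, .dia 1, .dia 1, .dia 1, .dia 1, .dia 1, .dia 1, .dia 1, .ne 0 1, .dia 1, .dia 1, .dia 1, .gt 0 7, .dia 1, .gt 0 7, .ne 0 1] },
  { m := 9, L := [386, 97, 25, 7], x := 1, cs := [.dia 1, .dia 1, .dia 1, .dia 1, .dia 1, .dia 1, .ne 0 1, .ne 0 1, .ne 0 1, .dia 1, .dia 1, .ne 0 1, .ne 0 1, .dia 1, .dia 1, .ne 0 1, .dia 1, .dia 1, .dia 1, .dia 1, .dia 1, .dia 1, .ne 0 1, .ne 0 1, .ne 0 1, .ne 0 1, .dia 1, .dia 1, .ne 0 1] }]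

theorem tab36_ok : checkTable th36 tab36 = true := by decide +kernel

theorem good36.{u} : Good.{u} th36 :=
  good_of_table _ tab36 tab36_ok (by decide +kernel) (by decide +kernel)

def th37 : Th := ⟨7, 9, 2, 15, true⟩

def tab37 : List Node := [
  { m := 3, L := [7], x := 0, cs := [.go 1 [0, 1, 2], .go 2 [0, 1, 2, 3], .go 2 [0, 2, 1, 3], .go 3 [0, 1, 2, 3, 4]] },
  { m := 3, L := [7, 7], x := 0, cs := [.dia 0, .dia 0, .dia 0, .dia 0] },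
  { m := 4, L := [11, 7], x := 0, cs := [.dia 0, .dia 0, .dia 0, .dia 0, .dia 0, .dia 0, .dia 0] },
  { m := 5, L := [25, 7], x := 0, cs := [.dia 0, .dia 0, .dia 0, .dia 0, .dia 0, .dia 0, .dia 0, .dia 0, .dia 0, .dia 0, .go 4 [0, 1, 2, 3, 4, 5, 6]] },
  { m := 7, L := [97, 25, 7], x := 1, cs := [.go 5 [0, 1, 2, 3, 4, 5, 6], .go 5 [0, 1, 2, 4, 3, 5, 6], .go 5 [0, 1, 2, 5, 6, 3, 4], .go 5 [0, 1, 2, 6, 5, 3, 4], .go 5 [0, 3, 4, 1, 2, 5, 6], .go 6 [0, 1, 2, 3, 4, 5, 6], .go 6 [0, 1, 2, 3, 4, 6, 5], .go 6 [0, 1, 2, 4, 3, 5, 6], .go 6 [0, 1, 2, 4, 3, 6, 5], .go 5 [0, 5, 6, 1, 2, 3, 4], .big, .big, .big, .big, .big, .big] },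
  { m := 7, L := [14, 97, 25, 7], x := 1, cs := [.dia 1, .dia 1, .dia 1, .dia 1, .dia 1, .dia 1, .dia 1, .dia 1, .dia 1, .dia 1, .big, .big, .big, .big, .big, .big] },
  { m := 7, L := [42, 97, 25, 7], x := 1, cs := [.dia 1, .dia 1, .dia 1, .dia 1, .dia 1, .dia 1, .dia 1, .dia 1, .go 7 [0, 1, 2, 3, 4, 5, 6], .dia 1, .big, .big, .big, .big, .big, .big] },
  { m := 7, L := [82, 42, 97, 25, 7], x := 3, cs := [.dia 3, .dia 3, .go 8 [0, 1, 2, 3, 4, 5, 6], .dia 3, .dia 3, .dia 3, .big, .big, .big, .big, .big] },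
  { m := 7, L := [76, 82, 42, 97, 25, 7], x := 2, cs := [.go 9 [0, 1, 2, 3, 4, 5, 6], .big, .big, .big] },
  { m := 7, L := [7, 25, 97, 42, 82, 76, 52], x := 7, cs := [] }]

theorem tab37_ok : checkTable th37 tab37 = true := by decide +kernel

theorem good37.{u} : Good.{u} th37 :=
  good_of_table _ tab37 tab37_ok (by decide +kernel) (by decide +kernel)

def th41 : Th := ⟨7, 10, 1, 15, true⟩

def tab41 : List Node := [
  { m := 3, L := [7], x := 0, cs := [.go 1 [0, 1, 2], .go 2 [0, 1, 2, 3], .go 2 [0, 2, 1, 3], .go 3 [0, 1, 2, 3, 4]] },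
  { m := 3, L := [7, 7], x := 0, cs := [.dia 0, .dia 0, .dia 0, .dia 0] },
  { m := 4, L := [11, 7], x := 0, cs := [.dia 0, .dia 0, .dia 0, .dia 0, .dia 0, .dia 0, .dia 0] },
  { m := 5, L := [25, 7], x := 0, cs := [.dia 0, .dia 0, .dia 0, .dia 0, .dia 0, .dia 0, .dia 0, .dia 0, .dia 0, .dia 0, .go 4 [0, 1, 2, 3, 4, 5, 6]] },
  { m := 7, L := [97, 25, 7], x := 1, cs := [.go 5 [0, 1, 2, 3, 4, 5, 6], .go 5 [0, 1, 2, 4, 3, 5, 6], .go 5 [0, 1, 2, 5, 6, 3, 4], .go 5 [0, 1, 2, 6, 5, 3, 4], .go 5 [0, 3, 4, 1, 2, 5, 6], .go 6 [0, 1, 2, 3, 4, 5, 6], .go 6 [0, 1, 2, 3, 4, 6, 5], .go 6 [0, 1, 2, 4, 3, 5, 6], .go 6 [0, 1, 2, 4, 3, 6, 5], .go 5 [0, 5, 6, 1, 2, 3, 4], .big, .big, .big, .big, .big, .big] },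
  { m := 7, L := [14, 97, 25, 7], x := 1, cs := [.dia 1, .dia 1, .dia 1, .dia 1, .dia 1, .dia 1, .dia 1, .dia 1, .dia 1, .dia 1, .big, .big, .big, .big, .big, .big] },
  { m := 7, L := [42, 97, 25, 7], x := 1, cs := [.dia 1, .dia 1, .dia 1, .dia 1, .dia 1, .dia 1, .dia 1, .dia 1, .go 7 [0, 1, 2, 3, 4, 5, 6], .dia 1, .big, .big, .big, .big, .big, .big] },
  { m := 7, L := [82, 42, 97, 25, 7], x := 3, cs := [.dia 3, .dia 3, .go 8 [0, 1, 2, 3, 4, 5, 6], .dia 3, .dia 3, .dia 3, .big, .big, .big, .big, .big] },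
  { m := 7, L := [76, 82, 42, 97, 25, 7], x := 2, cs := [.go 9 [0, 1, 2, 3, 4, 5, 6], .big, .big, .big] },
  { m := 7, L := [7, 25, 97, 42, 82, 76, 52], x := 7, cs := [] }]

theorem tab41_ok : checkTable th41 tab41 = true := by decide +kernel

theorem good41.{u} : Good.{u} th41 :=
  good_of_table _ tab41 tab41_ok (by decide +kernel) (by decide +kernel)

def th46 : Th := ⟨6, 4, 8, 17, true⟩

def tab46 : List Node := [
  { m := 3, L := [7], x := 0, cs := [.go 1 [0, 1, 2], .go 2 [0, 1, 2, 3], .go 2 [0, 2, 1, 3], .go 3 [0, 1, 2, 3, 4]] },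
  { m := 3, L := [7, 7], x := 0, cs := [.dia 0, .dia 0, .dia 0, .dia 0] },
  { m := 4, L := [11, 7], x := 0, cs := [.dia 0, .dia 0, .dia 0, .dia 0, .dia 0, .dia 0, .go 4 [0, 1, 2, 3, 4, 5]] },
  { m := 5, L := [25, 7], x := 0, cs := [.dia 0, .dia 0, .dia 0, .dia 0, .dia 0, .dia 0, .go 4 [0, 1, 2, 5, 3, 4], .go 4 [0, 2, 1, 5, 3, 4], .go 4 [0, 3, 4, 5, 1, 2], .go 4 [0, 4, 3, 5, 1, 2], .big] },
  { m := 6, L := [49, 11, 7], x := 1, cs := [.dia 1, .dia 1, .dia 1, .dia 1, .dia 1, .go 5 [0, 1, 2, 3, 4, 5], .big, .big, .big, .big, .big] },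
  { m := 6, L := [50, 49, 11, 7], x := 4, cs := [.go 6 [0, 1, 2, 3, 4, 5], .dia 4, .dia 4, .big, .big, .big, .big] },
  { m := 6, L := [28, 50, 49, 11, 7], x := 2, cs := [.go 7 [0, 1, 2, 3, 4, 5], .big, .big, .big] },
  { m := 6, L := [7, 11, 49, 50, 28, 44], x := 6, cs := [] }]

theorem tab46_ok : checkTable th46 tab46 = true := by decide +kernel

theorem good46.{u} : Good.{u} th46 :=
  good_of_table _ tab46 tab46_ok (by decide +kernel) (by decide +kernel)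

end R29.CB
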