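import Pool.Agent.R29.CB.Run
set_option linter.all false

/-! Certificate tables (generated). -/

namespace R29.CB

def th0 : Th := ⟨0, 0, 0, 16, false⟩

def tab0 : List Node := [
  { m := 3, L := [7], x := 0, cs := [.go 1 [0, 1, 2], .go 2 [0, 1, 2, 3], .go 2 [0, 2, 1, 3], .go 3 [0, 1, 2, 3, 4]] },
  { m := 3, L := [7, 7], x := 0, cs := [.dia 0, .dia 0, .dia 0, .dia 0] },
  { m := 4, L := [11, 7], x := 0, cs := [.dia 0, .dia 0, .dia 0, .dia 0, .dia 0, .dia 0, .dia 0] },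
  { m := 5, L := [25, 7], x := 0, cs := [.dia 0, .dia 0, .dia 0, .dia 0, .dia 0, .dia 0, .dia 0, .dia 0, .dia 0, .dia 0, .dia 0] }]

theorem tab0_ok : checkTable th0 tab0 = true := by decide +kernel

theorem good0.{u} : Good.{u} th0 :=
  good_of_table _ tab0 tab0_ok (by decide +kernel) (by decide +kernel)

def th1 : Th := ⟨0, 0, 0, 18, false⟩

def tab1 : List Node := [
  { m := 3, L := [7], x := 0, cs := [.go 1 [0, 1, 2], .go 2 [0, 1, 2, 3], .go 2 [0, 2, 1, 3], .go 3 [0, 1, 2, 3, 4]] },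
  { m := 3, L := [7, 7], x := 0, cs := [.dia 0, .dia 0, .dia 0, .dia 0] },
  { m := 4, L := [11, 7], x := 0, cs := [.dia 0, .dia 0, .dia 0, .dia 0, .dia 0, .dia 0, .dia 0] },
  { m := 5, L := [25, 7], x := 0, cs := [.dia 0, .dia 0, .dia 0, .dia 0, .dia 0, .dia 0, .dia 0, .dia 0, .dia 0, .dia 0, .dia 0] }]

theorem tab1_ok : checkTable th1 tab1 = true := by decide +kernel

theorem good1.{u} : Good.{u} th1 :=
  good_of_table _ tab1 tab1_ok (by decide +kernel) (by decide +kernel)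

def th2 : Th := ⟨0, 0, 0, 20, false⟩

def tab2 : List Node := [
  { m := 3, L := [7], x := 0, cs := [.go 1 [0, 1, 2], .go 2 [0, 1, 2, 3], .go 2 [0, 2, 1, 3], .go 3 [0, 1, 2, 3, 4]] },
  { m := 3, L := [7, 7], x := 0, cs := [.dia 0, .dia 0, .dia 0, .dia 0] },
  { m := 4, L := [11, 7], x := 0, cs := [.dia 0, .dia 0, .dia 0, .dia 0, .dia 0, .dia 0, .dia 0] },
  { m := 5, L := [25, 7], x := 0, cs := [.dia 0, .dia 0, .dia 0, .dia 0, .dia 0, .dia 0, .dia 0, .dia 0, .dia 0, .dia 0, .dia 0] }]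

theorem tab2_ok : checkTable th2 tab2 = true := by decide +kernel

theorem good2.{u} : Good.{u} th2 :=
  good_of_table _ tab2 tab2_ok (by decide +kernel) (by decide +kernel)

def th4 : Th := ⟨0, 0, 0, 22, false⟩

def tab4 : List Node := [
  { m := 3, L := [7], x := 0, cs := [.go 1 [0, 1, 2], .go 2 [0, 1, 2, 3], .go 2 [0, 2, 1, 3], .go 3 [0, 1, 2, 3, 4]] },
  { m := 3, L := [7, 7], x := 0, cs := [.dia 0, .dia 0, .dia 0, .dia 0] },
  { m := 4, L := [11, 7], x := 0, cs := [.dia 0, .dia 0, .dia 0, .dia 0, .dia 0, .dia 0, .dia 0] },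
  { m := 5, L := [25, 7], x := 0, cs := [.dia 0, .dia 0, .dia 0, .dia 0, .dia 0, .dia 0, .dia 0, .dia 0, .dia 0, .dia 0, .dia 0] }]

theorem tab4_ok : checkTable th4 tab4 = true := by decide +kernel

theorem good4.{u} : Good.{u} th4 :=
  good_of_table _ tab4 tab4_ok (by decide +kernel) (by decide +kernel)

def th6 : Th := ⟨0, 0, 0, 24, false⟩

def tab6 : List Node := [
  { m := 3, L := [7], x := 0, cs := [.go 1 [0, 1, 2], .go 2 [0, 1, 2, 3], .go 2 [0, 2, 1, 3], .go 3 [0, 1, 2, 3, 4]] },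
  { m := 3, L := [7, 7], x := 0, cs := [.dia 0, .dia 0, .dia 0, .dia 0] },
  { m := 4, L := [11, 7], x := 0, cs := [.dia 0, .dia 0, .dia 0, .dia 0, .dia 0, .dia 0, .dia 0] },
  { m := 5, L := [25, 7], x := 0, cs := [.dia 0, .dia 0, .dia 0, .dia 0, .dia 0, .dia 0, .dia 0, .dia 0, .dia 0, .dia 0, .dia 0] }]

theorem tab6_ok : checkTable th6 tab6 = true := by decide +kernel

theorem good6.{u} : Good.{u} th6 :=
  good_of_table _ tab6 tab6_ok (by decide +kernel) (by decide +kernel)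

def th7 : Th := ⟨0, 0, 0, 25, false⟩

def tab7 : List Node := [
  { m := 3, L := [7], x := 0, cs := [.go 1 [0, 1, 2], .go 2 [0, 1, 2, 3], .go 2 [0, 2, 1, 3], .go 3 [0, 1, 2, 3, 4]] },
  { m := 3, L := [7, 7], x := 0, cs := [.dia 0, .dia 0, .dia 0, .dia 0] },
  { m := 4, L := [11, 7], x := 0, cs := [.dia 0, .dia 0, .dia 0, .dia 0, .dia 0, .dia 0, .dia 0] },
  { m := 5, L := [25, 7], x := 0, cs := [.dia 0, .dia 0, .dia 0, .dia 0, .dia 0, .dia 0, .dia 0, .dia 0, .dia 0, .dia 0, .dia 0] }]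

theorem tab7_ok : checkTable th7 tab7 = true := by decide +kernel

theorem good7.{u} : Good.{u} th7 :=
  good_of_table _ tab7 tab7_ok (by decide +kernel) (by decide +kernel)

def th8 : Th := ⟨0, 0, 0, 26, false⟩

def tab8 : List Node := [
  { m := 3, L := [7], x := 0, cs := [.go 1 [0, 1, 2], .go 2 [0, 1, 2, 3], .go 2 [0, 2, 1, 3], .go 3 [0, 1, 2, 3, 4]] },
  { m := 3, L := [7, 7], x := 0, cs := [.dia 0, .dia 0, .dia 0, .dia 0] },
  { m := 4, L := [11, 7], x := 0, cs := [.dia 0, .dia 0, .dia 0, .dia 0, .dia 0, .dia 0, .dia 0] },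
  { m := 5, L := [25, 7], x := 0, cs := [.dia 0, .dia 0, .dia 0, .dia 0, .dia 0, .dia 0, .dia 0, .dia 0, .dia 0, .dia 0, .dia 0] }]

theorem tab8_ok : checkTable th8 tab8 = true := by decide +kernel

theorem good8.{u} : Good.{u} th8 :=
  good_of_table _ tab8 tab8_ok (by decide +kernel) (by decide +kernel)

def th9 : Th := ⟨0, 0, 0, 27, false⟩

def tab9 : List Node := [
  { m := 3, L := [7], x := 0, cs := [.go 1 [0, 1, 2], .go 2 [0, 1, 2, 3], .go 2 [0, 2, 1, 3], .go 3 [0, 1, 2, 3, 4]] },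
  { m := 3, L := [7, 7], x := 0, cs := [.go 4 [0, 1, 2], .dia 0, .dia 0, .dia 0] },
  { m := 4, L := [11, 7], x := 0, cs := [.dia 0, .dia 0, .dia 0, .dia 0, .dia 0, .dia 0, .dia 0] },
  { m := 5, L := [25, 7], x := 0, cs := [.dia 0, .dia 0, .dia 0, .dia 0, .dia 0, .dia 0, .dia 0, .dia 0, .dia 0, .dia 0, .dia 0] },
  { m := 3, L := [7, 7, 7], x := 3, cs := [] }]

theorem tab9_ok : checkTable th9 tab9 = true := by decide +kernel

theorem good9.{u} : Good.{u} th9 :=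
  good_of_table _ tab9 tab9_ok (by decide +kernel) (by decide +kernel)

def th10 : Th := ⟨6, 1, 12, 15, true⟩

def tab10 : List Node := [
  { m := 3, L := [7], x := 0, cs := [.go 1 [0, 1, 2], .go 2 [0, 1, 2, 3], .go 2 [0, 2, 1, 3], .go 3 [0, 1, 2, 3, 4]] },
  { m := 3, L := [7, 7], x := 0, cs := [.dia 0, .dia 0, .dia 0, .dia 0] },
  { m := 4, L := [11, 7], x := 0, cs := [.dia 0, .dia 0, .dia 0, .dia 0, .dia 0, .dia 0, .dia 0] },
  { m := 5, L := [25, 7], x := 0, cs := [.dia 0, .dia 0, .dia 0, .dia 0, .dia 0, .dia 0, .dia 0, .dia 0, .dia 0, .dia 0, .big] }]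

theorem tab10_ok : checkTable th10 tab10 = true := by decide +kernel

theorem good10.{u} : Good.{u} th10 :=
  good_of_table _ tab10 tab10_ok (by decide +kernel) (by decide +kernel)

def th17 : Th := ⟨37, 5, 1, 15, true⟩

def tab17 : List Node := [
  { m := 3, L := [7], x := 0, cs := [.go 1 [0, 1, 2], .go 2 [0, 1, 2, 3], .go 2 [0, 2, 1, 3], .go 3 [0, 1, 2, 3, 4]] },
  { m := 3, L := [7, 7], x := 0, cs := [.dia 0, .dia 0, .dia 0, .dia 0] },
  { m := 4, L := [11, 7], x := 0, cs := [.dia 0, .dia 0, .dia 0, .dia 0, .dia 0, .dia 0, .dia 0] },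
  { m := 5, L := [25, 7], x := 0, cs := [.dia 0, .dia 0, .dia 0, .dia 0, .dia 0, .dia 0, .dia 0, .dia 0, .dia 0, .dia 0, .go 4 [0, 1, 2, 3, 4, 5, 6]] },
  { m := 7, L := [97, 25, 7], x := 1, cs := [.gt 0 1, .gt 0 1, .gt 0 1, .gt 0 1, .gt 0 1, .gt 0 1, .gt 0 1, .gt 0 1, .gt 0 1, .gt 0 1, .gt 0 1, .gt 0 1, .gt 0 1, .gt 0 1, .gt 0 1, .go 5 [0, 1, 2, 3, 4, 5, 6, 7, 8]] },
  { m := 9, L := [386, 97, 25, 7], x := 1, cs := [.dia 1, .dia 1, .dia 1, .dia 1, .dia 1, .dia 1, .ne 0 1, .ne 0 1, .ne 0 1, .dia 1, .dia 1, .ne 0 1, .ne 0 1, .dia 1, .dia 1, .ne 0 1, .dia 1, .dia 1, .dia 1, .dia 1, .dia 1, .dia 1, .ne 0 1, .ne 0 1, .ne 0 1, .ne 0 1, .dia 1, .dia 1, .ne 0 1] }]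

theorem tab17_ok : checkTable th17 tab17 = true := by decide +kernel

theorem good17.{u} : Good.{u} th17 :=
  good_of_table _ tab17 tab17_ok (by decide +kernel) (by decide +kernel)

def th26 : Th := ⟨6, 6, 6, 15, true⟩

def tab26 : List Node := [
  { m := 3, L := [7], x := 0, cs := [.go 1 [0, 1, 2], .go 2 [0, 1, 2, 3], .go 2 [0, 2, 1, 3], .go 3 [0, 1, 2, 3, 4]] },
  { m := 3, L := [7, 7], x := 0, cs := [.dia 0, .dia 0, .dia 0, .dia 0] },
  { m := 4, L := [11, 7], x := 0, cs := [.dia 0, .dia 0, .dia 0, .dia 0, .dia 0, .dia 0, .dia 0] },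
  { m := 5, L := [25, 7], x := 0, cs := [.dia 0, .dia 0, .dia 0, .dia 0, .dia 0, .dia 0, .dia 0, .dia 0, .dia 0, .dia 0, .big] }]

theorem tab26_ok : checkTable th26 tab26 = true := by decide +kernel

theorem good26.{u} : Good.{u} th26 :=
  good_of_table _ tab26 tab26_ok (by decide +kernel) (by decide +kernel)

def th31 : Th := ⟨5, 7, 6, 15, true⟩

def tab31 : List Node := [
  { m := 3, L := [7], x := 0, cs := [.go 1 [0, 1, 2], .go 2 [0, 1, 2, 3], .go 2 [0, 2, 1, 3], .go 3 [0, 1, 2, 3, 4]] },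
  { m := 3, L := [7, 7], x := 0, cs := [.dia 0, .dia 0, .dia 0, .dia 0] },
  { m := 4, L := [11, 7], x := 0, cs := [.dia 0, .dia 0, .dia 0, .dia 0, .dia 0, .dia 0, .big] },
  { m := 5, L := [25, 7], x := 0, cs := [.dia 0, .dia 0, .dia 0, .dia 0, .dia 0, .dia 0, .big, .big, .big, .big, .big] }]

theorem tab31_ok : checkTable th31 tab31 = true := by decide +kernel

theorem good31.{u} : Good.{u} th31 :=
  good_of_table _ tab31 tab31_ok (by decide +kernel) (by decide +kernel)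

def th35 : Th := ⟨4, 8, 6, 15, true⟩

def tab35 : List Node := [
  { m := 3, L := [7], x := 0, cs := [.go 1 [0, 1, 2], .go 2 [0, 1, 2, 3], .go 2 [0, 2, 1, 3], .big] },
  { m := 3, L := [7, 7], x := 0, cs := [.dia 0, .dia 0, .dia 0, .big] },
  { m := 4, L := [11, 7], x := 0, cs := [.dia 0, .dia 0, .dia 0, .big, .big, .big, .big] }]

theorem tab35_ok : checkTable th35 tab35 = true := by decide +kernel

theorem good35.{u} : Good.{u} th35 :=
  good_of_table _ tab35 tab35_ok (by decide +kernel) (by decide +kernel)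

def th38 : Th := ⟨5, 9, 3, 15, true⟩

def tab38 : List Node := [
  { m := 3, L := [7], x := 0, cs := [.go 1 [0, 1, 2], .go 2 [0, 1, 2, 3], .go 2 [0, 2, 1, 3], .go 3 [0, 1, 2, 3, 4]] },
  { m := 3, L := [7, 7], x := 0, cs := [.dia 0, .dia 0, .dia 0, .dia 0] },
  { m := 4, L := [11, 7], x := 0, cs := [.dia 0, .dia 0, .dia 0, .dia 0, .dia 0, .dia 0, .big] },
  { m := 5, L := [25, 7], x := 0, cs := [.dia 0, .dia 0, .dia 0, .dia 0, .dia 0, .dia 0, .big, .big, .big, .big, .big] }]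

theorem tab38_ok : checkTable th38 tab38 = true := by decide +kernel

theorem good38.{u} : Good.{u} th38 :=
  good_of_table _ tab38 tab38_ok (by decide +kernel) (by decide +kernel)

def th39 : Th := ⟨4, 9, 4, 15, true⟩

def tab39 : List Node := [
  { m := 3, L := [7], x := 0, cs := [.go 1 [0, 1, 2], .go 2 [0, 1, 2, 3], .go 2 [0, 2, 1, 3], .big] },
  { m := 3, L := [7, 7], x := 0, cs := [.dia 0, .dia 0, .dia 0, .big] },
  { m := 4, L := [11, 7], x := 0, cs := [.dia 0, .dia 0, .dia 0, .big, .big, .big, .big] }]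

theorem tab39_ok : checkTable th39 tab39 = true := by decide +kernel

theorem good39.{u} : Good.{u} th39 :=
  good_of_table _ tab39 tab39_ok (by decide +kernel) (by decide +kernel)

def th40 : Th := ⟨3, 9, 6, 15, true⟩

def tab40 : List Node := [
  { m := 3, L := [7], x := 0, cs := [.go 1 [0, 1, 2], .big, .big, .big] },
  { m := 3, L := [7, 7], x := 0, cs := [.dia 0, .big, .big, .big] }]

theorem tab40_ok : checkTable th40 tab40 = true := by decide +kernel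

theorem good40.{u} : Good.{u} th40 :=
  good_of_table _ tab40 tab40_ok (by decide +kernel) (by decide +kernel)

def th42 : Th := ⟨4, 10, 2, 15, true⟩

def tab42 : List Node := [
  { m := 3, L := [7], x := 0, cs := [.go 1 [0, 1, 2], .go 2 [0, 1, 2, 3], .go 2 [0, 2, 1, 3], .big] },
  { m := 3, L := [7, 7], x := 0, cs := [.dia 0, .dia 0, .dia 0, .big] },
  { m := 4, L := [11, 7], x := 0, cs := [.dia 0, .dia 0, .dia 0, .big, .big, .big, .big] }]

theorem tab42_ok : checkTable th42 tab42 = true := by decide +kernel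

theorem good42.{u} : Good.{u} th42 :=
  good_of_table _ tab42 tab42_ok (by decide +kernel) (by decide +kernel)

def th43 : Th := ⟨3, 10, 3, 15, true⟩

def tab43 : List Node := [
  { m := 3, L := [7], x := 0, cs := [.go 1 [0, 1, 2], .big, .big, .big] },
  { m := 3, L := [7, 7], x := 0, cs := [.dia 0, .big, .big, .big] }]

theorem tab43_ok : checkTable th43 tab43 = true := by decide +kernel

theorem good43.{u} : Good.{u} th43 :=
  good_of_table _ tab43 tab43_ok (by decide +kernel) (by decide +kernel)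

def th47 : Th := ⟨18, 5, 2, 17, true⟩

def tab47 : List Node := [
  { m := 3, L := [7], x := 0, cs := [.go 1 [0, 1, 2], .go 2 [0, 1, 2, 3], .go 2 [0, 2, 1, 3], .go 3 [0, 1, 2, 3, 4]] },
  { m := 3, L := [7, 7], x := 0, cs := [.dia 0, .dia 0, .dia 0, .dia 0] },
  { m := 4, L := [11, 7], x := 0, cs := [.dia 0, .dia 0, .dia 0, .dia 0, .dia 0, .dia 0, .go 4 [0, 1, 2, 3, 4, 5]] },
  { m := 5, L := [25, 7], x := 0, cs := [.dia 0, .dia 0, .dia 0, .dia 0, .dia 0, .dia 0, .go 4 [0, 1, 2, 5, 3, 4], .go 4 [0, 2, 1, 5, 3, 4], .go 4 [0, 3, 4, 5, 1, 2], .go 4 [0, 4, 3, 5, 1, 2], .dia 0] },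
  { m := 6, L := [49, 11, 7], x := 1, cs := [.dia 1, .dia 1, .dia 1, .dia 1, .dia 1, .ne 0 1, .dia 1, .dia 1, .ne 0 1, .ne 0 1, .ne 0 1] }]

theorem tab47_ok : checkTable th47 tab47 = true := by decide +kernel

theorem good47.{u} : Good.{u} th47 :=
  good_of_table _ tab47 tab47_ok (by decide +kernel) (by decide +kernel)

def th48 : Th := ⟨29, 6, 1, 17, true⟩

def tab48 : List Node := [
  { m := 3, L := [7], x := 0, cs := [.go 1 [0, 1, 2], .go 2 [0, 1, 2, 3], .go 2 [0, 2, 1, 3], .go 3 [0, 1, 2, 3, 4]] },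
  { m := 3, L := [7, 7], x := 0, cs := [.dia 0, .dia 0, .dia 0, .dia 0] },
  { m := 4, L := [11, 7], x := 0, cs := [.dia 0, .dia 0, .dia 0, .dia 0, .dia 0, .dia 0, .go 4 [0, 1, 2, 3, 4, 5]] },
  { m := 5, L := [25, 7], x := 0, cs := [.dia 0, .dia 0, .dia 0, .dia 0, .dia 0, .dia 0, .go 4 [0, 1, 2, 5, 3, 4], .go 4 [0, 2, 1, 5, 3, 4], .go 4 [0, 3, 4, 5, 1, 2], .go 4 [0, 4, 3, 5, 1, 2], .dia 0] },
  { m := 6, L := [49, 11, 7], x := 1, cs := [.dia 1, .dia 1, .dia 1, .dia 1, .dia 1, .ne 0 1, .dia 1, .dia 1, .ne 0 1, .ne 0 1, .ne 0 1] }]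

theorem tab48_ok : checkTable th48 tab48 = true := by decide +kernel

theorem good48.{u} : Good.{u} th48 :=
  good_of_table _ tab48 tab48_ok (by decide +kernel) (by decide +kernel)

def th50 : Th := ⟨8, 6, 4, 17, true⟩

def tab50 : List Node := [
  { m := 3, L := [7], x := 0, cs := [.go 1 [0, 1, 2], .go 2 [0, 1, 2, 3], .go 2 [0, 2, 1, 3], .go 3 [0, 1, 2, 3, 4]] },
  { m := 3, L := [7, 7], x := 0, cs := [.dia 0, .dia 0, .dia 0, .dia 0] },
  { m := 4, L := [11, 7], x := 0, cs := [.dia 0, .dia 0, .dia 0, .dia 0, .dia 0, .dia 0, .go 4 [0, 1, 2, 3, 4, 5]] },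
  { m := 5, L := [25, 7], x := 0, cs := [.dia 0, .dia 0, .dia 0, .dia 0, .dia 0, .dia 0, .go 4 [0, 1, 2, 5, 3, 4], .go 4 [0, 2, 1, 5, 3, 4], .go 4 [0, 3, 4, 5, 1, 2], .go 4 [0, 4, 3, 5, 1, 2], .dia 0] },
  { m := 6, L := [49, 11, 7], x := 1, cs := [.dia 1, .dia 1, .dia 1, .dia 1, .dia 1, .go 5 [0, 1, 2, 3, 4, 5], .dia 1, .dia 1, .ne 0 1, .ne 0 1, .ne 0 1] },
  { m := 6, L := [50, 49, 11, 7], x := 4, cs := [.ne 0 4, .dia 4, .dia 4, .ne 0 4, .ne 0 4, .dia 4, .go 6 [0, 1, 2, 3, 4, 5, 6, 7]] },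
  { m := 8, L := [208, 50, 49, 11, 7], x := 5, cs := [.ne 0 5, .ne 0 5, .ne 0 5, .ne 0 5, .ne 0 5, .go 7 [0, 1, 2, 3, 4, 5, 6, 7], .big, .big, .big, .big, .big] },
  { m := 8, L := [224, 208, 50, 49, 11, 7], x := 6, cs := [.go 8 [0, 1, 2, 3, 4, 5, 6, 7], .dia 6, .dia 6, .big, .big, .big, .big] },
  { m := 8, L := [76, 224, 208, 50, 49, 11, 7], x := 2, cs := [.go 9 [0, 1, 2, 3, 4, 5, 6, 7], .big, .big, .big] },
  { m := 8, L := [7, 11, 49, 50, 76, 140, 208, 224], x := 8, cs := [] }]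

theorem tab50_ok : checkTable th50 tab50 = true := by decide +kernel

theorem good50.{u} : Good.{u} th50 :=
  good_of_table _ tab50 tab50_ok (by decide +kernel) (by decide +kernel)

def th51 : Th := ⟨5, 6, 7, 17, true⟩

def tab51 : List Node := [
  { m := 3, L := [7], x := 0, cs := [.go 1 [0, 1, 2], .go 2 [0, 1, 2, 3], .go 2 [0, 2, 1, 3], .go 3 [0, 1, 2, 3, 4]] },
  { m := 3, L := [7, 7], x := 0, cs := [.dia 0, .dia 0, .dia 0, .dia 0] },
  { m := 4, L := [11, 7], x := 0, cs := [.dia 0, .dia 0, .dia 0, .dia 0, .dia 0, .dia 0, .big] },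
  { m := 5, L := [25, 7], x := 0, cs := [.dia 0, .dia 0, .dia 0, .dia 0, .dia 0, .dia 0, .big, .big, .big, .big, .big] }]

theorem tab51_ok : checkTable th51 tab51 = true := by decide +kernel

theorem good51.{u} : Good.{u} th51 :=
  good_of_table _ tab51 tab51_ok (by decide +kernel) (by decide +kernel)

def th52 : Th := ⟨23, 7, 1, 17, true⟩

def tab52 : List Node := [
  { m := 3, L := [7], x := 0, cs := [.go 1 [0, 1, 2], .go 2 [0, 1, 2, 3], .go 2 [0, 2, 1, 3], .go 3 [0, 1, 2, 3, 4]] },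
  { m := 3, L := [7, 7], x := 0, cs := [.dia 0, .dia 0, .dia 0, .dia 0] },
  { m := 4, L := [11, 7], x := 0, cs := [.dia 0, .dia 0, .dia 0, .dia 0, .dia 0, .dia 0, .go 4 [0, 1, 2, 3, 4, 5]] },
  { m := 5, L := [25, 7], x := 0, cs := [.dia 0, .dia 0, .dia 0, .dia 0, .dia 0, .dia 0, .go 4 [0, 1, 2, 5, 3, 4], .go 4 [0, 2, 1, 5, 3, 4], .go 4 [0, 3, 4, 5, 1, 2], .go 4 [0, 4, 3, 5, 1, 2], .dia 0] },
  { m := 6, L := [49, 11, 7], x := 1, cs := [.dia 1, .dia 1, .dia 1, .dia 1, .dia 1, .ne 0 1, .dia 1, .dia 1, .gt 0 6, .gt 0 6, .ne 0 1] }]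

theorem tab52_ok : checkTable th52 tab52 = true := by decide +kernel

theorem good52.{u} : Good.{u} th52 :=
  good_of_table _ tab52 tab52_ok (by decide +kernel) (by decide +kernel)

def th53 : Th := ⟨12, 7, 2, 17, true⟩

def tab53 : List Node := [
  { m := 3, L := [7], x := 0, cs := [.go 1 [0, 1, 2], .go 2 [0, 1, 2, 3], .go 2 [0, 2, 1, 3], .go 3 [0, 1, 2, 3, 4]] },
  { m := 3, L := [7, 7], x := 0, cs := [.dia 0, .dia 0, .dia 0, .dia 0] },
  { m := 4, L := [11, 7], x := 0, cs := [.dia 0, .dia 0, .dia 0, .dia 0, .dia 0, .dia 0, .go 4 [0, 1, 2, 3, 4, 5]] },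
  { m := 5, L := [25, 7], x := 0, cs := [.dia 0, .dia 0, .dia 0, .dia 0, .dia 0, .dia 0, .go 4 [0, 1, 2, 5, 3, 4], .go 4 [0, 2, 1, 5, 3, 4], .go 4 [0, 3, 4, 5, 1, 2], .go 4 [0, 4, 3, 5, 1, 2], .dia 0] },
  { m := 6, L := [49, 11, 7], x := 1, cs := [.dia 1, .dia 1, .dia 1, .dia 1, .dia 1, .go 5 [0, 1, 2, 3, 4, 5], .dia 1, .dia 1, .ne 0 1, .ne 0 1, .ne 0 1] },
  { m := 6, L := [50, 49, 11, 7], x := 4, cs := [.ne 0 4, .dia 4, .dia 4, .ne 0 4, .ne 0 4, .dia 4, .ne 0 4] }]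

theorem tab53_ok : checkTable th53 tab53 = true := by decide +kernel

theorem good53.{u} : Good.{u} th53 :=
  good_of_table _ tab53 tab53_ok (by decide +kernel) (by decide +kernel)

def th54 : Th := ⟨17, 8, 1, 17, true⟩

def tab54 : List Node := [
  { m := 3, L := [7], x := 0, cs := [.go 1 [0, 1, 2], .go 2 [0, 1, 2, 3], .go 2 [0, 2, 1, 3], .go 3 [0, 1, 2, 3, 4]] },
  { m := 3, L := [7, 7], x := 0, cs := [.dia 0, .dia 0, .dia 0, .dia 0] },
  { m := 4, L := [11, 7], x := 0, cs := [.dia 0, .dia 0, .dia 0, .dia 0, .dia 0, .dia 0, .go 4 [0, 1, 2, 3, 4, 5]] },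
  { m := 5, L := [25, 7], x := 0, cs := [.dia 0, .dia 0, .dia 0, .dia 0, .dia 0, .dia 0, .go 4 [0, 1, 2, 5, 3, 4], .go 4 [0, 2, 1, 5, 3, 4], .go 4 [0, 3, 4, 5, 1, 2], .go 4 [0, 4, 3, 5, 1, 2], .dia 0] },
  { m := 6, L := [49, 11, 7], x := 1, cs := [.dia 1, .dia 1, .dia 1, .dia 1, .dia 1, .ne 0 1, .dia 1, .dia 1, .ne 0 1, .ne 0 1, .ne 0 1] }]

theorem tab54_ok : checkTable th54 tab54 = true := by decide +kernel

theorem good54.{u} : Good.{u} th54 :=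
  good_of_table _ tab54 tab54_ok (by decide +kernel) (by decide +kernel)

def th55 : Th := ⟨9, 8, 2, 17, true⟩

def tab55 : List Node := [
  { m := 3, L := [7], x := 0, cs := [.go 1 [0, 1, 2], .go 2 [0, 1, 2, 3], .go 2 [0, 2, 1, 3], .go 3 [0, 1, 2, 3, 4]] },
  { m := 3, L := [7, 7], x := 0, cs := [.dia 0, .dia 0, .dia 0, .dia 0] },
  { m := 4, L := [11, 7], x := 0, cs := [.dia 0, .dia 0, .dia 0, .dia 0, .dia 0, .dia 0, .go 4 [0, 1, 2, 3, 4, 5]] },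
  { m := 5, L := [25, 7], x := 0, cs := [.dia 0, .dia 0, .dia 0, .dia 0, .dia 0, .dia 0, .go 4 [0, 1, 2, 5, 3, 4], .go 4 [0, 2, 1, 5, 3, 4], .go 4 [0, 3, 4, 5, 1, 2], .go 4 [0, 4, 3, 5, 1, 2], .dia 0] },
  { m := 6, L := [49, 11, 7], x := 1, cs := [.dia 1, .dia 1, .dia 1, .dia 1, .dia 1, .ne 0 1, .dia 1, .dia 1, .ne 0 1, .ne 0 1, .ne 0 1] }]

theorem tab55_ok : checkTable th55 tab55 = true := by decide +kernel

theorem good55.{u} : Good.{u} th55 :=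
  good_of_table _ tab55 tab55_ok (by decide +kernel) (by decide +kernel)

def th56 : Th := ⟨5, 8, 4, 17, true⟩

def tab56 : List Node := [
  { m := 3, L := [7], x := 0, cs := [.go 1 [0, 1, 2], .go 2 [0, 1, 2, 3], .go 2 [0, 2, 1, 3], .go 3 [0, 1, 2, 3, 4]] },
  { m := 3, L := [7, 7], x := 0, cs := [.dia 0, .dia 0, .dia 0, .dia 0] },
  { m := 4, L := [11, 7], x := 0, cs := [.dia 0, .dia 0, .dia 0, .dia 0, .dia 0, .dia 0, .big] },
  { m := 5, L := [25, 7], x := 0, cs := [.dia 0, .dia 0, .dia 0, .dia 0, .dia 0, .dia 0, .big, .big, .big, .big, .big] }]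

theorem tab56_ok : checkTable th56 tab56 = true := by decide +kernel

theorem good56.{u} : Good.{u} th56 :=
  good_of_table _ tab56 tab56_ok (by decide +kernel) (by decide +kernel)

def th57 : Th := ⟨3, 8, 8, 17, true⟩

def tab57 : List Node := [
  { m := 3, L := [7], x := 0, cs := [.go 1 [0, 1, 2], .big, .big, .big] },
  { m := 3, L := [7, 7], x := 0, cs := [.dia 0, .big, .big, .big] }]

theorem tab57_ok : checkTable th57 tab57 = true := by decide +kernel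

theorem good57.{u} : Good.{u} th57 :=
  good_of_table _ tab57 tab57_ok (by decide +kernel) (by decide +kernel)

def th58 : Th := ⟨11, 9, 1, 17, true⟩

def tab58 : List Node := [
  { m := 3, L := [7], x := 0, cs := [.go 1 [0, 1, 2], .go 2 [0, 1, 2, 3], .go 2 [0, 2, 1, 3], .go 3 [0, 1, 2, 3, 4]] },
  { m := 3, L := [7, 7], x := 0, cs := [.dia 0, .dia 0, .dia 0, .dia 0] },
  { m := 4, L := [11, 7], x := 0, cs := [.dia 0, .dia 0, .dia 0, .dia 0, .dia 0, .dia 0, .go 4 [0, 1, 2, 3, 4, 5]] },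
  { m := 5, L := [25, 7], x := 0, cs := [.dia 0, .dia 0, .dia 0, .dia 0, .dia 0, .dia 0, .go 4 [0, 1, 2, 5, 3, 4], .go 4 [0, 2, 1, 5, 3, 4], .go 4 [0, 3, 4, 5, 1, 2], .go 4 [0, 4, 3, 5, 1, 2], .dia 0] },
  { m := 6, L := [49, 11, 7], x := 1, cs := [.dia 1, .dia 1, .dia 1, .dia 1, .dia 1, .ne 0 1, .dia 1, .dia 1, .ne 0 1, .ne 0 1, .ne 0 1] }]

theorem tab58_ok : checkTable th58 tab58 = true := by decide +kernel

theorem good58.{u} : Good.{u} th58 :=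
  good_of_table _ tab58 tab58_ok (by decide +kernel) (by decide +kernel)

def th59 : Th := ⟨6, 9, 2, 17, true⟩

def tab59 : List Node := [
  { m := 3, L := [7], x := 0, cs := [.go 1 [0, 1, 2], .go 2 [0, 1, 2, 3], .go 2 [0, 2, 1, 3], .go 3 [0, 1, 2, 3, 4]] },
  { m := 3, L := [7, 7], x := 0, cs := [.dia 0, .dia 0, .dia 0, .dia 0] },
  { m := 4, L := [11, 7], x := 0, cs := [.dia 0, .dia 0, .dia 0, .dia 0, .dia 0, .dia 0, .go 4 [0, 1, 2, 3, 4, 5]] },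
  { m := 5, L := [25, 7], x := 0, cs := [.dia 0, .dia 0, .dia 0, .dia 0, .dia 0, .dia 0, .go 4 [0, 1, 2, 5, 3, 4], .go 4 [0, 2, 1, 5, 3, 4], .go 4 [0, 3, 4, 5, 1, 2], .go 4 [0, 4, 3, 5, 1, 2], .big] },
  { m := 6, L := [49, 11, 7], x := 1, cs := [.dia 1, .dia 1, .dia 1, .dia 1, .dia 1, .ne 0 1, .big, .big, .big, .big, .big] }]

theorem tab59_ok : checkTable th59 tab59 = true := by decide +kernel

theorem good59.{u} : Good.{u} th59 :=
  good_of_table _ tab59 tab59_ok (by decide +kernel) (by decide +kernel)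

def th60 : Th := ⟨3, 9, 5, 17, true⟩

def tab60 : List Node := [
  { m := 3, L := [7], x := 0, cs := [.go 1 [0, 1, 2], .big, .big, .big] },
  { m := 3, L := [7, 7], x := 0, cs := [.dia 0, .big, .big, .big] }]

theorem tab60_ok : checkTable th60 tab60 = true := by decide +kernel

theorem good60.{u} : Good.{u} th60 :=
  good_of_table _ tab60 tab60_ok (by decide +kernel) (by decide +kernel)

def th62 : Th := ⟨5, 10, 1, 17, true⟩

def tab62 : List Node := [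
  { m := 3, L := [7], x := 0, cs := [.go 1 [0, 1, 2], .go 2 [0, 1, 2, 3], .go 2 [0, 2, 1, 3], .go 3 [0, 1, 2, 3, 4]] },
  { m := 3, L := [7, 7], x := 0, cs := [.dia 0, .dia 0, .dia 0, .dia 0] },
  { m := 4, L := [11, 7], x := 0, cs := [.dia 0, .dia 0, .dia 0, .dia 0, .dia 0, .dia 0, .big] },
  { m := 5, L := [25, 7], x := 0, cs := [.dia 0, .dia 0, .dia 0, .dia 0, .dia 0, .dia 0, .big, .big, .big, .big, .big] }]

theorem tab62_ok : checkTable th62 tab62 = true := by decide +kernel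

theorem good62.{u} : Good.{u} th62 :=
  good_of_table _ tab62 tab62_ok (by decide +kernel) (by decide +kernel)

def th64 : Th := ⟨2, 10, 4, 17, true⟩

def tab64 : List Node := [
  { m := 3, L := [7], x := 0, cs := [.big, .big, .big, .big] }]

theorem tab64_ok : checkTable th64 tab64 = true := by decide +kernel

theorem good64.{u} : Good.{u} th64 :=
  good_of_table _ tab64 tab64_ok (by decide +kernel) (by decide +kernel)

def th65 : Th := ⟨5, 3, 11, 19, true⟩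

def tab65 : List Node := [
  { m := 3, L := [7], x := 0, cs := [.go 1 [0, 1, 2], .go 2 [0, 1, 2, 3], .go 2 [0, 2, 1, 3], .go 3 [0, 1, 2, 3, 4]] },
  { m := 3, L := [7, 7], x := 0, cs := [.dia 0, .dia 0, .dia 0, .go 4 [0, 1, 2, 3, 4]] },
  { m := 4, L := [11, 7], x := 0, cs := [.dia 0, .dia 0, .dia 0, .dia 0, .go 5 [0, 1, 2, 3, 4], .go 5 [0, 1, 3, 2, 4], .big] },
  { m := 5, L := [25, 7], x := 0, cs := [.go 4 [0, 1, 2, 3, 4], .go 5 [0, 1, 3, 2, 4], .go 5 [0, 1, 4, 2, 3], .go 5 [0, 2, 3, 1, 4], .go 5 [0, 2, 4, 1, 3], .go 4 [0, 3, 4, 1, 2], .big, .big, .big, .big, .big] },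
  { m := 5, L := [25, 7, 7], x := 1, cs := [.dia 1, .dia 1, .ne 0 1, .big, .big, .big, .big] },
  { m := 5, L := [21, 11, 7], x := 1, cs := [.dia 1, .dia 2, .go 6 [0, 1, 2, 3, 4], .big, .big, .big, .big] },
  { m := 5, L := [26, 21, 11, 7], x := 2, cs := [.go 7 [0, 1, 2, 3, 4], .big, .big, .big] },
  { m := 5, L := [7, 11, 21, 26, 28], x := 5, cs := [] }]

theorem tab65_ok : checkTable th65 tab65 = true := by decide +kernel

theorem good65.{u} : Good.{u} th65 :=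
  good_of_table _ tab65 tab65_ok (by decide +kernel) (by decide +kernel)

def th66 : Th := ⟨9, 5, 4, 19, true⟩

def tab66 : List Node := [
  { m := 3, L := [7], x := 0, cs := [.go 1 [0, 1, 2], .go 2 [0, 1, 2, 3], .go 2 [0, 2, 1, 3], .go 3 [0, 1, 2, 3, 4]] },
  { m := 3, L := [7, 7], x := 0, cs := [.dia 0, .dia 0, .dia 0, .go 4 [0, 1, 2, 3, 4]] },
  { m := 4, L := [11, 7], x := 0, cs := [.dia 0, .dia 0, .dia 0, .dia 0, .go 5 [0, 1, 2, 3, 4], .go 5 [0, 1, 3, 2, 4], .dia 0] },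
  { m := 5, L := [25, 7], x := 0, cs := [.go 4 [0, 1, 2, 3, 4], .go 5 [0, 1, 3, 2, 4], .go 5 [0, 1, 4, 2, 3], .go 5 [0, 2, 3, 1, 4], .go 5 [0, 2, 4, 1, 3], .go 4 [0, 3, 4, 1, 2], .dia 0, .dia 0, .dia 0, .dia 0, .dia 0] },
  { m := 5, L := [25, 7, 7], x := 1, cs := [.dia 1, .dia 1, .ne 0 1, .dia 1, .ne 0 1, .ne 0 1, .ne 0 1] },
  { m := 5, L := [21, 11, 7], x := 1, cs := [.dia 1, .dia 2, .ne 0 1, .ne 0 1, .ne 0 1, .dia 1, .dia 1] }]

theorem tab66_ok : checkTable th66 tab66 = true := by decide +kernel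

theorem good66.{u} : Good.{u} th66 :=
  good_of_table _ tab66 tab66_ok (by decide +kernel) (by decide +kernel)

def th67 : Th := ⟨5, 5, 8, 19, true⟩

def tab67 : List Node := [
  { m := 3, L := [7], x := 0, cs := [.go 1 [0, 1, 2], .go 2 [0, 1, 2, 3], .go 2 [0, 2, 1, 3], .go 3 [0, 1, 2, 3, 4]] },
  { m := 3, L := [7, 7], x := 0, cs := [.dia 0, .dia 0, .dia 0, .go 4 [0, 1, 2, 3, 4]] },
  { m := 4, L := [11, 7], x := 0, cs := [.dia 0, .dia 0, .dia 0, .dia 0, .go 5 [0, 1, 2, 3, 4], .go 5 [0, 1, 3, 2, 4], .big] },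
  { m := 5, L := [25, 7], x := 0, cs := [.go 4 [0, 1, 2, 3, 4], .go 5 [0, 1, 3, 2, 4], .go 5 [0, 1, 4, 2, 3], .go 5 [0, 2, 3, 1, 4], .go 5 [0, 2, 4, 1, 3], .go 4 [0, 3, 4, 1, 2], .big, .big, .big, .big, .big] },
  { m := 5, L := [25, 7, 7], x := 1, cs := [.dia 1, .dia 1, .go 6 [0, 1, 2, 3, 4], .big, .big, .big, .big] },
  { m := 5, L := [21, 11, 7], x := 1, cs := [.dia 1, .dia 2, .ne 0 1, .big, .big, .big, .big] },
  { m := 5, L := [26, 25, 7, 7], x := 2, cs := [.dia 3, .big, .big, .big] }]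

theorem tab67_ok : checkTable th67 tab67 = true := by decide +kernel

theorem good67.{u} : Good.{u} th67 :=
  good_of_table _ tab67 tab67_ok (by decide +kernel) (by decide +kernel)

def th68 : Th := ⟨27, 6, 1, 19, true⟩

def tab68 : List Node := [
  { m := 3, L := [7], x := 0, cs := [.go 1 [0, 1, 2], .go 2 [0, 1, 2, 3], .go 2 [0, 2, 1, 3], .go 3 [0, 1, 2, 3, 4]] },
  { m := 3, L := [7, 7], x := 0, cs := [.dia 0, .dia 0, .dia 0, .gt 0 1] },
  { m := 4, L := [11, 7], x := 0, cs := [.dia 0, .dia 0, .dia 0, .dia 0, .go 4 [0, 1, 2, 3, 4], .go 4 [0, 1, 3, 2, 4], .dia 0] },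
  { m := 5, L := [25, 7], x := 0, cs := [.gt 0 1, .go 4 [0, 1, 3, 2, 4], .go 4 [0, 1, 4, 2, 3], .go 4 [0, 2, 3, 1, 4], .go 4 [0, 2, 4, 1, 3], .gt 0 3, .dia 0, .dia 0, .dia 0, .dia 0, .dia 0] },
  { m := 5, L := [21, 11, 7], x := 1, cs := [.dia 1, .dia 2, .ne 0 1, .ne 0 1, .ne 0 1, .dia 1, .dia 1] }]

theorem tab68_ok : checkTable th68 tab68 = true := by decide +kernel

theorem good68.{u} : Good.{u} th68 :=
  good_of_table _ tab68 tab68_ok (by decide +kernel) (by decide +kernel)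

def th69 : Th := ⟨14, 6, 2, 19, true⟩

def tab69 : List Node := [
  { m := 3, L := [7], x := 0, cs := [.go 1 [0, 1, 2], .go 2 [0, 1, 2, 3], .go 2 [0, 2, 1, 3], .go 3 [0, 1, 2, 3, 4]] },
  { m := 3, L := [7, 7], x := 0, cs := [.dia 0, .dia 0, .dia 0, .go 4 [0, 1, 2, 3, 4]] },
  { m := 4, L := [11, 7], x := 0, cs := [.dia 0, .dia 0, .dia 0, .dia 0, .go 5 [0, 1, 2, 3, 4], .go 5 [0, 1, 3, 2, 4], .dia 0] },
  { m := 5, L := [25, 7], x := 0, cs := [.go 4 [0, 1, 2, 3, 4], .go 5 [0, 1, 3, 2, 4], .go 5 [0, 1, 4, 2, 3], .go 5 [0, 2, 3, 1, 4], .go 5 [0, 2, 4, 1, 3], .go 4 [0, 3, 4, 1, 2], .dia 0, .dia 0, .dia 0, .dia 0, .dia 0] },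
  { m := 5, L := [25, 7, 7], x := 1, cs := [.dia 1, .dia 1, .ne 0 1, .dia 1, .ne 0 1, .ne 0 1, .ne 0 1] },
  { m := 5, L := [21, 11, 7], x := 1, cs := [.dia 1, .dia 2, .ne 0 1, .ne 0 1, .ne 0 1, .dia 1, .dia 1] }]

theorem tab69_ok : checkTable th69 tab69 = true := by decide +kernel

theorem good69.{u} : Good.{u} th69 :=
  good_of_table _ tab69 tab69_ok (by decide +kernel) (by decide +kernel)

def th70 : Th := ⟨21, 7, 1, 19, true⟩

def tab70 : List Node := [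
  { m := 3, L := [7], x := 0, cs := [.go 1 [0, 1, 2], .go 2 [0, 1, 2, 3], .go 2 [0, 2, 1, 3], .go 3 [0, 1, 2, 3, 4]] },
  { m := 3, L := [7, 7], x := 0, cs := [.dia 0, .dia 0, .dia 0, .go 4 [0, 1, 2, 3, 4]] },
  { m := 4, L := [11, 7], x := 0, cs := [.dia 0, .dia 0, .dia 0, .dia 0, .go 5 [0, 1, 2, 3, 4], .go 5 [0, 1, 3, 2, 4], .dia 0] },
  { m := 5, L := [25, 7], x := 0, cs := [.go 4 [0, 1, 2, 3, 4], .go 5 [0, 1, 3, 2, 4], .go 5 [0, 1, 4, 2, 3], .go 5 [0, 2, 3, 1, 4], .go 5 [0, 2, 4, 1, 3], .go 4 [0, 3, 4, 1, 2], .dia 0, .dia 0, .dia 0, .dia 0, .dia 0] },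
  { m := 5, L := [25, 7, 7], x := 1, cs := [.dia 1, .dia 1, .ne 0 1, .dia 1, .ne 0 1, .ne 0 1, .ne 0 1] },
  { m := 5, L := [21, 11, 7], x := 1, cs := [.dia 1, .dia 2, .ne 0 1, .ne 0 1, .ne 0 1, .dia 1, .dia 1] }]

theorem tab70_ok : checkTable th70 tab70 = true := by decide +kernel

theorem good70.{u} : Good.{u} th70 :=
  good_of_table _ tab70 tab70_ok (by decide +kernel) (by decide +kernel)

def th72 : Th := ⟨6, 7, 4, 19, true⟩

def tab72 : List Node := [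
  { m := 3, L := [7], x := 0, cs := [.go 1 [0, 1, 2], .go 2 [0, 1, 2, 3], .go 2 [0, 2, 1, 3], .go 3 [0, 1, 2, 3, 4]] },
  { m := 3, L := [7, 7], x := 0, cs := [.dia 0, .dia 0, .dia 0, .go 4 [0, 1, 2, 3, 4]] },
  { m := 4, L := [11, 7], x := 0, cs := [.dia 0, .dia 0, .dia 0, .dia 0, .go 5 [0, 1, 2, 3, 4], .go 5 [0, 1, 3, 2, 4], .dia 0] },
  { m := 5, L := [25, 7], x := 0, cs := [.go 4 [0, 1, 2, 3, 4], .go 5 [0, 1, 3, 2, 4], .go 5 [0, 1, 4, 2, 3], .go 5 [0, 2, 3, 1, 4], .go 5 [0, 2, 4, 1, 3], .go 4 [0, 3, 4, 1, 2], .dia 0, .dia 0, .dia 0, .dia 0, .big] },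
  { m := 5, L := [25, 7, 7], x := 1, cs := [.dia 1, .dia 1, .go 6 [0, 1, 2, 3, 4], .dia 1, .ne 0 1, .ne 0 1, .big] },
  { m := 5, L := [21, 11, 7], x := 1, cs := [.dia 1, .dia 2, .ne 0 1, .ne 0 1, .ne 0 1, .dia 1, .big] },
  { m := 5, L := [26, 25, 7, 7], x := 2, cs := [.dia 3, .dia 3, .dia 4, .big] }]

theorem tab72_ok : checkTable th72 tab72 = true := by decide +kernel

theorem good72.{u} : Good.{u} th72 :=
  good_of_table _ tab72 tab72_ok (by decide +kernel) (by decide +kernel)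

def th73 : Th := ⟨5, 7, 5, 19, true⟩

def tab73 : List Node := [
  { m := 3, L := [7], x := 0, cs := [.go 1 [0, 1, 2], .go 2 [0, 1, 2, 3], .go 2 [0, 2, 1, 3], .go 3 [0, 1, 2, 3, 4]] },
  { m := 3, L := [7, 7], x := 0, cs := [.dia 0, .dia 0, .dia 0, .go 4 [0, 1, 2, 3, 4]] },
  { m := 4, L := [11, 7], x := 0, cs := [.dia 0, .dia 0, .dia 0, .dia 0, .go 5 [0, 1, 2, 3, 4], .go 5 [0, 1, 3, 2, 4], .big] },
  { m := 5, L := [25, 7], x := 0, cs := [.go 4 [0, 1, 2, 3, 4], .go 5 [0, 1, 3, 2, 4], .go 5 [0, 1, 4, 2, 3], .go 5 [0, 2, 3, 1, 4], .go 5 [0, 2, 4, 1, 3], .go 4 [0, 3, 4, 1, 2], .big, .big, .big, .big, .big] },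
  { m := 5, L := [25, 7, 7], x := 1, cs := [.dia 1, .dia 1, .ne 0 1, .big, .big, .big, .big] },
  { m := 5, L := [21, 11, 7], x := 1, cs := [.dia 1, .dia 2, .ne 0 1, .big, .big, .big, .big] }]

theorem tab73_ok : checkTable th73 tab73 = true := by decide +kernel

theorem good73.{u} : Good.{u} th73 :=
  good_of_table _ tab73 tab73_ok (by decide +kernel) (by decide +kernel)

def th75 : Th := ⟨15, 8, 1, 19, true⟩

def tab75 : List Node := [
  { m := 3, L := [7], x := 0, cs := [.go 1 [0, 1, 2], .go 2 [0, 1, 2, 3], .go 2 [0, 2, 1, 3], .go 3 [0, 1, 2, 3, 4]] },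
  { m := 3, L := [7, 7], x := 0, cs := [.dia 0, .dia 0, .dia 0, .go 4 [0, 1, 2, 3, 4]] },
  { m := 4, L := [11, 7], x := 0, cs := [.dia 0, .dia 0, .dia 0, .dia 0, .go 5 [0, 1, 2, 3, 4], .go 5 [0, 1, 3, 2, 4], .dia 0] },
  { m := 5, L := [25, 7], x := 0, cs := [.go 4 [0, 1, 2, 3, 4], .go 5 [0, 1, 3, 2, 4], .go 5 [0, 1, 4, 2, 3], .go 5 [0, 2, 3, 1, 4], .go 5 [0, 2, 4, 1, 3], .go 4 [0, 3, 4, 1, 2], .dia 0, .dia 0, .dia 0, .dia 0, .dia 0] },
  { m := 5, L := [25, 7, 7], x := 1, cs := [.dia 1, .dia 1, .ne 0 1, .dia 1, .gt 0 5, .gt 0 5, .ne 0 1] },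
  { m := 5, L := [21, 11, 7], x := 1, cs := [.dia 1, .dia 2, .gt 0 3, .gt 0 5, .ne 0 1, .dia 1, .dia 1] }]

theorem tab75_ok : checkTable th75 tab75 = true := by decide +kernel

theorem good75.{u} : Good.{u} th75 :=
  good_of_table _ tab75 tab75_ok (by decide +kernel) (by decide +kernel)

def th76 : Th := ⟨8, 8, 2, 19, true⟩

def tab76 : List Node := [
  { m := 3, L := [7], x := 0, cs := [.go 1 [0, 1, 2], .go 2 [0, 1, 2, 3], .go 2 [0, 2, 1, 3], .go 3 [0, 1, 2, 3, 4]] },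
  { m := 3, L := [7, 7], x := 0, cs := [.dia 0, .dia 0, .dia 0, .go 4 [0, 1, 2, 3, 4]] },
  { m := 4, L := [11, 7], x := 0, cs := [.dia 0, .dia 0, .dia 0, .dia 0, .go 5 [0, 1, 2, 3, 4], .go 5 [0, 1, 3, 2, 4], .dia 0] },
  { m := 5, L := [25, 7], x := 0, cs := [.go 4 [0, 1, 2, 3, 4], .go 5 [0, 1, 3, 2, 4], .go 5 [0, 1, 4, 2, 3], .go 5 [0, 2, 3, 1, 4], .go 5 [0, 2, 4, 1, 3], .go 4 [0, 3, 4, 1, 2], .dia 0, .dia 0, .dia 0, .dia 0, .dia 0] },
  { m := 5, L := [25, 7, 7], x := 1, cs := [.dia 1, .dia 1, .go 6 [0, 1, 2, 3, 4], .dia 1, .ne 0 1, .ne 0 1, .ne 0 1] },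
  { m := 5, L := [21, 11, 7], x := 1, cs := [.dia 1, .dia 2, .ne 0 1, .ne 0 1, .ne 0 1, .dia 1, .dia 1] },
  { m := 5, L := [26, 25, 7, 7], x := 2, cs := [.dia 3, .dia 3, .dia 4, .ne 0 2] }]

theorem tab76_ok : checkTable th76 tab76 = true := by decide +kernel

theorem good76.{u} : Good.{u} th76 :=
  good_of_table _ tab76 tab76_ok (by decide +kernel) (by decide +kernel)

def th78 : Th := ⟨9, 9, 1, 19, true⟩

def tab78 : List Node := [
  { m := 3, L := [7], x := 0, cs := [.go 1 [0, 1, 2], .go 2 [0, 1, 2, 3], .go 2 [0, 2, 1, 3], .go 3 [0, 1, 2, 3, 4]] },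
  { m := 3, L := [7, 7], x := 0, cs := [.dia 0, .dia 0, .dia 0, .go 4 [0, 1, 2, 3, 4]] },
  { m := 4, L := [11, 7], x := 0, cs := [.dia 0, .dia 0, .dia 0, .dia 0, .go 5 [0, 1, 2, 3, 4], .go 5 [0, 1, 3, 2, 4], .dia 0] },
  { m := 5, L := [25, 7], x := 0, cs := [.go 4 [0, 1, 2, 3, 4], .go 5 [0, 1, 3, 2, 4], .go 5 [0, 1, 4, 2, 3], .go 5 [0, 2, 3, 1, 4], .go 5 [0, 2, 4, 1, 3], .go 4 [0, 3, 4, 1, 2], .dia 0, .dia 0, .dia 0, .dia 0, .dia 0] },
  { m := 5, L := [25, 7, 7], x := 1, cs := [.dia 1, .dia 1, .ne 0 1, .dia 1, .ne 0 1, .ne 0 1, .ne 0 1] },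
  { m := 5, L := [21, 11, 7], x := 1, cs := [.dia 1, .dia 2, .ne 0 1, .ne 0 1, .ne 0 1, .dia 1, .dia 1] }]

theorem tab78_ok : checkTable th78 tab78 = true := by decide +kernel

theorem good78.{u} : Good.{u} th78 :=
  good_of_table _ tab78 tab78_ok (by decide +kernel) (by decide +kernel)

def th79 : Th := ⟨5, 9, 2, 19, true⟩

def tab79 : List Node := [
  { m := 3, L := [7], x := 0, cs := [.go 1 [0, 1, 2], .go 2 [0, 1, 2, 3], .go 2 [0, 2, 1, 3], .go 3 [0, 1, 2, 3, 4]] },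
  { m := 3, L := [7, 7], x := 0, cs := [.dia 0, .dia 0, .dia 0, .go 4 [0, 1, 2, 3, 4]] },
  { m := 4, L := [11, 7], x := 0, cs := [.dia 0, .dia 0, .dia 0, .dia 0, .go 5 [0, 1, 2, 3, 4], .go 5 [0, 1, 3, 2, 4], .big] },
  { m := 5, L := [25, 7], x := 0, cs := [.go 4 [0, 1, 2, 3, 4], .go 5 [0, 1, 3, 2, 4], .go 5 [0, 1, 4, 2, 3], .go 5 [0, 2, 3, 1, 4], .go 5 [0, 2, 4, 1, 3], .go 4 [0, 3, 4, 1, 2], .big, .big, .big, .big, .big] },
  { m := 5, L := [25, 7, 7], x := 1, cs := [.dia 1, .dia 1, .ne 0 1, .big, .big, .big, .big] },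
  { m := 5, L := [21, 11, 7], x := 1, cs := [.dia 1, .dia 2, .ne 0 1, .big, .big, .big, .big] }]

theorem tab79_ok : checkTable th79 tab79 = true := by decide +kernel

theorem good79.{u} : Good.{u} th79 :=
  good_of_table _ tab79 tab79_ok (by decide +kernel) (by decide +kernel)

end R29.CB
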