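import Pool.Agent.R29.CB.Run
set_option linter.all false

/-! Certificate tables (generated). -/

namespace R29.CB

def th63 : Th := ⟨3, 10, 2, 17, true⟩

def tab63 : List Node := [
  { m := 3, L := [7], x := 0, cs := [.go 1 [0, 1, 2], .big, .big, .big] },
  { m := 3, L := [7, 7], x := 0, cs := [.dia 0, .big, .big, .big] }]

theorem tab63_ok : checkTable th63 tab63 = true := by decide +kernel

theorem good63.{u} : Good.{u} th63 :=
  good_of_table _ tab63 tab63_ok (by decide +kernel) (by decide +kernel)

def th74 : Th := ⟨3, 7, 10, 19, true⟩

def tab74 : List Node := [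
  { m := 3, L := [7], x := 0, cs := [.go 1 [0, 1, 2], .big, .big, .big] },
  { m := 3, L := [7, 7], x := 0, cs := [.dia 0, .big, .big, .big] }]

theorem tab74_ok : checkTable th74 tab74 = true := by decide +kernel

theorem good74.{u} : Good.{u} th74 :=
  good_of_table _ tab74 tab74_ok (by decide +kernel) (by decide +kernel)

def th77 : Th := ⟨3, 8, 7, 19, true⟩

def tab77 : List Node := [
  { m := 3, L := [7], x := 0, cs := [.go 1 [0, 1, 2], .big, .big, .big] },
  { m := 3, L := [7, 7], x := 0, cs := [.dia 0, .big, .big, .big] }]

theorem tab77_ok : checkTable th77 tab77 = true := by decide +kernel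

theorem good77.{u} : Good.{u} th77 :=
  good_of_table _ tab77 tab77_ok (by decide +kernel) (by decide +kernel)

def th80 : Th := ⟨3, 9, 4, 19, true⟩

def tab80 : List Node := [
  { m := 3, L := [7], x := 0, cs := [.go 1 [0, 1, 2], .big, .big, .big] },
  { m := 3, L := [7, 7], x := 0, cs := [.dia 0, .big, .big, .big] }]

theorem tab80_ok : checkTable th80 tab80 = true := by decide +kernel

theorem good80.{u} : Good.{u} th80 :=
  good_of_table _ tab80 tab80_ok (by decide +kernel) (by decide +kernel)

def th81 : Th := ⟨2, 9, 8, 19, true⟩

def tab81 : List Node := [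
  { m := 3, L := [7], x := 0, cs := [.big, .big, .big, .big] }]

theorem tab81_ok : checkTable th81 tab81 = true := by decide +kernel

theorem good81.{u} : Good.{u} th81 :=
  good_of_table _ tab81 tab81_ok (by decide +kernel) (by decide +kernel)

def th82 : Th := ⟨3, 10, 1, 19, true⟩

def tab82 : List Node := [
  { m := 3, L := [7], x := 0, cs := [.go 1 [0, 1, 2], .big, .big, .big] },
  { m := 3, L := [7, 7], x := 0, cs := [.dia 0, .big, .big, .big] }]

theorem tab82_ok : checkTable th82 tab82 = true := by decide +kernel

theorem good82.{u} : Good.{u} th82 :=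
  good_of_table _ tab82 tab82_ok (by decide +kernel) (by decide +kernel)

def th83 : Th := ⟨2, 10, 2, 19, true⟩

def tab83 : List Node := [
  { m := 3, L := [7], x := 0, cs := [.big, .big, .big, .big] }]

theorem tab83_ok : checkTable th83 tab83 = true := by decide +kernel

theorem good83.{u} : Good.{u} th83 :=
  good_of_table _ tab83 tab83_ok (by decide +kernel) (by decide +kernel)

end R29.CB
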